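import Mathlib

set_option autoImplicit false

/-!
# H55D: sources of degree two in planar graphs (MP_ddd335_co)

Orders of the vertices of a graph, given by injective functions into `ℕ`.
-/

namespace Pool.Agent.Lib.H55D

variable {V : Type}

/-- `v` has degree two. -/
def DegTwo (G : SimpleGraph V) (v : V) : Prop :=
  ∃ a b, a ≠ b ∧ ∀ w, G.Adj v w ↔ w = a ∨ w = b

/-- `v` has degree two, and it lies in a triangle or has a neighbour of degree two. -/
def Special (G : SimpleGraph V) (v : V) : Prop :=
  DegTwo G v ∧ ((∃ a b, G.Adj v a ∧ G.Adj v b ∧ G.Adj a b) ∨ ∃ a, G.Adj v a ∧ DegTwo G a)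

/-- Arcs with left ends of the same colour do not cross. -/
def Strict (H : V → V → Prop) (c : V → Bool) (p : V → ℕ) : Prop :=
  Function.Injective p ∧ ∀ z u v w, p z < p u → p u < p v → p v < p w → c z = c u →
    H z v → H u w → False

/-- The order of `Lib/H92W/WBS.lean`: classes `some true`, `some false` and the sources `none`. -/
structure WBS (G : SimpleGraph V) (col : V → Option Bool) (pos : V → ℕ) : Prop where
  inj : Function.Injective pos
  col_ne : ∀ u v, G.Adj u v → col u ≠ col v
  src : ∀ s v, col s = none → G.Adj s v → pos v < pos s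
  book : ∀ z u v w, pos z < pos u → pos u < pos v → pos v < pos w → col u ≠ none →
    col z = col u → col v ≠ col u → col w ≠ col u → G.Adj z v → G.Adj u w → G.Adj u v

end Pool.Agent.Lib.H55D
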