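import Mathlib
import Pool.Agent.Lib.H13E.Defs
import Pool.Agent.Lib.H55B.H1
import Pool.Agent.Lib.H55C.BSDTwo
import Pool.Agent.Lib.H55C.Y32

open NumberField IsDedekindDomain

namespace H55D

open H55B H55C

/-- K₀/ℚ is unramified outside the prime numbers l = 1 mod 3 modulo which 2 is not a cube. -/
def UnrQ (K₀ : Type) [Field K₀] [NumberField K₀] : Prop :=
  ∀ (w : HeightOneSpectrum (𝓞 K₀)) (l : ℕ), l.Prime → (l : 𝓞 K₀) ∈ w.asIdeal →
    ¬ (l % 3 = 1 ∧ ¬ ∃ x : ZMod l, x ^ 3 = 2) → w.asIdeal.ramificationIdx ℤ = 1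

/-! Chunk X3 (L): K = K₀(om), e.g. the subfield generated by K₀ and F in an algebraic closure, or the splitting field of X^2 + X + 1 over K₀ (AdjoinRoot if irreducible), with Algebra F K.
K₀ contains no root ζ of x^2 + x + 1: K₀ would contain Q(ζ), ramified at 3 (-3 = (2ζ+1)^2: for w above 3 the valuation of 3 would be even, so w would be ramified over Z), but 3 is not 1 mod 3, so K₀/ℚ is unramified at 3. So Quad K₀ K.
K/F is Galois (K = K₀ F), restriction Gal(K/F) -> Gal(K₀/ℚ) is injective, so the order is a power of 2. UnrOut K: let w be a prime of K above v not Good, v in O above the prime number l (or v above 2 or 3), w₀ = w ∩ K₀. Then l is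
not an admissible number: if l = 1 mod 3 and 2 is not a cube mod l then v is good (O/v has l elements: H1/prime_types; x^3 = 2 in O/v = Z/l; 2, 3 not in v) (if l = 2 mod 3 the first condition fails; l = 3: fails). So w₀ is
unramified over Z; the inertia group of w in Gal(K/F) restricts injectively into the inertia group of w₀ in Gal(K₀/ℚ), which is trivial (its order is the ramification index). Hence e(w|v) = 1. -/

theorem X3_card {K : Type} [Field K] [NumberField K] [IsGalois ℚ K]
    (w : HeightOneSpectrum (𝓞 K)) :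
    Nat.card (w.asIdeal.inertia (K ≃ₐ[ℚ] K)) = w.asIdeal.ramificationIdx ℤ := by
  have hwm := w.isMaximal
  have hwp := w.isPrime
  have hp : (w.asIdeal.under ℤ).IsPrime := inferInstance
  have hne : w.asIdeal.under ℤ ≠ ⊥ := by
    intro h
    exact w.ne_bot (Ideal.eq_bot_of_comap_eq_bot (R := ℤ) (I := w.asIdeal) h)
  have hvm : (w.asIdeal.under ℤ).IsMaximal := hp.isMaximal hne
  have hl : w.asIdeal.LiesOver (w.asIdeal.under ℤ) := ⟨rfl⟩
  rw [Ideal.card_inertia_eq_ramificationIdxIn (G := K ≃ₐ[ℚ] K) (w.asIdeal.under ℤ) w.asIdeal,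
    Ideal.ramificationIdxIn_eq_ramificationIdx (w.asIdeal.under ℤ) w.asIdeal (K ≃ₐ[ℚ] K)]

theorem X3_inertia {K : Type} [Field K] [NumberField K] [IsGalois ℚ K]
    (w : HeightOneSpectrum (𝓞 K)) (h : w.asIdeal.ramificationIdx ℤ = 1) (g : K ≃ₐ[ℚ] K)
    (hg : ∀ y : 𝓞 K, g • y - y ∈ w.asIdeal) : g = 1 := by
  rw [← X3_card w, Subgroup.card_eq_one, Subgroup.eq_bot_iff_forall] at h
  exact h g hg

theorem X3_prime {R : Type} [CommRing R] (P : Ideal R) [hP : P.IsPrime] :
    ∀ n : ℕ, n ≠ 0 → (n : R) ∈ P → ∃ r : ℕ, r.Prime ∧ (r : R) ∈ P := by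
  intro n
  induction n using Nat.strong_induction_on with
  | _ n ih =>
    intro hn0 hn
    have hn1 : n ≠ 1 := by
      rintro rfl
      apply hP.ne_top
      rw [Ideal.eq_top_iff_one]
      exact_mod_cast hn
    obtain ⟨p, hp, k, hk⟩ := Nat.exists_prime_and_dvd hn1
    rw [hk] at hn
    push_cast at hn
    rcases hP.mem_or_mem hn with h | h
    · exact ⟨p, hp, h⟩
    · have hk0 : k ≠ 0 := by rintro rfl; exact hn0 (by rw [hk, mul_zero])
      refine ih k ?_ hk0 h
      rw [hk]
      have := hp.two_le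
      have := Nat.pos_of_ne_zero hk0
      nlinarith

theorem X3_good (v : HeightOneSpectrum O) (l : ℕ) (hl : l.Prime) (hlv : (l : O) ∈ v.asIdeal)
    (h1 : l % 3 = 1) (hc : ¬ ∃ x : ZMod l, x ^ 3 = 2) : Good v := by
  have h2v : (2 : O) ∉ v.asIdeal := by
    intro h
    have h1 := (H1_int_mem hl hlv 2).1 (by exact_mod_cast h)
    have h2 : l ∣ 2 := by exact_mod_cast h1
    have h3 := (Nat.prime_dvd_prime_iff_eq hl Nat.prime_two).1 h2
    omega
  have h3v : (3 : O) ∉ v.asIdeal := by
    intro h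
    have h1 := (H1_int_mem hl hlv 3).1 (by exact_mod_cast h)
    have h2 : l ∣ 3 := by exact_mod_cast h1
    have h3 := (Nat.prime_dvd_prime_iff_eq hl Nat.prime_three).1 h2
    omega
  refine ⟨h2v, h3v, ?_⟩
  rintro ⟨x, hx⟩
  apply hc
  have hcard : Ideal.absNorm v.asIdeal = l := by
    rcases prime_types v h3v with ⟨l', hl', -, hN⟩ | ⟨q, hq, hq3, hv⟩
    · have h4 := Ideal.absNorm_mem v.asIdeal
      rw [hN] at h4
      have h5 := (H1_int_mem hl hlv l').1 (by exact_mod_cast h4)
      have h6 : l ∣ l' := by exact_mod_cast h5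
      rw [hN, (Nat.prime_dvd_prime_iff_eq hl hl').1 h6]
    · exfalso
      have h4 : (q : O) ∈ v.asIdeal := by
        rw [hv]
        exact Ideal.mem_span_singleton_self _
      have h5 := (H1_int_mem hl hlv q).1 (by exact_mod_cast h4)
      have h6 : l ∣ q := by exact_mod_cast h5
      have h7 := (Nat.prime_dvd_prime_iff_eq hl hq).1 h6
      omega
  have hcard' : Nat.card (O ⧸ v.asIdeal) = l := hcard
  have hfin : Finite (O ⧸ v.asIdeal) :=
    Nat.finite_of_card_ne_zero (by rw [hcard']; exact hl.ne_zero)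
  let _ : Fintype (O ⧸ v.asIdeal) := Fintype.ofFinite _
  have hc' : Fintype.card (O ⧸ v.asIdeal) = l := by rw [← Nat.card_eq_fintype_card, hcard']
  let f : ZMod l ≃+* O ⧸ v.asIdeal := ZMod.ringEquivOfPrime _ hl hc'
  refine ⟨f.symm (Ideal.Quotient.mk v.asIdeal x), ?_⟩
  rw [← map_pow]
  have h8 := Ideal.Quotient.eq_zero_iff_mem.2 hx
  rw [map_sub, map_pow, map_ofNat, sub_eq_zero] at h8
  rw [h8, map_ofNat]

theorem X3_noroot {K₀ : Type} [Field K₀] [NumberField K₀] (hU : UnrQ K₀) (x : K₀) :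
    x ^ 2 + x + 1 ≠ 0 := by
  intro hx
  have hint : IsIntegral ℤ (2 * x + 1) := by
    refine ⟨Polynomial.X ^ 2 + 3, by monicity!, ?_⟩
    simp only [Polynomial.eval₂_add, Polynomial.eval₂_pow, Polynomial.eval₂_X,
      Polynomial.eval₂_ofNat]
    linear_combination 4 * hx
  let y : 𝓞 K₀ := ⟨2 * x + 1, hint⟩
  have hy : (3 : 𝓞 K₀) = -(y ^ 2) := by
    apply RingOfIntegers.ext
    show (3 : K₀) = -((2 * x + 1) ^ 2)
    linear_combination 4 * hx
  have h3p : (Ideal.span {(3 : ℤ)}).IsPrime :=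
    (Ideal.span_singleton_prime (by norm_num)).2 Int.prime_three
  have h3b : Ideal.span {(3 : ℤ)} ≠ ⊥ := by
    rw [Ne, Ideal.span_singleton_eq_bot]
    norm_num
  have h3m : (Ideal.span {(3 : ℤ)}).IsMaximal := h3p.isMaximal h3b
  obtain ⟨P, hPm, hPl⟩ := Ideal.exists_maximal_ideal_liesOver_of_isIntegral (S := 𝓞 K₀)
    (Ideal.span {(3 : ℤ)})
  have hPp := hPm.isPrime
  have hPb : P ≠ ⊥ := Ideal.ne_bot_of_liesOver_of_ne_bot h3b P
  have h3P : ((3 : ℕ) : 𝓞 K₀) ∈ P := by
    have h1 : (3 : ℤ) ∈ P.under ℤ := by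
      rw [← hPl.over]
      exact Ideal.mem_span_singleton_self _
    have h2 : algebraMap ℤ (𝓞 K₀) 3 ∈ P := h1
    simpa using h2
  have he := hU ⟨P, hPp, hPb⟩ 3 Nat.prime_three h3P (by omega)
  have hyP : y ∈ P := by
    have h1 : y ^ 2 ∈ P := by
      have h2 : y ^ 2 = -((3 : ℕ) : 𝓞 K₀) := by
        have : ((3 : ℕ) : 𝓞 K₀) = 3 := by norm_num
        rw [this, hy, neg_neg]
      rw [h2]
      exact P.neg_mem h3P
    exact hPp.mem_of_pow_mem 2 h1
  have hle : (Ideal.span {(3 : ℤ)}).map (algebraMap ℤ (𝓞 K₀)) ≤ P ^ 2 := by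
    rw [Ideal.map_span, Set.image_singleton, Ideal.span_singleton_le_iff_mem]
    have h1 : algebraMap ℤ (𝓞 K₀) 3 = -(y ^ 2) := by
      rw [← hy]
      simp
    rw [h1]
    exact (P ^ 2).neg_mem (Ideal.pow_mem_pow hyP 2)
  have hne := (Ideal.ramificationIdx'_ne_one_iff (hle.trans (Ideal.pow_le_self two_ne_zero))).2 hle
  rw [Ideal.ramificationIdx'_eq_ramificationIdx (Ideal.span {(3 : ℤ)}) P h3b] at hne
  exact hne he

/-- The image of the cube root of unity of F in an F-algebra. -/
noncomputable def X3_z (L : Type) [Field L] [Algebra F L] : L := algebraMap F L (om : F)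

theorem X3_z_root (L : Type) [Field L] [Algebra F L] : X3_z L ^ 2 + X3_z L + 1 = 0 := by
  have h1 : ((om : F)) ^ 2 + (om : F) + 1 = 0 := by
    have h := congrArg (algebraMap O F) om_rel
    simpa only [map_add, map_pow, map_one, map_zero] using h
  have h2 := congrArg (algebraMap F L) h1
  simp only [map_add, map_pow, map_one, map_zero] at h2
  exact h2

theorem X3_range (K₀ L : Type) [Field K₀] [Field L] [Algebra F L] [Algebra K₀ L]
    (S : IntermediateField K₀ L) (h : X3_z L ∈ S) (x : F) : algebraMap F L x ∈ S := by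
  obtain ⟨a, b, hb, rfl⟩ := IsFractionRing.div_surjective (A := O) x
  have h1 : ∀ a : O, algebraMap F L (algebraMap O F a) ∈ S := by
    intro a
    obtain ⟨m, n, rfl⟩ := exists_repr a
    have h2 : algebraMap F L (algebraMap O F (m + n * om)) = m + n * X3_z L := by
      simp only [map_add, map_mul, map_intCast]
      rfl
    rw [h2]
    exact S.add_mem (intCast_mem S m) (S.mul_mem (intCast_mem S n) h)
  rw [map_div₀]
  exact S.div_mem (h1 a) (h1 b)

theorem X3_rank (K₀ L : Type) [Field K₀] [Field L] [Algebra K₀ L] (z : L)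
    (hz : z ^ 2 + z + 1 = 0) (hn : ∀ x : K₀, x ^ 2 + x + 1 ≠ 0) :
    Module.finrank K₀ (IntermediateField.adjoin K₀ {z}) = 2 := by
  let q : Polynomial K₀ := Polynomial.X ^ 2 + Polynomial.X + 1
  have hq1 : q.Monic := by
    show (Polynomial.X ^ 2 + Polynomial.X + 1 : Polynomial K₀).Monic
    monicity!
  have hq2 : q.natDegree = 2 := by
    show (Polynomial.X ^ 2 + Polynomial.X + 1 : Polynomial K₀).natDegree = 2
    compute_degree!
  have hq3 : Polynomial.aeval z q = 0 := by
    show Polynomial.aeval z (Polynomial.X ^ 2 + Polynomial.X + 1 : Polynomial K₀) = 0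
    simp only [map_add, map_pow, Polynomial.aeval_X, map_one]
    exact hz
  have hq4 : Irreducible q := by
    apply Polynomial.irreducible_of_degree_le_three_of_not_isRoot
    · rw [hq2]
      simp
    · intro x hx
      apply hn x
      have h1 : Polynomial.eval x (Polynomial.X ^ 2 + Polynomial.X + 1 : Polynomial K₀) = 0 := hx
      simpa only [Polynomial.eval_add, Polynomial.eval_pow, Polynomial.eval_X,
        Polynomial.eval_one] using h1
  have h5 : minpoly K₀ z = q := (minpoly.eq_of_irreducible_of_monic hq4 hq3 hq1).symm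
  have h6 : IsIntegral K₀ z := ⟨q, hq1, hq3⟩
  rw [IntermediateField.adjoin.finrank h6, h5, hq2]

theorem X3_finrank : Module.finrank ℚ F = 2 := by
  have h := IsCyclotomicExtension.finrank (n := 3) F
    (Polynomial.cyclotomic.irreducible_rat (by norm_num))
  rw [h]
  decide

theorem X3_normal (K₀ : Type) [Field K₀] [NumberField K₀] (hG : IsGalois ℚ K₀)
    (z : AlgebraicClosure K₀) (hz : z ^ 2 + z + 1 = 0) :
    Normal ℚ (IntermediateField.adjoin K₀ {z}) := by
  have halg : Algebra.IsAlgebraic ℚ (AlgebraicClosure K₀) :=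
    Algebra.IsAlgebraic.trans ℚ K₀ (AlgebraicClosure K₀)
  have hac : IsAlgClosure ℚ (AlgebraicClosure K₀) := ⟨inferInstance, halg⟩
  have hnorm : Normal ℚ (AlgebraicClosure K₀) := IsAlgClosure.normal ℚ _
  let E := IntermediateField.adjoin K₀ {z}
  have hmem : z ∈ E := IntermediateField.mem_adjoin_simple_self K₀ z
  have hE0 : ∀ (σ : AlgebraicClosure K₀ →ₐ[ℚ] AlgebraicClosure K₀) (x : AlgebraicClosure K₀),
      x ∈ E → σ x ∈ E := by
    intro σ x hx
    refine IntermediateField.adjoin_induction K₀ (p := fun x _ => σ x ∈ E) ?_ ?_ ?_ ?_ ?_ hx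
    · rintro x rfl
      have h1 : σ x ^ 2 + σ x + 1 = 0 := by
        have h := congrArg σ hz
        simpa only [map_add, map_pow, map_one, map_zero] using h
      have h2 : (σ x - x) * (σ x + x + 1) = 0 := by linear_combination h1 - hz
      rcases mul_eq_zero.1 h2 with h | h
      · rw [sub_eq_zero.1 h]
        exact hmem
      · have h3 : σ x = -x - 1 := by linear_combination h
        rw [h3]
        exact E.sub_mem (E.neg_mem hmem) E.one_mem
    · intro x
      rw [← AlgHom.restrictNormal_commutes σ K₀ x]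
      exact E.algebraMap_mem _
    · intro x y _ _ h1 h2
      rw [map_add]
      exact add_mem h1 h2
    · intro x _ h1
      rw [map_inv₀]
      exact inv_mem h1
    · intro x y _ _ h1 h2
      rw [map_mul]
      exact mul_mem h1 h2
  have hE : @Normal ℚ (E.restrictScalars ℚ) _ _
      (IntermediateField.algebra' (E.restrictScalars ℚ)) := by
    rw [IntermediateField.normal_iff_forall_map_le]
    intro σ
    rintro _ ⟨x, hx, rfl⟩
    exact hE0 σ x hx
  have h2 : (IntermediateField.algebra' (E.restrictScalars ℚ) :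
      Algebra ℚ (E.restrictScalars ℚ)) = DivisionRing.toRatAlgebra := Subsingleton.elim _ _
  rw [h2] at hE
  exact hE

theorem X3_unr (K₀ E : Type) [Field K₀] [NumberField K₀] (hG : IsGalois ℚ K₀) (hU : UnrQ K₀)
    [Field E] [NumberField E] [Algebra F E] [Algebra K₀ E] (hGE : IsGalois F E)
    (htop : IntermediateField.adjoin K₀ {X3_z E} = ⊤) : UnrOut E := by
  have htow : IsScalarTower ℚ F E := IsScalarTower.of_algebraMap_eq' (Subsingleton.elim _ _)
  have htow' : IsScalarTower ℚ K₀ E := IsScalarTower.of_algebraMap_eq' (Subsingleton.elim _ _)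
  intro w v hv hbad
  rw [inertia_iff w]
  intro g hg
  let g' : E ≃ₐ[ℚ] E := g.restrictScalars ℚ
  let g₀ : K₀ ≃ₐ[ℚ] K₀ := g'.restrictNormal K₀
  have hg₀ : ∀ x : K₀, algebraMap K₀ E (g₀ x) = g (algebraMap K₀ E x) := fun x =>
    AlgEquiv.restrictNormal_commutes g' K₀ x
  have hwp := w.isPrime
  have hp : (w.asIdeal.under (𝓞 K₀)).IsPrime := inferInstance
  have hne : w.asIdeal.under (𝓞 K₀) ≠ ⊥ := by
    intro h
    exact w.ne_bot (Ideal.eq_bot_of_comap_eq_bot (R := 𝓞 K₀) (I := w.asIdeal) h)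
  let w₀ : HeightOneSpectrum (𝓞 K₀) := ⟨w.asIdeal.under (𝓞 K₀), hp, hne⟩
  have h1 : ∀ y : 𝓞 K₀, g₀ • y - y ∈ w₀.asIdeal := by
    intro y
    show algebraMap (𝓞 K₀) (𝓞 E) (g₀ • y - y) ∈ w.asIdeal
    have h2 : algebraMap (𝓞 K₀) (𝓞 E) (g₀ • y) = g • algebraMap (𝓞 K₀) (𝓞 E) y := by
      apply NumberField.RingOfIntegers.ext
      exact hg₀ _
    rw [map_sub, h2]
    exact hg _
  -- the prime number below
  have hvp := v.isPrime
  obtain ⟨l, hl, hlv⟩ : ∃ l : ℕ, l.Prime ∧ (l : O) ∈ v.asIdeal := by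
    refine X3_prime v.asIdeal (Ideal.absNorm v.asIdeal) ?_ (Ideal.absNorm_mem _)
    rw [Ne, Ideal.absNorm_eq_zero_iff]
    exact v.ne_bot
  have hlw : (l : 𝓞 E) ∈ w.asIdeal := by
    rw [hv] at hlv
    have h3 : algebraMap O (𝓞 E) (l : O) ∈ w.asIdeal := hlv
    rwa [map_natCast] at h3
  have hlw₀ : (l : 𝓞 K₀) ∈ w₀.asIdeal := by
    show algebraMap (𝓞 K₀) (𝓞 E) (l : 𝓞 K₀) ∈ w.asIdeal
    rwa [map_natCast]
  have hr := hU w₀ l hl hlw₀ (fun h => hbad (X3_good v l hl hlv h.1 h.2))
  have hg1 : g₀ = 1 := X3_inertia w₀ hr g₀ h1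
  have hfix : ∀ x : K₀, g (algebraMap K₀ E x) = algebraMap K₀ E x := by
    intro x
    rw [← hg₀, hg1]
    rfl
  have hz : g (X3_z E) = X3_z E := g.commutes _
  ext x
  have hx : x ∈ IntermediateField.adjoin K₀ {X3_z E} := by
    rw [htop]
    exact IntermediateField.mem_top
  show g x = x
  refine IntermediateField.adjoin_induction K₀ (p := fun x _ => g x = x) ?_ hfix ?_ ?_ ?_ hx
  · rintro x rfl
    exact hz
  · intro x y _ _ h1 h2
    rw [map_add, h1, h2]
  · intro x _ h1
    rw [map_inv₀, h1]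
  · intro x y _ _ h1 h2
    rw [map_mul, h1, h2]

theorem of_rat (K₀ : Type) [Field K₀] [NumberField K₀] (hG : IsGalois ℚ K₀) (k : ℕ)
    (hk : Module.finrank ℚ K₀ = 2 ^ k) (hU : UnrQ K₀) :
    ∃ (K : Type) (_ : Field K) (_ : NumberField K) (_ : Algebra F K) (_ : Algebra K₀ K),
      H13E.Quad K₀ K ∧ TwoExt K ∧ UnrOut K := by
  classical
  let φ : F →ₐ[ℚ] AlgebraicClosure K₀ := IsAlgClosed.lift
  let _ : Algebra F (AlgebraicClosure K₀) := φ.toRingHom.toAlgebra
  have hz := X3_z_root (AlgebraicClosure K₀)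
  let E : IntermediateField K₀ (AlgebraicClosure K₀) :=
    IntermediateField.adjoin K₀ {X3_z (AlgebraicClosure K₀)}
  have hmem : X3_z (AlgebraicClosure K₀) ∈ E := IntermediateField.mem_adjoin_simple_self K₀ _
  have hint : ∀ x ∈ ({X3_z (AlgebraicClosure K₀)} : Set (AlgebraicClosure K₀)),
      IsIntegral K₀ x := by
    intro x _
    exact (Algebra.IsAlgebraic.isAlgebraic x).isIntegral
  have hEfin : FiniteDimensional K₀ E := IntermediateField.finiteDimensional_adjoin hint
  have hnf : NumberField E := NumberField.of_module_finite K₀ E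
  let ψ : F →+* E := (algebraMap F (AlgebraicClosure K₀)).codRestrict E
    (X3_range K₀ (AlgebraicClosure K₀) E hmem)
  let hFE : Algebra F E := ψ.toAlgebra
  have htow : IsScalarTower ℚ F E := IsScalarTower.of_algebraMap_eq' (Subsingleton.elim _ _)
  have htow' : IsScalarTower ℚ K₀ E := IsScalarTower.of_algebraMap_eq' (Subsingleton.elim _ _)
  have hzE : ((X3_z E : E) : AlgebraicClosure K₀) = X3_z (AlgebraicClosure K₀) := rfl
  have hrank : Module.finrank K₀ E = 2 := X3_rank K₀ _ _ hz (X3_noroot hU)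
  have hN : Normal ℚ E := X3_normal K₀ hG _ hz
  have hGQ : IsGalois ℚ E := { to_normal := hN }
  have hGF : IsGalois F E := IsGalois.tower_top_of_isGalois ℚ F E
  have htop : IntermediateField.adjoin K₀ {X3_z E} = ⊤ := by
    have h1 : IntermediateField.map E.val (IntermediateField.adjoin K₀ {X3_z E}) =
        IntermediateField.map E.val ⊤ := by
      rw [IntermediateField.adjoin_map, Set.image_singleton]
      show IntermediateField.adjoin K₀ {X3_z (AlgebraicClosure K₀)} = _
      rw [← AlgHom.fieldRange_eq_map, IntermediateField.fieldRange_val]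
    exact IntermediateField.map_injective E.val h1
  refine ⟨E, inferInstance, hnf, hFE, inferInstance, ⟨hrank, X3_noroot hU⟩, ⟨hGF, k, ?_⟩,
    X3_unr K₀ E hG hU hGF htop⟩
  have h1 := Module.finrank_mul_finrank ℚ F E
  have h2 := Module.finrank_mul_finrank ℚ K₀ E
  rw [X3_finrank] at h1
  rw [hk, hrank] at h2
  omega

end H55D
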