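import Mathlib
import Pool.Agent.Lib.H55B.I2
import Pool.Agent.Lib.H55C.Defs

open NumberField IsDedekindDomain Polynomial

namespace H55D

open H55B H55C

/-! Chunk Q3 (M): local factors of E27 over any number field, at primes not above 3. COPY of H13E/Q3 with E144 replaced by E27 (y^2 = x^3 - 1 by y^2 + y = x^3; 2 need not be a unit). loc_good0:
H55B.good_local for R = adicCompletionIntegers (3 is a unit of R), residue field of absNorm w elements (residue_card), E27 base changed to the completion is (0,0,1,0,0); two finite fields with the same number of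
elements are isomorphic. count_inert: cubing is a bijection of k when q = 2 mod 3: for every y there is exactly one x with x^3 = y^2 + y (also in characteristic 2). LEF_eq: loc_good0 for both with the same q. LEF_inert: the local
polynomial is 1 + q X^2; I2_cast_ofPS, I2_map_invOfUnit. -/

theorem DQ3_unit (K : Type) [Field K] [NumberField K] (w : HeightOneSpectrum (𝓞 K)) (n : ℕ) [n.AtLeastTwo]
    (h3 : (OfNat.ofNat n : 𝓞 K) ∉ w.asIdeal) : IsUnit (OfNat.ofNat n : w.adicCompletionIntegers K) := by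
  rw [← residue_ker K w, RingHom.mem_ker, RingHom.comp_apply, map_ofNat] at h3
  by_contra hcon
  apply h3
  rw [IsLocalRing.residue_eq_zero_iff, IsLocalRing.mem_maximalIdeal]
  exact hcon

theorem DQ3_count (k k' : Type) [Field k] [Finite k] [Field k'] [Finite k'] (h : Nat.card k = Nat.card k') :
    Nat.card {p : k × k // p.2 ^ 2 + p.2 = p.1 ^ 3} = Nat.card {p : k' × k' // p.2 ^ 2 + p.2 = p.1 ^ 3} := by
  classical
  let _ := Fintype.ofFinite k
  let _ := Fintype.ofFinite k'
  have e : k ≃+* k' := FiniteField.ringEquivOfCardEq (by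
    rw [← Nat.card_eq_fintype_card, ← Nat.card_eq_fintype_card, h])
  refine Nat.card_congr ((Equiv.prodCongr e.toEquiv e.toEquiv).subtypeEquiv ?_)
  rintro ⟨x, y⟩
  show y ^ 2 + y = x ^ 3 ↔ (e y) ^ 2 + e y = (e x) ^ 3
  rw [← map_pow, ← map_pow, ← map_add]
  exact e.injective.eq_iff.symm

theorem loc_good0 (K : Type) [Field K] [NumberField K] (w : HeightOneSpectrum (𝓞 K))
    (h3 : (3 : 𝓞 K) ∉ w.asIdeal) (k : Type) [Field k] [Finite k]
    (hk : Nat.card k = Ideal.absNorm w.asIdeal) :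
    ((E27.baseChange K).baseChange (w.adicCompletion K)).localPolynomial
      (w.adicCompletionIntegers K) =
      1 - C ((Ideal.absNorm w.asIdeal : ℤ) - Nat.card {p : k × k // p.2 ^ 2 + p.2 = p.1 ^ 3}) * X +
        C (Ideal.absNorm w.asIdeal : ℤ) * X ^ 2 := by
  obtain ⟨hfin, hcard⟩ := residue_card K w
  have hcurve : (E27.baseChange K).baseChange (w.adicCompletion K) = ⟨0, 0, 1, 0, 0⟩ := by
    ext <;> simp [E27, WeierstrassCurve.baseChange]
  rw [hcurve, H55B.good_local (w.adicCompletionIntegers K) (w.adicCompletion K) (DQ3_unit K w 3 h3),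
    hcard, DQ3_count (IsLocalRing.ResidueField (w.adicCompletionIntegers K)) k (by rw [hcard, hk])]

theorem count_inert (k : Type) [Field k] [Finite k] (h : Nat.card k % 3 = 2) :
    Nat.card {p : k × k // p.2 ^ 2 + p.2 = p.1 ^ 3} = Nat.card k := by
  classical
  let _ := Fintype.ofFinite k
  obtain ⟨m, hm⟩ : ∃ m, Nat.card k = 3 * m + 2 := ⟨Nat.card k / 3, by omega⟩
  have hpow : ∀ x : k, x ^ (3 * (2 * m + 1)) = x := by
    intro x
    have h1 : x ^ (3 * m + 2) = x := by
      rw [← hm, Nat.card_eq_fintype_card]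
      exact FiniteField.pow_card x
    have h2 : 3 * (2 * m + 1) = (3 * m + 2) + (3 * m + 1) := by ring
    rw [h2, pow_add, h1, ← pow_succ']
    exact h1
  refine Nat.card_congr ⟨fun p => p.1.2, fun y => ⟨((y ^ 2 + y) ^ (2 * m + 1), y), ?_⟩, ?_, ?_⟩
  · show y ^ 2 + y = ((y ^ 2 + y) ^ (2 * m + 1)) ^ 3
    rw [← pow_mul, mul_comm (2 * m + 1) 3, hpow]
  · rintro ⟨⟨x, y⟩, hp⟩
    have hp' : y ^ 2 + y = x ^ 3 := hp
    apply Subtype.ext
    show ((y ^ 2 + y) ^ (2 * m + 1), y) = (x, y)
    rw [hp', ← pow_mul, hpow]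
  · intro y
    rfl

theorem DQ3_norm (K : Type) [Field K] [NumberField K] (w : HeightOneSpectrum (𝓞 K)) :
    1 < Ideal.absNorm w.asIdeal := by
  have h1 : Ideal.absNorm w.asIdeal ≠ 1 := by
    rw [Ne, Ideal.absNorm_eq_one_iff]; exact w.isPrime.ne_top
  have h0 : Ideal.absNorm w.asIdeal ≠ 0 := by
    rw [Ne, Ideal.absNorm_eq_zero_iff]; exact w.ne_bot
  omega

theorem LEF_eq (K K₁ : Type) [Field K] [NumberField K] [Field K₁] [NumberField K₁]
    (w : HeightOneSpectrum (𝓞 K)) (w₁ : HeightOneSpectrum (𝓞 K₁)) (h3 : (3 : 𝓞 K) ∉ w.asIdeal)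
    (h3' : (3 : 𝓞 K₁) ∉ w₁.asIdeal) (hN : Ideal.absNorm w.asIdeal = Ideal.absNorm w₁.asIdeal) :
    LEF K w = LEF K₁ w₁ := by
  obtain ⟨hfin, hcard⟩ := residue_card K w
  have e1 := loc_good0 K w h3 (IsLocalRing.ResidueField (w.adicCompletionIntegers K)) hcard
  have e2 := loc_good0 K₁ w₁ h3' (IsLocalRing.ResidueField (w.adicCompletionIntegers K))
    (hcard.trans hN)
  unfold LEF
  rw [WeierstrassCurve.localEulerFactor, WeierstrassCurve.localEulerFactor, hcard,
    (residue_card K₁ w₁).2, WeierstrassCurve.localPowerSeries, WeierstrassCurve.localPowerSeries,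
    e1, e2, hN]

theorem LEF_inert (K : Type) [Field K] [NumberField K] (w : HeightOneSpectrum (𝓞 K))
    (h3 : (3 : 𝓞 K) ∉ w.asIdeal) (h : Ideal.absNorm w.asIdeal % 3 = 2) :
    LEF K w = ArithmeticFunction.ofPowerSeries (Ideal.absNorm w.asIdeal)
      ((1 + PowerSeries.C (Ideal.absNorm w.asIdeal : ℂ) * PowerSeries.X ^ 2)⁻¹ : PowerSeries ℂ) := by
  obtain ⟨hfin, hcard⟩ := residue_card K w
  have e1 := loc_good0 K w h3 (IsLocalRing.ResidueField (w.adicCompletionIntegers K)) hcard
  rw [count_inert _ (by rw [hcard]; exact h), hcard, sub_self, map_zero, zero_mul, sub_zero] at e1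
  have hP0 : (1 + C (Ideal.absNorm w.asIdeal : ℤ) * X ^ 2 : Polynomial ℤ).coeff 0 = 1 := by
    simp
  unfold LEF
  rw [WeierstrassCurve.localEulerFactor, hcard, I2_cast_ofPS (DQ3_norm K w),
    WeierstrassCurve.localPowerSeries, e1, I2_map_invOfUnit _ hP0]
  have e2 : ((Int.castRingHom ℂ) ((Ideal.absNorm w.asIdeal : ℕ) : ℤ) : ℂ) =
      ((Ideal.absNorm w.asIdeal : ℕ) : ℂ) := by simp
  rw [Polynomial.map_add, Polynomial.map_one, Polynomial.map_mul, Polynomial.map_C,
    Polynomial.map_pow, Polynomial.map_X, Polynomial.coe_add, Polynomial.coe_one,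
    Polynomial.coe_mul, Polynomial.coe_C, Polynomial.coe_pow, Polynomial.coe_X, e2]

end H55D
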