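import Mathlib
import Pool.Agent.Lib.H13E.Q2
import Pool.Agent.Lib.H55D.Q3

open NumberField IsDedekindDomain

namespace H55D

open H55B H55C

variable {K₀ K : Type} [Field K₀] [NumberField K₀] [Field K] [NumberField K] [Algebra F K] [Algebra K₀ K]

/-! Chunk Q4 (M): the inert case. COPY/ADAPT of H13E/Q4 (q4_norm_mod, q4_below, q4_gen are about O and can be imported or copied; gen v instead of the Frobenius eigenvalue fe v of E144: for E27
the local factor at w is (1 - gen(v)^f X)(1 - conj gen(v)^f X) by H55B.loc_good, f = inertiaDeg). w' inert in K (absNorm w' = 2 mod 3: H13E.split_two), w above w', v below w in O: v = (l), l = 2 mod 3 a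
rational prime (l = 2 allowed), gen v = -l, l^f' = absNorm w', absNorm w = absNorm w'^2; f is odd, so gen(v)^f = -(absNorm w'). So LEF K w is given by 1/(1 + q Y)^2, Y = X at q^2, q = absNorm w', and
LEF K₀ w' = 1/(1 + q X^2) (LEF_inert); ofPowerSeries (q^2) P(X) = ofPowerSeries q P(X^2) (I2_subst.. / as in H13E). -/

theorem DQ4_norm_mod (v : HeightOneSpectrum O) (h3 : (3 : O) ∉ v.asIdeal) :
    Ideal.absNorm v.asIdeal % 3 = 1 := by
  obtain ⟨z, hz⟩ := (gen_spec v h3).2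
  obtain ⟨a, b, rfl⟩ := exists_repr z
  have h1 : gen v = ((1 + 3 * a : ℤ) : O) + ((3 * b : ℤ) : O) * om := by
    push_cast
    linear_combination hz
  have h2 := Nm_repr (1 + 3 * a) (3 * b)
  rw [← h1] at h2
  have h3' : (Nm (gen v) : ℤ) = 3 * (2 * a + 3 * a ^ 2 - (1 + 3 * a) * b + 3 * b ^ 2) + 1 := by
    rw [h2]; ring
  rw [absNorm_gen v h3]
  omega

/-- the prime of the Eisenstein integers below an inert prime -/
theorem DQ4_below (v : HeightOneSpectrum O) (h3 : (3 : O) ∉ v.asIdeal) (q f : ℕ)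
    (hq : q % 3 = 2) (h : Ideal.absNorm v.asIdeal ^ f = q ^ 2) :
    ∃ l : ℕ, l.Prime ∧ l % 3 = 2 ∧ v.asIdeal = Ideal.span {(l : O)} ∧ l ^ f = q := by
  rcases prime_types v h3 with ⟨l, hl, -, hN⟩ | ⟨l, hl, hl3, hv⟩
  · exfalso
    have h1 := DQ4_norm_mod v h3
    rw [hN] at h1 h
    have h2 : q ∣ l ^ f := by rw [h]; exact dvd_pow_self q (by norm_num)
    obtain ⟨j, -, hj⟩ := (Nat.dvd_prime_pow hl).1 h2
    rw [hj, Nat.pow_mod, h1, one_pow] at hq
    omega
  · refine ⟨l, hl, hl3, hv, ?_⟩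
    have h1 := Nm_repr l 0
    push_cast at h1
    rw [zero_mul, add_zero] at h1
    have h2 : (Nm (l : O) : ℤ) = (l ^ 2 : ℕ) := by rw [h1]; push_cast; ring
    have h4 : Ideal.absNorm v.asIdeal = l ^ 2 := by
      rw [hv]
      exact_mod_cast h2
    rw [h4, ← pow_mul, mul_comm, pow_mul] at h
    exact Nat.pow_left_injective (n := 2) (by norm_num) h

theorem DQ4_gen (v : HeightOneSpectrum O) (h3 : (3 : O) ∉ v.asIdeal) (l : ℕ) (hl3 : l % 3 = 2)
    (hv : v.asIdeal = Ideal.span {(l : O)}) : gen v = -(l : O) := by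
  apply Prim.eq_of_associated (gen_spec v h3).2
  · obtain ⟨m, hm⟩ : ∃ m : ℕ, l + 1 = 3 * m := ⟨(l + 1) / 3, by omega⟩
    refine ⟨-(m : O), ?_⟩
    have h4 := congrArg (fun z : ℕ => (z : O)) hm
    push_cast at h4
    linear_combination -h4
  · apply Associated.neg_right
    rw [← Ideal.span_singleton_eq_span_singleton, ← (gen_spec v h3).1, hv]

theorem DQ4_inert (hQ : H13E.Quad K₀ K) (w' : HeightOneSpectrum (𝓞 K₀)) (h3 : (3 : 𝓞 K₀) ∉ w'.asIdeal)
    (h : Ideal.absNorm w'.asIdeal % 3 = 2)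
    (w : HeightOneSpectrum (𝓞 K)) (hw : w'.asIdeal = w.asIdeal.under (𝓞 K₀))
    (v : HeightOneSpectrum O) (hv : v.asIdeal = w.asIdeal.under O) :
    e (gen v) ^ (w.asIdeal.inertiaDeg O) = -(Ideal.absNorm w'.asIdeal : ℂ) ∧
      Ideal.absNorm v.asIdeal ^ (w.asIdeal.inertiaDeg O) = Ideal.absNorm w'.asIdeal ^ 2 := by
  obtain ⟨w₁, hw₁, hN⟩ := H13E.split_two hQ w' h3 h
  have hww : w = w₁ := (hw₁ w).1 hw
  subst hww
  have h3v : (3 : O) ∉ v.asIdeal := by
    intro hc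
    apply h3
    rw [hw, Ideal.mem_comap, map_ofNat]
    rw [hv, Ideal.mem_comap, map_ofNat] at hc
    exact hc
  have hpow : Ideal.absNorm v.asIdeal ^ (w.asIdeal.inertiaDeg O) = Ideal.absNorm w'.asIdeal ^ 2 := by
    rw [← absNorm_inertia K w v hv, hN]
  refine ⟨?_, hpow⟩
  obtain ⟨l, hl, hl3, hvl, hlf⟩ := DQ4_below v h3v _ _ h hpow
  have hfodd : Odd (w.asIdeal.inertiaDeg O) := by
    rw [← Nat.not_even_iff_odd]
    rintro ⟨j, hj⟩
    rw [← hlf, hj, ← two_mul, pow_mul, Nat.pow_mod] at h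
    have h5 : l ^ 2 % 3 = 1 := by rw [Nat.pow_mod, hl3]
    rw [h5, one_pow] at h
    omega
  rw [DQ4_gen v h3v l hl3 hvl, map_neg, map_natCast, hfodd.neg_pow, ← hlf]
  push_cast
  rfl

theorem LEF_two (hQ : H13E.Quad K₀ K) (w' : HeightOneSpectrum (𝓞 K₀)) (h3 : (3 : 𝓞 K₀) ∉ w'.asIdeal)
    (h : Ideal.absNorm w'.asIdeal % 3 = 2) (w : HeightOneSpectrum (𝓞 K))
    (hw : w'.asIdeal = w.asIdeal.under (𝓞 K₀)) : LEF K w = LEF K₀ w' * LEF K₀ w' := by
  obtain ⟨hfe, hpow⟩ := DQ4_inert hQ w' h3 h w hw (I2_under w) rfl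
  have h3w : (3 : 𝓞 K) ∉ w.asIdeal := by
    intro hc
    apply h3
    rw [hw, Ideal.mem_comap, map_ofNat]
    exact hc
  have hf0 : w.asIdeal.inertiaDeg O ≠ 0 := by
    intro h0
    rw [h0, pow_zero] at hpow
    have h1 := DQ3_norm K₀ w'
    have h4 : 1 < Ideal.absNorm w'.asIdeal ^ 2 := Nat.one_lt_pow (by norm_num) h1
    omega
  have hconj : (starRingEnd ℂ) (e (gen (I2_under w))) ^ (w.asIdeal.inertiaDeg O) =
      -(Ideal.absNorm w'.asIdeal : ℂ) := by
    rw [← map_pow, hfe, map_neg, map_natCast]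
  have h5 : LEF K w = ArithmeticFunction.ofPowerSeries (Ideal.absNorm (I2_under w).asIdeal)
       ((1 - PowerSeries.C (e (gen (I2_under w)) ^ (w.asIdeal.inertiaDeg O)) *
          PowerSeries.X ^ (w.asIdeal.inertiaDeg O))⁻¹ *
        (1 - PowerSeries.C ((starRingEnd ℂ) (e (gen (I2_under w))) ^ (w.asIdeal.inertiaDeg O)) *
          PowerSeries.X ^ (w.asIdeal.inertiaDeg O))⁻¹) :=
    I2_local_good w h3w (I2_under w) rfl _ rfl hf0
  rw [h5, ← I2_ofPS_pow hf0, hfe, hconj, hpow,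
    I2_ofPS_pow (k := 2) (by norm_num), map_mul, LEF_inert K₀ w' h3 h]
  have e1 : (1 - PowerSeries.C (-(Ideal.absNorm w'.asIdeal : ℂ)) * PowerSeries.X ^ 2 : PowerSeries ℂ) =
      1 + PowerSeries.C (Ideal.absNorm w'.asIdeal : ℂ) * PowerSeries.X ^ 2 := by
    rw [map_neg]
    ring
  rw [e1]

end H55D
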