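import Mathlib
import Pool.Agent.Lib.H13E.Q5
import Pool.Agent.Lib.H55C.B0
import Pool.Agent.Lib.H55C.W7
import Pool.Agent.Lib.H55D.Q4

open NumberField IsDedekindDomain

namespace H55D

open H55B H55C

variable {K₀ K : Type} [Field K₀] [NumberField K₀] [Field K] [NumberField K] [Algebra F K] [Algebra K₀ K]

/-! Chunk Q5 (M): COPY/ADAPT of H13E/Q5 (E27 has good reduction at 2, so there is no condition at 2). LEF_sq: H13E.norm_mod3, H13E.split_one, LEF_eq; H13E.split_two, LEF_two.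
val0_two, val0_three: choose w above w' with w.valuation K z = w'.valuation K₀ z ^ e, e > 0 (q5_above in H13E, or copy), H55C val_two/val_three over K (UnrOut K: the value of 2 is exp(-1), the value of 3 is
exp(-2); see H55C/B0). LEF_bad: H55B.bad_local: the value of 27 is exp(-3) or exp(-6), not a 12-th power. LEF_badK: H55B.loc_bad, val_three. -/

theorem DQ5_bad (K : Type) [Field K] [NumberField K] (w : HeightOneSpectrum (𝓞 K)) (n : ℤ)
    (hn : ∀ k : ℤ, n ≠ 12 * k) (h : w.valuation K (27 : K) = WithZero.exp n) : LEF K w = 1 := by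
  have hP : ((E27.baseChange K).baseChange (w.adicCompletion K)).localPolynomial
      (w.adicCompletionIntegers K) = 1 := by
    have hcurve : (E27.baseChange K).baseChange (w.adicCompletion K) = ⟨0, 0, 1, 0, 0⟩ := by
      ext <;> simp [E27, WeierstrassCurve.baseChange]
    rw [hcurve]
    apply H55B.bad_local
    intro u hu h1
    have h27 : (27 : w.adicCompletion K) = algebraMap K (w.adicCompletion K) 27 := by
      rw [map_ofNat]
    rw [h27, valuation_compl, h] at h1
    set val := (IsDiscreteValuationRing.maximalIdeal (w.adicCompletionIntegers K)).valuation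
      (w.adicCompletion K) u with hval
    have h0 : val ≠ 0 := (Valuation.ne_zero_iff _).mpr hu
    rw [← WithZero.exp_log h0, ← WithZero.exp_nsmul, WithZero.exp_inj] at h1
    simp only [nsmul_eq_mul] at h1
    push_cast at h1
    exact hn _ h1
  unfold LEF
  rw [WeierstrassCurve.localEulerFactor, WeierstrassCurve.localPowerSeries, hP]
  have : PowerSeries.invOfUnit ((1 : Polynomial ℤ) : PowerSeries ℤ) 1 = 1 := by
    have h := PowerSeries.mul_invOfUnit ((1 : Polynomial ℤ) : PowerSeries ℤ) 1 (by simp)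
    simpa using h
  rw [this, map_one]
  simp

theorem LEF_sq (hQ : H13E.Quad K₀ K) (w' : HeightOneSpectrum (𝓞 K₀)) (h3 : (3 : 𝓞 K₀) ∉ w'.asIdeal)
    (T : Finset (HeightOneSpectrum (𝓞 K))) (hT : ∀ w, w ∈ T ↔ w'.asIdeal = w.asIdeal.under (𝓞 K₀)) :
    ∏ w ∈ T, LEF K w = LEF K₀ w' * LEF K₀ w' := by
  classical
  rcases H13E.norm_mod3 w' h3 with h | h
  · obtain ⟨w₁, w₂, hne, hall, hn1, hn2⟩ := H13E.split_one hQ w' h3 h
    have hT' : T = {w₁, w₂} := by
      ext w
      rw [hT, hall, Finset.mem_insert, Finset.mem_singleton]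
    have hw1 := (hall w₁).2 (Or.inl rfl)
    have hw2 := (hall w₂).2 (Or.inr rfl)
    rw [hT', Finset.prod_pair hne,
      LEF_eq K K₀ w₁ w' (fun hc => h3 ((H13E.q5_mem w' w₁ hw1 3).2 hc)) h3 hn1,
      LEF_eq K K₀ w₂ w' (fun hc => h3 ((H13E.q5_mem w' w₂ hw2 3).2 hc)) h3 hn2]
  · obtain ⟨w₁, hall, hn1⟩ := H13E.split_two hQ w' h3 h
    have hT' : T = {w₁} := by
      ext w
      rw [hT, hall, Finset.mem_singleton]
    rw [hT', Finset.prod_singleton]
    exact LEF_two hQ w' h3 h w₁ ((hall w₁).2 rfl)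

theorem val0_two (K : Type) [Field K] [NumberField K] [Algebra F K] [Algebra K₀ K] (hU : UnrOut K)
    (w' : HeightOneSpectrum (𝓞 K₀)) (h2 : (2 : 𝓞 K₀) ∈ w'.asIdeal) :
    w'.valuation K₀ (2 : K₀) = WithZero.exp (-1 : ℤ) := by
  obtain ⟨w, e, hw, he, hv⟩ := H13E.q5_above K w'
  have h1 := val_two hU w ((H13E.q5_mem w' w hw 2).1 h2)
  have h3 := hv 2
  rw [map_ofNat, h1] at h3
  obtain ⟨k, hk, hk2⟩ := H13E.q5_val w' two_ne_zero h3
  have h4 : (e : ℤ) ∣ 1 := ⟨-k, by linear_combination -hk2⟩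
  have h5 : (e : ℤ) = 1 := by
    have h6 := Int.le_of_dvd one_pos h4
    omega
  rw [hk]
  congr 1
  rw [h5] at hk2
  omega

theorem val0_three (K : Type) [Field K] [NumberField K] [Algebra F K] [Algebra K₀ K] (hU : UnrOut K)
    (w' : HeightOneSpectrum (𝓞 K₀)) (h3 : (3 : 𝓞 K₀) ∈ w'.asIdeal) :
    w'.valuation K₀ (3 : K₀) = WithZero.exp (-1 : ℤ) ∨
      w'.valuation K₀ (3 : K₀) = WithZero.exp (-2 : ℤ) := by
  obtain ⟨w, e, hw, he, hv⟩ := H13E.q5_above K w'
  have h1 := val_three hU w ((H13E.q5_mem w' w hw 3).1 h3)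
  have h4 := hv 3
  rw [map_ofNat, h1] at h4
  obtain ⟨k, hk, hk2⟩ := H13E.q5_val w' three_ne_zero h4
  have h5 : (e : ℤ) ∣ 2 := ⟨-k, by linear_combination -hk2⟩
  have h6 := Int.le_of_dvd two_pos h5
  have h7 : (e : ℤ) = 1 ∨ (e : ℤ) = 2 := by omega
  rcases h7 with h7 | h7 <;> rw [h7] at hk2
  · right
    rw [hk]
    congr 1
    omega
  · left
    rw [hk]
    congr 1
    omega

theorem LEF_bad (K : Type) [Field K] [NumberField K] [Algebra F K] [Algebra K₀ K] (hU : UnrOut K)
    (w' : HeightOneSpectrum (𝓞 K₀)) (h : (3 : 𝓞 K₀) ∈ w'.asIdeal) : LEF K₀ w' = 1 := by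
  have h27 : (27 : K₀) = 3 ^ 3 := by norm_num
  rcases val0_three K hU w' h with h3 | h3
  · apply DQ5_bad K₀ w' (-3) (by intro k; omega)
    rw [h27, map_pow, h3, ← WithZero.exp_nsmul]
    norm_num
  · apply DQ5_bad K₀ w' (-6) (by intro k; omega)
    rw [h27, map_pow, h3, ← WithZero.exp_nsmul]
    norm_num

theorem LEF_badK (hU : UnrOut K) (w : HeightOneSpectrum (𝓞 K)) (h : (3 : 𝓞 K) ∈ w.asIdeal) :
    LEF K w = 1 :=
  I2_local_bad w (val_three hU w h)

/-- The discriminant of K₀ is odd: 2 is unramified (val0_two; NumberField.not_dvd_discr_iff_forall_mem as in H55C/W7 odd_discr). -/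
theorem odd_discr0 (K : Type) [Field K] [NumberField K] [Algebra F K] [Algebra K₀ K] (hU : UnrOut K) :
    Odd (NumberField.discr K₀) := by
  obtain ⟨z, hz⟩ := NumberField.discr_dvd_discr K₀ K
  have h := odd_discr K hU
  rw [hz, Int.odd_mul] at h
  exact h.1

end H55D
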