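import Mathlib
import Pool.Agent.Lib.H55D.Q5
import Pool.Agent.Lib.H13E.Q6

open NumberField IsDedekindDomain

namespace H55D

open H55B H55C

variable {K₀ K : Type} [Field K₀] [NumberField K₀] [Field K] [NumberField K] [Algebra F K] [Algebra K₀ K]

/-! Chunk Q6 (S/M): COPY of H13E/Q6 with E144 replaced by E27 and the bad places those above 3 only (LEF_sq, LEF_bad, LEF_badK). -/

/-- the Euler product, up to `n` -/
theorem DQ6_ev (K : Type) [Field K] [NumberField K] (m : ℕ) :
    ∀ᶠ T : Finset (HeightOneSpectrum (𝓞 K)) in Filter.atTop,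
      (∏ w ∈ T, LEF K w) m = (((E27.baseChange K).LFunction m : ℤ) : ℂ) := by
  have hN : Northcott (fun w : HeightOneSpectrum (𝓞 K) =>
      Nat.card (IsLocalRing.ResidueField (w.adicCompletionIntegers K))) := by
    have h1 : (fun w : HeightOneSpectrum (𝓞 K) =>
      Nat.card (IsLocalRing.ResidueField (w.adicCompletionIntegers K))) =
        fun w => Ideal.absNorm w.asIdeal := funext fun w => (residue_card K w).2
    rw [h1]
    infer_instance
  have h := ArithmeticFunction.tendsTo_eulerProduct_ofPowerSeries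
    (fun w : HeightOneSpectrum (𝓞 K) =>
      Nat.card (IsLocalRing.ResidueField (w.adicCompletionIntegers K)))
    (fun w => ((E27.baseChange K).baseChange (w.adicCompletion K)).localPowerSeries
      (w.adicCompletionIntegers K))
    (fun w => by simp [WeierstrassCurve.localPowerSeries]) m
  have h' : ∀ᶠ T : Finset (HeightOneSpectrum (𝓞 K)) in Filter.atTop,
      (∏ w ∈ T, ((E27.baseChange K).baseChange (w.adicCompletion K)).localEulerFactor
        (w.adicCompletionIntegers K)) m = (E27.baseChange K).LFunction m := h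
  refine h'.mono fun T hT => ?_
  rw [← hT, ← ArithmeticFunction.intCoe_apply, I2_cast_prod]
  rfl

theorem LFun_sq (hQ : H13E.Quad K₀ K) (hU : UnrOut K) (n : ℕ) :
    (((E27.baseChange K).LFunction n : ℤ) : ℂ) =
      ((((E27.baseChange K₀).LFunction : ArithmeticFunction ℤ) : ArithmeticFunction ℂ) *
        (((E27.baseChange K₀).LFunction : ArithmeticFunction ℤ) : ArithmeticFunction ℂ)) n := by
  classical
  obtain ⟨s0, hs0⟩ := Filter.eventually_atTop.1 (DQ6_ev K n)
  have hR : ∀ᶠ t : Finset (HeightOneSpectrum (𝓞 K₀)) in Filter.atTop,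
      ∀ m ∈ Finset.range (n + 1),
      (∏ w ∈ t, LEF K₀ w) m = (((E27.baseChange K₀).LFunction m : ℤ) : ℂ) := by
    rw [Filter.eventually_all_finset]
    intro m _
    exact DQ6_ev K₀ m
  obtain ⟨t0, ht0⟩ := Filter.eventually_atTop.1 hR
  set ov : HeightOneSpectrum (𝓞 K₀) → Finset (HeightOneSpectrum (𝓞 K)) :=
    fun v => (H13E.q6_fin K v).toFinset with hov
  have hmo : ∀ v w, w ∈ ov v ↔ v.asIdeal = w.asIdeal.under (𝓞 K₀) := by
    intro v w
    simp [hov]
  set t : Finset (HeightOneSpectrum (𝓞 K₀)) := t0 ∪ s0.image (H13E.q6_under K₀) with ht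
  set T : Finset (HeightOneSpectrum (𝓞 K)) := t.biUnion ov with hTdef
  have hsub : s0 ⊆ T := by
    intro w hw
    rw [hTdef, Finset.mem_biUnion]
    refine ⟨H13E.q6_under K₀ w, Finset.mem_union_right _ (Finset.mem_image_of_mem _ hw), ?_⟩
    rw [hmo]
    rfl
  rw [← hs0 T hsub, hTdef, Finset.prod_biUnion]
  · have h2 : ∀ v ∈ t, ∏ w ∈ ov v, LEF K w = LEF K₀ v * LEF K₀ v := by
      intro v _
      by_cases hb : (3 : 𝓞 K₀) ∈ v.asIdeal
      · rw [LEF_bad K hU v hb, mul_one]
        apply Finset.prod_eq_one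
        intro w hw
        rw [hmo] at hw
        exact LEF_badK hU w ((H13E.q5_mem v w hw 3).1 hb)
      · exact LEF_sq hQ v hb (ov v) (hmo v)
    rw [Finset.prod_congr rfl h2, Finset.prod_mul_distrib]
    have hts : t0 ⊆ t := Finset.subset_union_left
    refine I2_mul_congr ?_ ?_ n le_rfl
    · intro m hm
      rw [ht0 t hts m (Finset.mem_range.2 (by omega)), ArithmeticFunction.intCoe_apply]
    · intro m hm
      rw [ht0 t hts m (Finset.mem_range.2 (by omega)), ArithmeticFunction.intCoe_apply]
  · intro v _ v' _ hne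
    rw [Function.onFun, Finset.disjoint_left]
    intro w hw hw'
    rw [hmo] at hw hw'
    apply hne
    apply HeightOneSpectrum.ext
    rw [hw, hw']

end H55D
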