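import Mathlib
import Pool.Agent.Lib.H13E.Q7
import Pool.Agent.Lib.H55D.Q6
import Pool.Agent.Lib.H55N.H7

open NumberField IsDedekindDomain

namespace H55D

open H55B H55C H55N

variable {K₀ K : Type} [Field K₀] [NumberField K₀] [Field K] [NumberField K] [Algebra F K] [Algebra K₀ K]

/-! Chunk QA (M): the Hecke L-function is real. c = the nontrivial automorphism of K/K₀ (H13E.exists_c): c(algebraMap O K x) = algebraMap O K (cj x). It induces a bijection a -> c a of the ideals of O_K (map/comap by the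
ring automorphism of O_K), absNorm (c a) = absNorm a, and relNorm_O (c a) = cj (relNorm_O a) (on primes: c w lies above cj v with the same inertia degree; multiplicativity, or Ideal.relNorm_algEquiv-type lemma;
alternatively Psi_prime for primes and multiplicativity of both sides over normalizedFactors / induction on ideals). pg (cj J) = cj (pg J) (primary elements are preserved by cj). So Psi K (c a) = conj (Psi K a) (e_cj), and
AI (fun a => conj (Psi K a)) n = sum over absNorm a = n of Psi K (c a) = AI (Psi K) n (finsum reindexed by the bijection). -/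

theorem DQA_absNorm {R : Type} [CommRing R] [IsDedekindDomain R] [Module.Free ℤ R]
    (σ : R ≃+* R) (a : Ideal R) :
    Ideal.absNorm (a.map (σ : R →+* R)) = Ideal.absNorm a := by
  rw [Ideal.absNorm_apply, Ideal.absNorm_apply, Submodule.cardQuot_apply, Submodule.cardQuot_apply]
  exact Nat.card_congr (Ideal.quotientEquiv a (a.map (σ : R →+* R)) σ rfl).toEquiv.symm

theorem DQA_prim {x : O} (hx : Prim x) : Prim (cj x) := by
  obtain ⟨z, hz⟩ := hx
  refine ⟨cj z, ?_⟩
  have h := congrArg cj hz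
  rw [map_sub, map_one, map_mul, map_ofNat] at h
  exact h

theorem DQA_cjcj (J : Ideal O) : (J.map (cj : O →+* O)).map (cj : O →+* O) = J := by
  rw [Ideal.map_map]
  have h : (cj : O →+* O).comp (cj : O →+* O) = RingHom.id O := by
    ext1 x
    exact cj_cj x
  rw [h, Ideal.map_id]

theorem DQA_psiF (J : Ideal O) : psiF (J.map (cj : O →+* O)) = (starRingEnd ℂ) (psiF J) := by
  by_cases h : ∃ x : O, J = Ideal.span {x} ∧ Prim x
  · obtain ⟨x, rfl, hx⟩ := h
    have h1 : (Ideal.span {x}).map (cj : O →+* O) = Ideal.span {cj x} := by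
      rw [Ideal.map_span, Set.image_singleton]
      rfl
    rw [h1, psiF_apply, psiF_apply, pg_span hx, pg_span (DQA_prim hx), e_cj]
  · have h' : ¬ ∃ x : O, J.map (cj : O →+* O) = Ideal.span {x} ∧ Prim x := by
      rintro ⟨y, hy, hp⟩
      apply h
      refine ⟨cj y, ?_, DQA_prim hp⟩
      rw [← DQA_cjcj J, hy, Ideal.map_span, Set.image_singleton]
      rfl
    rw [psiF_apply, psiF_apply, pg_of_not h, pg_of_not h', map_zero, map_zero, map_zero]

omit [NumberField K₀] [NumberField K] in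
theorem DQA_sigma (c : K ≃ₐ[K₀] K) (hc : ∀ x : O, c (algebraMap O K x) = algebraMap O K (cj x)) :
    ∃ σ : 𝓞 K ≃+* 𝓞 K, ∀ x : O, σ (algebraMap O (𝓞 K) x) = algebraMap O (𝓞 K) (cj x) := by
  refine ⟨NumberField.RingOfIntegers.mapRingEquiv (c : K ≃+* K), fun x => ?_⟩
  apply NumberField.RingOfIntegers.ext
  exact hc x

theorem DQA_prime (σ : 𝓞 K ≃+* 𝓞 K) (hσ : ∀ x : O, σ (algebraMap O (𝓞 K) x) = algebraMap O (𝓞 K) (cj x))
    (w : HeightOneSpectrum (𝓞 K)) :
    Psi K (w.asIdeal.map (σ : 𝓞 K →+* 𝓞 K)) = (starRingEnd ℂ) (Psi K w.asIdeal) := by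
  obtain ⟨v, hv⟩ := H1_below w
  have hwp := w.isPrime
  obtain ⟨w', hw'⟩ : ∃ w' : HeightOneSpectrum (𝓞 K), w'.asIdeal = w.asIdeal.map (σ : 𝓞 K →+* 𝓞 K) := by
    refine ⟨⟨w.asIdeal.map (σ : 𝓞 K →+* 𝓞 K), Ideal.map_isPrime_of_equiv σ, ?_⟩, rfl⟩
    intro h
    exact w.ne_bot ((Ideal.map_eq_bot_iff_of_injective σ.injective).1 h)
  obtain ⟨v', hv'⟩ := H1_below w'
  have hvv : v'.asIdeal = v.asIdeal.map (cj : O →+* O) := by
    ext x
    rw [hv', Ideal.under_def, Ideal.mem_comap, hw',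
      Ideal.mem_map_iff_of_surjective (σ : 𝓞 K →+* 𝓞 K) σ.surjective,
      Ideal.mem_map_iff_of_surjective (cj : O →+* O) cj.surjective]
    constructor
    · rintro ⟨y, hy, hyx⟩
      have hyx' : σ y = algebraMap O (𝓞 K) x := hyx
      have h1 : y = algebraMap O (𝓞 K) (cj x) := by
        apply σ.injective
        rw [hσ, cj_cj, hyx']
      refine ⟨cj x, ?_, cj_cj x⟩
      rw [hv, Ideal.under_def, Ideal.mem_comap, ← h1]
      exact hy
    · rintro ⟨y, hy, hyx⟩
      refine ⟨algebraMap O (𝓞 K) y, ?_, ?_⟩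
      · rw [hv, Ideal.under_def, Ideal.mem_comap] at hy
        exact hy
      · have hyx' : cj y = x := hyx
        show σ (algebraMap O (𝓞 K) y) = algebraMap O (𝓞 K) x
        rw [hσ, hyx']
  have hdeg : w'.asIdeal.inertiaDeg O = w.asIdeal.inertiaDeg O := by
    have h1 := absNorm_inertia K w v hv
    have h2 := absNorm_inertia K w' v' hv'
    rw [hw', DQA_absNorm, hvv, DQA_absNorm, h1] at h2
    have h3 : 2 ≤ Ideal.absNorm v.asIdeal := by
      have h4 : Ideal.absNorm v.asIdeal ≠ 1 := by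
        rw [Ne, Ideal.absNorm_eq_one_iff]; exact v.isPrime.ne_top
      have h5 : Ideal.absNorm v.asIdeal ≠ 0 := by
        rw [Ne, Ideal.absNorm_eq_zero_iff]; exact v.ne_bot
      omega
    rw [← hw'] at h2
    exact (Nat.pow_right_injective h3 h2).symm
  rw [← hw', Psi_prime w' v' hv', Psi_prime w v hv, hvv, DQA_psiF, map_pow, hdeg]

theorem DQA_Psi (σ : 𝓞 K ≃+* 𝓞 K) (hσ : ∀ x : O, σ (algebraMap O (𝓞 K) x) = algebraMap O (𝓞 K) (cj x))
    (a : Ideal (𝓞 K)) :
    Psi K (a.map (σ : 𝓞 K →+* 𝓞 K)) = (starRingEnd ℂ) (Psi K a) := by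
  induction a using UniqueFactorizationMonoid.induction_on_prime with
  | h₁ =>
    have h : (0 : Ideal (𝓞 K)).map (σ : 𝓞 K →+* 𝓞 K) = 0 := Ideal.map_bot
    rw [h, map_zero, map_zero]
  | h₂ x hx =>
    rw [Ideal.isUnit_iff] at hx
    rw [hx, Ideal.map_top, ← Ideal.one_eq_top, map_one, map_one]
  | h₃ x p hx hp ih =>
    have h1 := DQA_prime σ hσ ⟨p, Ideal.isPrime_of_prime hp, hp.ne_zero⟩
    simp only at h1
    rw [Ideal.map_mul, map_mul, map_mul, map_mul, ih, h1]

theorem AI_real (hQ : H13E.Quad K₀ K) :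
    AI (fun a : Ideal (𝓞 K) => (starRingEnd ℂ) (Psi K a)) = AI (Psi K) := by
  obtain ⟨c, -, hc, -, -, -⟩ := H13E.exists_c hQ
  obtain ⟨σ, hσ⟩ := DQA_sigma c hc
  let E : Ideal (𝓞 K) ≃ Ideal (𝓞 K) :=
    { toFun := fun a => a.map (σ : 𝓞 K →+* 𝓞 K)
      invFun := fun a => a.map (σ.symm : 𝓞 K →+* 𝓞 K)
      left_inv := fun a => Ideal.map_of_equiv σ
      right_inv := fun a => Ideal.map_of_equiv σ.symm }
  ext n
  show (if n = 0 then 0 else ∑ᶠ (a : Ideal (𝓞 K)) (_ : Ideal.absNorm a = n), (starRingEnd ℂ) (Psi K a)) =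
    if n = 0 then 0 else ∑ᶠ (a : Ideal (𝓞 K)) (_ : Ideal.absNorm a = n), Psi K a
  by_cases hn : n = 0
  · rw [if_pos hn, if_pos hn]
  · rw [if_neg hn, if_neg hn,
      ← finsum_comp_equiv E (f := fun b : Ideal (𝓞 K) => ∑ᶠ (_ : Ideal.absNorm b = n), Psi K b)]
    refine finsum_congr fun a => ?_
    show _ = ∑ᶠ (_ : Ideal.absNorm (a.map (σ : 𝓞 K →+* 𝓞 K)) = n), Psi K (a.map (σ : 𝓞 K →+* 𝓞 K))
    rw [DQA_absNorm, DQA_Psi σ hσ]

theorem DQA_prod_one {ι : Type} (s : Finset ι) (f : ι → ArithmeticFunction ℂ)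
    (h : ∀ i ∈ s, f i 1 = 1) : (∏ i ∈ s, f i) 1 = 1 := by
  classical
  induction s using Finset.induction_on with
  | empty => simp
  | insert i s hi ih =>
    rw [Finset.prod_insert hi, ArithmeticFunction.mul_apply_one, h i (Finset.mem_insert_self _ _),
      ih fun j hj => h j (Finset.mem_insert_of_mem hj), one_mul]

theorem DQA_LEF_one (L : Type) [Field L] [NumberField L] (w : HeightOneSpectrum (𝓞 L)) :
    LEF L w 1 = 1 := by
  unfold LEF WeierstrassCurve.localEulerFactor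
  rw [ArithmeticFunction.intCoe_apply]
  simp [WeierstrassCurve.localPowerSeries]

theorem DQA_LFun_one (L : Type) [Field L] [NumberField L] :
    (((E27.baseChange L).LFunction 1 : ℤ) : ℂ) = 1 := by
  obtain ⟨s, hs⟩ := (DQ6_ev L 1).exists
  rw [← hs]
  exact DQA_prod_one s _ fun w _ => DQA_LEF_one L w

theorem DQA_AI_one : AI (Psi K) 1 = 1 := by
  show (if (1 : ℕ) = 0 then (0 : ℂ) else
    ∑ᶠ (a : Ideal (𝓞 K)) (_ : Ideal.absNorm a = 1), Psi K a) = 1
  rw [if_neg one_ne_zero, finsum_eq_single _ (1 : Ideal (𝓞 K))]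
  · rw [finsum_eq_if, if_pos (map_one _), map_one]
  · intro x hx
    rw [finsum_eq_if, if_neg]
    intro hn
    exact hx (by rw [Ideal.absNorm_eq_one_iff] at hn; rw [hn, Ideal.one_eq_top])

/-- The L-function over K₀ is the Hecke L-function: LFun_sq, LFunction_Psi, AI_real give L(K₀)^2 = L(K) = AI(Psi)^2; both have value 1 at 1; H13E.sqrt_unique. -/
theorem LFun0 (hQ : H13E.Quad K₀ K) (hU : UnrOut K) (n : ℕ) :
    (((E27.baseChange K₀).LFunction n : ℤ) : ℂ) = AI (Psi K) n := by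
  have hf1 : (((E27.baseChange K₀).LFunction : ArithmeticFunction ℤ) : ArithmeticFunction ℂ) 1 = 1 := by
    rw [ArithmeticFunction.intCoe_apply]
    exact DQA_LFun_one K₀
  have hsq : ∀ m, ((((E27.baseChange K₀).LFunction : ArithmeticFunction ℤ) : ArithmeticFunction ℂ) *
      (((E27.baseChange K₀).LFunction : ArithmeticFunction ℤ) : ArithmeticFunction ℂ)) m =
      (AI (Psi K) * AI (Psi K)) m := by
    intro m
    rw [← LFun_sq hQ hU m, LFunction_Psi K hU m, AI_real hQ]
  have hfg := H13E.sqrt_unique hf1 (g := AI (Psi K)) DQA_AI_one hsq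
  rw [← hfg, ArithmeticFunction.intCoe_apply]

end H55D
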