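import Mathlib
import Pool.Agent.Lib.H55C.W10
import Pool.Agent.Lib.H55C.W11

open NumberField IsDedekindDomain

namespace H55D

open H55B H55C

/-! Chunk T1 (M): COPY/ADAPT of H13E/T1 + T2 for E27: the set W11_S v (points with nonsingular reduction) is a subgroup when v(3) < 1, and the index for a subfield divides the index for the field.
v(3) < 1 gives v(2) = 1. Membership: for a point (x, y), y^2 + y = x^3: v(3x^2) >= 1 or v(2y+1) >= 1 iff v(x+1) >= 1 ((2y+1)^2 = 4x^3 + 1 = 4(x+1)^3 - 12(x+1)^2 + 12(x+1) - 3; if v(x+1) < 1 then v(2y+1) < 1 and v(x) = 1, v(3x^2) < 1; if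
v(x+1) = m >= 1 then v(4x^3 + 1) = m^3 >= 1). Closed under addition: three points (x_i, y_i) on a line Y = l X + c, t_i = x_i + 1, satisfy, with s1, s2, s3 the elementary symmetric functions of the t_i and
Y = 2y + 1: l^2 = 4(s1 - 3), c'^2 = 4 s3 - 3, l c' = 6 - 2 s2, hence (3 - s2)^2 = (s1 - 3)(4 s3 - 3). If v(t1), v(t2) >= 1 > v(t3), m = max(v t1, v t2): v(s2) = v(t1 t2) > v(3), so the left side has valuation v(t1 t2)^2,
v(s1 - 3) <= m <= v(t1 t2) and v(4 s3 - 3) < v(t1 t2): contradiction. (The sum of P1 and P2 is the negative of the third point, same x.) Negation: x is unchanged. -/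

theorem DT1_big {k : Type} [Field k] (v : Valuation k (WithZero (Multiplicative ℤ))) (t1 t2 t3 : k)
    (h3 : v 3 < 1) (h2 : v 2 = 1) (h1' : 1 ≤ v t1) (h2' : 1 ≤ v t2)
    (h : (t1 * t2 + t3 * (t1 + t2) - 3) ^ 2 = (t1 + t2 + t3 - 3) * (4 * (t1 * t2) * t3 - 3)) :
    1 ≤ v t3 := by
  by_contra hlt
  rw [not_le] at hlt
  obtain ⟨p, hpd⟩ : ∃ p, p = t1 * t2 := ⟨_, rfl⟩
  obtain ⟨s, hsd⟩ : ∃ s, s = t1 + t2 := ⟨_, rfl⟩
  obtain ⟨m, hmd⟩ : ∃ m, m = max (v t1) (v t2) := ⟨_, rfl⟩
  rw [← hpd, ← hsd] at h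
  have hp : v p = v t1 * v t2 := by rw [hpd, map_mul]
  have hm1 : 1 ≤ m := by rw [hmd]; exact le_max_of_le_left h1'
  have hmp : m ≤ v p := by
    rw [hmd, hp]
    apply max_le
    · exact le_mul_of_one_le_right' h2'
    · exact le_mul_of_one_le_left' h1'
  have hs : v s ≤ m := by rw [hmd, hsd]; exact v.map_add t1 t2
  have hm0 : 0 < m := lt_of_lt_of_le zero_lt_one hm1
  have hp0 : 0 < v p := lt_of_lt_of_le hm0 hmp
  have hts : v (t3 * s) < m := by
    rw [map_mul]
    calc v t3 * v s ≤ v t3 * m := mul_le_mul_right hs _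
      _ < 1 * m := by
          exact mul_lt_mul_of_pos_right hlt hm0
      _ = m := one_mul m
  have h4 : v (t3 * s - 3) < v p := by
    refine lt_of_le_of_lt (v.map_sub _ _) (max_lt (hts.trans_le hmp) ?_)
    exact h3.trans_le (hm1.trans hmp)
  have h5 : v (p + t3 * s - 3) = v p := by
    have e : p + t3 * s - 3 = p + (t3 * s - 3) := by ring
    rw [e]
    exact Valuation.map_add_eq_of_lt_left v h4
  have h6 := congrArg v h
  rw [map_pow, h5, map_mul] at h6
  have h7 : v 4 = 1 := by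
    have e : (4 : k) = 2 * 2 := by norm_num
    rw [e, map_mul, h2, one_mul]
  have h8 : v (s + t3 - 3) ≤ m := by
    refine (v.map_sub _ _).trans (max_le ((v.map_add _ _).trans (max_le hs ?_)) ?_)
    · exact hlt.le.trans hm1
    · exact h3.le.trans hm1
  have h9 : v (4 * p * t3 - 3) < v p := by
    refine lt_of_le_of_lt (v.map_sub _ _) (max_lt ?_ (h3.trans_le (hm1.trans hmp)))
    rw [map_mul, map_mul, h7, one_mul]
    calc v p * v t3 < v p * 1 := mul_lt_mul_of_pos_left hlt hp0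
      _ = v p := mul_one _
  have h10 : v (s + t3 - 3) * v (4 * p * t3 - 3) < v p ^ 2 := by
    calc v (s + t3 - 3) * v (4 * p * t3 - 3) ≤ m * v (4 * p * t3 - 3) := mul_le_mul_left h8 _
      _ < m * v p := mul_lt_mul_of_pos_left h9 hm0
      _ ≤ v p * v p := mul_le_mul_left hmp _
      _ = v p ^ 2 := (sq _).symm
  rw [← h6] at h10
  exact lt_irrefl _ h10

theorem DT1_two {k : Type} [Field k] (v : Valuation k (WithZero (Multiplicative ℤ))) (h3 : v 3 < 1) :
    v 2 = 1 := by
  have h1 : v 2 ≤ 1 := by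
    have e : (2 : k) = 1 + 1 := by norm_num
    rw [e]
    refine (v.map_add _ _).trans ?_
    rw [map_one, max_self]
  refine le_antisymm h1 ?_
  by_contra h
  rw [not_le] at h
  have e : (1 : k) = 3 - 2 := by norm_num
  have h4 : v 1 < 1 := by
    rw [e]
    exact lt_of_le_of_lt (v.map_sub _ _) (max_lt h3 h)
  rw [map_one] at h4
  exact lt_irrefl _ h4

theorem DT1_mem {k : Type} [Field k] (v : Valuation k (WithZero (Multiplicative ℤ))) (h3 : v 3 < 1)
    (x y : k) (h : y ^ 2 + y = x ^ 3) :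
    (1 ≤ v (3 * x ^ 2) ∨ 1 ≤ v (2 * y + 1)) ↔ 1 ≤ v (x + 1) := by
  have h2 := DT1_two v h3
  have h4 : v 4 = 1 := by
    have e : (4 : k) = 2 * 2 := by norm_num
    rw [e, map_mul, h2, one_mul]
  have hy : (2 * y + 1) ^ 2 = 4 * (x + 1) ^ 3 + 3 * (-(4 * (x + 1) ^ 2) + (4 * (x + 1) + (-1))) := by
    linear_combination 4 * h
  constructor
  · intro h0
    by_contra hlt
    rw [not_le] at hlt
    have hx : v x = 1 := by
      have e : x = -1 + (x + 1) := by ring
      rw [e, Valuation.map_add_eq_of_lt_left v (by rw [Valuation.map_neg, map_one]; exact hlt),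
        Valuation.map_neg, map_one]
    rcases h0 with h0 | h0
    · rw [map_mul, map_pow, hx, one_pow, mul_one] at h0
      exact absurd h3 (not_lt.2 h0)
    · have h5 : 1 ≤ v (2 * y + 1) ^ 2 := one_le_pow₀ h0
      rw [← map_pow, hy] at h5
      refine absurd h5 (not_le.2 ?_)
      refine lt_of_le_of_lt (v.map_add _ _) (max_lt ?_ ?_)
      · rw [map_mul, h4, one_mul, map_pow]
        exact pow_lt_one₀ zero_le hlt three_ne_zero
      · rw [map_mul]
        refine lt_of_le_of_lt (mul_le_of_le_one_right' ?_) h3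
        refine (v.map_add _ _).trans (max_le ?_ ((v.map_add _ _).trans (max_le ?_ ?_)))
        · rw [Valuation.map_neg, map_mul, h4, one_mul, map_pow]
          exact pow_le_one₀ zero_le hlt.le
        · rw [map_mul, h4, one_mul]
          exact hlt.le
        · rw [Valuation.map_neg, map_one]
  · intro h0
    right
    have h0' : 0 < v (x + 1) := lt_of_lt_of_le zero_lt_one h0
    have hcu : 1 ≤ v (x + 1) ^ 3 := one_le_pow₀ h0
    have hsq : v (x + 1) ^ 2 ≤ v (x + 1) ^ 3 := pow_le_pow_right₀ h0 (by norm_num)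
    have hli : v (x + 1) ≤ v (x + 1) ^ 3 := le_self_pow₀ h0 (by norm_num)
    have h5 : v (3 * (-(4 * (x + 1) ^ 2) + (4 * (x + 1) + (-1)))) < v (4 * (x + 1) ^ 3) := by
      rw [map_mul, map_mul, h4, one_mul, map_pow]
      have h6 : v (-(4 * (x + 1) ^ 2) + (4 * (x + 1) + (-1))) ≤ v (x + 1) ^ 3 := by
        refine (v.map_add _ _).trans (max_le ?_ ((v.map_add _ _).trans (max_le ?_ ?_)))
        · rw [Valuation.map_neg, map_mul, h4, one_mul, map_pow]
          exact hsq
        · rw [map_mul, h4, one_mul]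
          exact hli
        · rw [Valuation.map_neg, map_one]
          exact hcu
      calc v 3 * v (-(4 * (x + 1) ^ 2) + (4 * (x + 1) + (-1))) ≤ v 3 * v (x + 1) ^ 3 :=
            mul_le_mul_right h6 _
        _ < 1 * v (x + 1) ^ 3 := mul_lt_mul_of_pos_right h3 (lt_of_lt_of_le zero_lt_one hcu)
        _ = v (x + 1) ^ 3 := one_mul _
    have h6 : v (2 * y + 1) ^ 2 = v (x + 1) ^ 3 := by
      rw [← map_pow, hy, Valuation.map_add_eq_of_lt_left v h5, map_mul, h4, one_mul, map_pow]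
    have h7 : 1 ≤ v (2 * y + 1) ^ 2 := by
      rw [h6]
      exact hcu
    by_contra hlt
    rw [not_le] at hlt
    exact absurd (pow_lt_one₀ zero_le hlt two_ne_zero) (not_lt.2 h7)

theorem DT1_rel {k : Type} [Field k] [CharZero k] (x1 y1 x2 y2 l : k) (h1 : y1 ^ 2 + y1 = x1 ^ 3)
    (h2 : y2 ^ 2 + y2 = x2 ^ 3)
    (hl : (x1 ≠ x2 ∧ l * (x1 - x2) = y1 - y2) ∨ (x1 = x2 ∧ l * (2 * y1 + 1) = 3 * x1 ^ 2)) :
    ((x1 + 1) * (x2 + 1) + (l ^ 2 - x1 - x2 + 1) * ((x1 + 1) + (x2 + 1)) - 3) ^ 2 =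
      ((x1 + 1) + (x2 + 1) + (l ^ 2 - x1 - x2 + 1) - 3) *
        (4 * ((x1 + 1) * (x2 + 1)) * (l ^ 2 - x1 - x2 + 1) - 3) := by
  obtain ⟨c, hc⟩ : ∃ c, c = 2 * (y1 - l * x1 - l) + 1 := ⟨_, rfl⟩
  obtain ⟨α, hα⟩ : ∃ α, α = 3 - l * c -
    ((x1 + 1) * (x2 + 1) + (l ^ 2 - x1 - x2 + 1) * ((x1 + 1) + (x2 + 1))) := ⟨_, rfl⟩
  obtain ⟨β, hβ⟩ : ∃ β, β = 4 * ((x1 + 1) * (x2 + 1)) * (l ^ 2 - x1 - x2 + 1) - 3 - c ^ 2 :=
    ⟨_, rfl⟩
  have e1 : 4 * α * (x1 + 1) + β = 0 := by
    rw [hα, hβ, hc]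
    linear_combination (-4) * h1
  have hα0 : α = 0 := by
    rcases hl with ⟨hne, hl⟩ | ⟨hx, hl⟩
    · have e2 : 4 * α * (x2 + 1) + β = 0 := by
        rw [hα, hβ, hc]
        linear_combination (-4) * h2 + 4 * (y1 - l * (x1 - x2) + y2 + 1) * hl
      have e3 : α * (x1 - x2) = 0 := by
        have e4 : (4 : k) * (α * (x1 - x2)) = 0 := by linear_combination e1 - e2
        exact (mul_eq_zero.1 e4).resolve_left (by norm_num)
      exact (mul_eq_zero.1 e3).resolve_right (sub_ne_zero.2 hne)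
    · subst hx
      rw [hα, hc]
      linear_combination -hl
  rw [hα0, mul_zero, zero_mul, zero_add] at e1
  have e4 : (x1 + 1) * (x2 + 1) + (l ^ 2 - x1 - x2 + 1) * ((x1 + 1) + (x2 + 1)) - 3 =
      -(l * c) := by
    linear_combination hα - hα0
  rw [e4]
  linear_combination l ^ 2 * (hβ - e1)

open WeierstrassCurve in
theorem DT1_add {k : Type} [Field k] [CharZero k] [DecidableEq k]
    (v : Valuation k (WithZero (Multiplicative ℤ))) (h3 : v 3 < 1)
    {P Q : (E27.baseChange k).toAffine.Point} (hP : P ∈ W11_S v) (hQ : Q ∈ W11_S v) :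
    P + Q ∈ W11_S v := by
  obtain ⟨a1, a2, a3, a4, a6⟩ := K2_coeffs k
  rcases hP with rfl | ⟨x1, y1, h1, rfl, hv1⟩
  · rw [zero_add]
    exact hQ
  rcases hQ with rfl | ⟨x2, y2, h2, rfl, hv2⟩
  · rw [add_zero]
    exact Or.inr ⟨x1, y1, h1, rfl, hv1⟩
  have e1 := (nonsing_iff k x1 y1).1 h1
  have e2 := (nonsing_iff k x2 y2).1 h2
  rw [DT1_mem v h3 x1 y1 e1] at hv1
  rw [DT1_mem v h3 x2 y2 e2] at hv2
  have hneg : (E27.baseChange k).toAffine.negY x2 y2 = -y2 - 1 := by
    rw [Affine.negY, a1, a3]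
    ring
  by_cases hxy : x1 = x2 ∧ y1 = (E27.baseChange k).toAffine.negY x2 y2
  · left
    exact Affine.Point.add_of_Y_eq hxy.1 hxy.2
  · right
    obtain ⟨l, hl⟩ : ∃ l, l = (E27.baseChange k).toAffine.slope x1 x2 y1 y2 := ⟨_, rfl⟩
    have hns := Affine.nonsingular_add h1 h2 hxy
    refine ⟨_, _, hns, Affine.Point.add_some hxy, ?_⟩
    rw [DT1_mem v h3 _ _ ((nonsing_iff k _ _).1 hns)]
    have hX : (E27.baseChange k).toAffine.addX x1 x2
        ((E27.baseChange k).toAffine.slope x1 x2 y1 y2) + 1 = l ^ 2 - x1 - x2 + 1 := by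
      rw [← hl, Affine.addX, a1, a2]
      ring
    rw [hX]
    refine DT1_big v (x1 + 1) (x2 + 1) _ h3 (DT1_two v h3) hv1 hv2
      (DT1_rel x1 y1 x2 y2 l e1 e2 ?_)
    by_cases hx : x1 = x2
    · right
      refine ⟨hx, ?_⟩
      have hy : y1 ≠ -y2 - 1 := fun h => hxy ⟨hx, by rw [hneg]; exact h⟩
      have hyy : y1 = y2 := by
        have e : (y1 - y2) * (y1 + y2 + 1) = 0 := by
          rw [← hx] at e2
          linear_combination e1 - e2
        rcases mul_eq_zero.1 e with h | h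
        · exact sub_eq_zero.1 h
        · exact absurd (by linear_combination h) hy
      have hy0 : 2 * y1 + 1 ≠ 0 := by
        intro h
        apply hy
        rw [← hyy]
        linear_combination h
      have hs : l = (3 * x1 ^ 2) / (2 * y1 + 1) := by
        rw [hl, Affine.slope_of_Y_ne hx (fun h => hxy ⟨hx, h⟩), Affine.negY, a1, a2, a3, a4]
        congr 1 <;> ring
      rw [hs, div_mul_cancel₀ _ hy0]
    · left
      refine ⟨hx, ?_⟩
      rw [hl, Affine.slope_of_X_ne hx, div_mul_cancel₀]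
      exact sub_ne_zero.2 hx

open WeierstrassCurve in
theorem DT1_neg {k : Type} [Field k] [CharZero k] [DecidableEq k]
    (v : Valuation k (WithZero (Multiplicative ℤ))) (h3 : v 3 < 1)
    {P : (E27.baseChange k).toAffine.Point} (hP : P ∈ W11_S v) : -P ∈ W11_S v := by
  rcases hP with rfl | ⟨x1, y1, h1, rfl, hv1⟩
  · left
    exact neg_zero
  · right
    rw [DT1_mem v h3 x1 y1 ((nonsing_iff k x1 y1).1 h1)] at hv1
    have hns := (Affine.nonsingular_neg (W' := (E27.baseChange k).toAffine) x1 y1).2 h1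
    refine ⟨x1, _, hns, Affine.Point.neg_some h1, ?_⟩
    rw [DT1_mem v h3 _ _ ((nonsing_iff k _ _).1 hns)]
    exact hv1

theorem DT1_closure {k : Type} [Field k] [CharZero k] [DecidableEq k]
    (v : Valuation k (WithZero (Multiplicative ℤ))) (h3 : v 3 < 1)
    (P : (E27.baseChange k).toAffine.Point) :
    P ∈ AddSubgroup.closure (W11_S v) ↔ P ∈ W11_S v := by
  constructor
  · intro h
    let S : AddSubgroup (E27.baseChange k).toAffine.Point :=
      { carrier := W11_S v
        zero_mem' := Or.inl rfl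
        add_mem' := fun ha hb => DT1_add v h3 ha hb
        neg_mem' := fun ha => DT1_neg v h3 ha }
    have h1 : AddSubgroup.closure (W11_S v) ≤ S := (AddSubgroup.closure_le S).2 (fun x hx => hx)
    exact h1 h
  · intro h
    exact AddSubgroup.subset_closure h

theorem DT1_closure' {k : Type} [Field k] [inst : Algebra ℚ k] [DecidableEq k]
    (v : Valuation k (WithZero (Multiplicative ℤ))) (h3 : v 3 < 1)
    (P : (E27.baseChange k).toAffine.Point) :
    P ∈ AddSubgroup.closure (W11_S v) ↔ P ∈ W11_S v := by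
  have hc : CharZero k := charZero_of_injective_algebraMap (algebraMap ℚ k).injective
  obtain rfl : inst = DivisionRing.toRatAlgebra := Subsingleton.elim _ _
  exact DT1_closure v h3 P

theorem closure_S {k : Type} [Field k] [Algebra ℚ k] [DecidableEq k]
    (v : Valuation k (WithZero (Multiplicative ℤ))) (h3 : v 3 < 1)
    (P : (E27.baseChange k).toAffine.Point) :
    P ∈ AddSubgroup.closure (W11_S v : Set (E27.baseChange k).toAffine.Point) ↔ P ∈ W11_S v :=
  DT1_closure' v h3 P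

theorem DT1_mem' {k : Type} [Field k] [Algebra ℚ k]
    (v : Valuation k (WithZero (Multiplicative ℤ))) (h3 : v 3 < 1) (x y : k)
    (h : (E27.baseChange k).toAffine.Nonsingular x y) :
    (WeierstrassCurve.Affine.Point.some x y h : (E27.baseChange k).toAffine.Point) ∈ W11_S v ↔
      1 ≤ v (x + 1) := by
  have hE := W10_eqn k x y h
  rw [← DT1_mem v h3 x y hE]
  constructor
  · rintro (h0 | ⟨x', y', h', he, hv⟩)
    · exact absurd h0 (by intro h; cases h)
    · obtain ⟨rfl, rfl⟩ := WeierstrassCurve.Affine.Point.some.inj he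
      exact hv
  · intro hv
    exact Or.inr ⟨x, y, h, rfl, hv⟩

theorem index_dvd {k k' : Type} [Field k] [Field k'] [Algebra ℚ k] [Algebra ℚ k'] [DecidableEq k]
    [DecidableEq k'] (v : Valuation k (WithZero (Multiplicative ℤ)))
    (v' : Valuation k' (WithZero (Multiplicative ℤ))) (h3 : v 3 < 1) (h3' : v' 3 < 1)
    (ι : k →+* k') (e : ℕ) (he : 0 < e) (hv : ∀ z, v' (ι z) = v z ^ e) :
    (AddSubgroup.closure (W11_S v : Set (E27.baseChange k).toAffine.Point)).index ∣
      (AddSubgroup.closure (W11_S v' : Set (E27.baseChange k').toAffine.Point)).index := by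
  let f := WeierstrassCurve.Affine.Point.map (W' := E27) ι.toRatAlgHom
  have hcomap : AddSubgroup.closure (W11_S v : Set (E27.baseChange k).toAffine.Point) =
      (AddSubgroup.closure (W11_S v' : Set (E27.baseChange k').toAffine.Point)).comap f := by
    ext P
    rw [closure_S v h3, AddSubgroup.mem_comap, closure_S v' h3']
    rcases P with _ | ⟨x, y, h⟩
    · exact ⟨fun _ => Or.inl rfl, fun _ => Or.inl rfl⟩
    · have h1 := DT1_mem' v h3 x y h
      have h2 : f (WeierstrassCurve.Affine.Point.some x y h) ∈ W11_S v' ↔ 1 ≤ v' (ι x + 1) :=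
        DT1_mem' v' h3' (ι x) (ι y) _
      rw [h1]
      refine Iff.trans ?_ h2.symm
      have e1 : ι x + 1 = ι (x + 1) := by rw [map_add, map_one]
      rw [e1, hv, one_le_pow_iff he.ne']
  rw [hcomap, AddSubgroup.index_comap]
  exact AddSubgroup.relIndex_dvd_index_of_normal _ _

end H55D
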