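import Mathlib
import Pool.Agent.Lib.H55C.A17
import Pool.Agent.Lib.H55C.W13
import Pool.Agent.Lib.H55D.Defs
import Pool.Agent.Lib.H55D.T1

open NumberField IsDedekindDomain

namespace H55D

open H55B H55C

variable {K₀ K : Type} [Field K₀] [NumberField K₀] [Field K] [NumberField K] [Algebra F K] [Algebra K₀ K]

/-! Chunk T2 (M): COPY/ADAPT of H13E/T2 (tam0_three) and T3 (tam0_one). tam0_three: w a prime of K above w', H55C.exists_iota, index_dvd, H55C.tam_odd (the sets E0 are W11_S for Valued.v). tam0_one: H55C.W10_gen as in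
W10_E0 (no roots of unity needed). tam0_prod as in H55C.W13_tam. -/

theorem DT2_val3 (K : Type) [Field K] [NumberField K] (w : HeightOneSpectrum (𝓞 K))
    (h3 : (3 : 𝓞 K) ∈ w.asIdeal) : Valued.v (3 : w.adicCompletion K) < 1 := by
  have h1 := HeightOneSpectrum.valuedAdicCompletion_eq_valuation' w (3 : K)
  have h2 : ((3 : K) : w.adicCompletion K) = 3 := map_ofNat (algebraMap K (w.adicCompletion K)) 3
  rw [h2] at h1
  rw [h1]
  have h4 : w.valuation K (algebraMap (𝓞 K) K 3) < 1 :=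
    (HeightOneSpectrum.valuation_lt_one_iff_mem w (K := K) (3 : 𝓞 K)).2 h3
  rwa [map_ofNat] at h4

theorem tam0_three (K : Type) [Field K] [NumberField K] [Algebra F K] [Algebra K₀ K] (hU : UnrOut K)
    (w' : HeightOneSpectrum (𝓞 K₀)) (h : (3 : 𝓞 K₀) ∈ w'.asIdeal) : Odd (tam K₀ w') := by
  classical
  obtain ⟨Q, hQ, hQl⟩ := Ideal.exists_maximal_ideal_liesOver_of_isIntegral (S := 𝓞 K) w'.asIdeal
  have hunder : w'.asIdeal = Q.under (𝓞 K₀) := hQl.over
  have hQ0 : Q ≠ ⊥ := by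
    rintro rfl
    apply w'.ne_bot
    rw [hunder]
    exact Ideal.under_bot (𝓞 K₀) (𝓞 K)
  obtain ⟨w, hw⟩ : ∃ w : HeightOneSpectrum (𝓞 K), w.asIdeal = Q := ⟨⟨Q, hQ.isPrime, hQ0⟩, rfl⟩
  rw [← hw] at hunder
  have h3w : (3 : 𝓞 K) ∈ w.asIdeal := by
    have h1 : (3 : 𝓞 K₀) ∈ w.asIdeal.under (𝓞 K₀) := hunder ▸ h
    rw [Ideal.mem_under] at h1
    rwa [map_ofNat] at h1
  obtain ⟨ι, e, he, -, hv⟩ := H55C.exists_iota K₀ K w w' hunder
  refine Odd.of_dvd_nat (tam_odd K hU w h3w) ?_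
  exact index_dvd (Valued.v (R := w'.adicCompletion K₀)) (Valued.v (R := w.adicCompletion K))
    (DT2_val3 K₀ w' h) (DT2_val3 K w h3w) ι e he hv

theorem DT2_E0 (w' : HeightOneSpectrum (𝓞 K₀)) (h : (3 : 𝓞 K₀) ∉ w'.asIdeal) :
    E0 K₀ w' = Set.univ := by
  rw [Set.eq_univ_iff_forall]
  intro P
  rcases P with _ | ⟨x, y, hP⟩
  · left
    rfl
  · right
    exact ⟨x, y, hP, rfl, W10_gen _ x y (W10_v3 K₀ w' h)
      (W10_eqn (w'.adicCompletion K₀) x y hP)⟩

theorem tam0_one (w' : HeightOneSpectrum (𝓞 K₀)) (h : (3 : 𝓞 K₀) ∉ w'.asIdeal) : tam K₀ w' = 1 := by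
  classical
  unfold tam
  rw [DT2_E0 w' h, AddSubgroup.closure_univ, AddSubgroup.index_top]

theorem tam0_prod (K : Type) [Field K] [NumberField K] [Algebra F K] [Algebra K₀ K] (hU : UnrOut K) :
    Unit2 (∏ᶠ w : HeightOneSpectrum (𝓞 K₀), (tam K₀ w : ℂ)) := by
  refine finprod_induction Unit2 ?_ (fun x y hx hy => hx.mul hy) fun w => ?_
  · have h := W13_nat odd_one
    rwa [Nat.cast_one] at h
  · apply W13_nat
    by_cases h : (3 : 𝓞 K₀) ∈ w.asIdeal
    · exact tam0_three K hU w h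
    · rw [tam0_one w h]
      exact odd_one

end H55D
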