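import Mathlib
import Pool.Agent.Lib.H13E.T4
import Pool.Agent.Lib.H55C.B9
import Pool.Agent.Lib.H55C.W6
import Pool.Agent.Lib.H55D.Defs
import Pool.Agent.Lib.H55N.Defs

open NumberField IsDedekindDomain

namespace H55D

open H55B H55C

/-! Chunk T4: the real period of y^2 + y = x^3. wp 1 is a positive real number (H13E.T4_wp_pos), so scaling LL by i c, c^6 = wp(1)^3, gives g_2 = 0,
g_3 = -1; the real elements of the lattice 3 i c Z[om] are the multiples of 3 sqrt 3 c. -/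

theorem T4_lattice (L : PeriodPair) (h2 : L.g₂ = 0) (h3 : L.g₃ = -1) :
    ∃ c : ℝ, 0 < c ∧ Om L = 9 * Real.sqrt 3 * c ^ 2 ∧
      ∀ x : ℂ, x ∈ L.lattice ↔ ∃ m n : ℤ, (m : ℂ) * ((c : ℂ) * Complex.I * 3) +
        n * ((c : ℂ) * Complex.I * (3 * e om)) = x := by
  obtain ⟨r, hr, hwr⟩ := H13E.T4_wp_pos
  set c : ℝ := Real.sqrt r with hc
  have hc0 : 0 < c := Real.sqrt_pos.2 hr
  have hc6 : c ^ 6 = r ^ 3 := by
    have h1 : c ^ 2 = r := Real.sq_sqrt hr.le
    calc c ^ 6 = (c ^ 2) ^ 3 := by ring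
      _ = r ^ 3 := by rw [h1]
  have hcc : (c : ℂ) * Complex.I ≠ 0 :=
    mul_ne_zero (by exact_mod_cast hc0.ne') Complex.I_ne_zero
  have hI6 : ((c : ℂ) * Complex.I) ^ 6 = -(r : ℂ) ^ 3 := by
    have hc6' : (c : ℂ) ^ 6 = (r : ℂ) ^ 3 := by exact_mod_cast congrArg (fun z : ℝ => (z : ℂ)) hc6
    rw [mul_pow, hc6', show (6 : ℕ) = 4 + 2 by norm_num, pow_add, Complex.I_pow_four, Complex.I_sq]
    ring
  have hL2 : (W1_L LL ((c : ℂ) * Complex.I) hcc).g₂ = 0 := by
    unfold PeriodPair.g₂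
    rw [W1_G]
    have h := g2_zero
    unfold PeriodPair.g₂ at h
    linear_combination (((c : ℂ) * Complex.I) ^ 4)⁻¹ * h
  have hL3 : (W1_L LL ((c : ℂ) * Complex.I) hcc).g₃ = -1 := by
    have h : (W1_L LL ((c : ℂ) * Complex.I) hcc).g₃ = (((c : ℂ) * Complex.I) ^ 6)⁻¹ * LL.g₃ := by
      unfold PeriodPair.g₃
      rw [W1_G]
      ring
    rw [h, A3_g3, hwr, hI6]
    have hr' : (r : ℂ) ≠ 0 := by exact_mod_cast hr.ne'
    field_simp
  have hlat := lattice_unique L (W1_L LL ((c : ℂ) * Complex.I) hcc) (h2.trans hL2.symm)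
    (h3.trans hL3.symm)
  refine ⟨c, hc0, ?_, ?_⟩
  · have h1 : Om L = Om (W1_L LL ((c : ℂ) * Complex.I) hcc) := Om_lattice _ _ hlat
    rw [h1]
    unfold Om
    show 2 * |((c : ℂ) * Complex.I * 3).re * ((c : ℂ) * Complex.I * (3 * e om)).im -
      ((c : ℂ) * Complex.I * 3).im * ((c : ℂ) * Complex.I * (3 * e om)).re| = _
    have e1 : ((c : ℂ) * Complex.I * 3).re * ((c : ℂ) * Complex.I * (3 * e om)).im -
        ((c : ℂ) * Complex.I * 3).im * ((c : ℂ) * Complex.I * (3 * e om)).re =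
        9 * c ^ 2 * (e om).im := by
      simp [Complex.mul_re, Complex.mul_im]
      ring
    rw [e1, abs_mul, abs_of_nonneg (by positivity : (0 : ℝ) ≤ 9 * c ^ 2)]
    have him : |(e om).im| = Real.sqrt 3 / 2 := by
      rw [← Real.sqrt_sq_eq_abs, A0_im, Real.sqrt_div (by norm_num)]
      congr 1
      rw [show (4 : ℝ) = 2 ^ 2 by norm_num, Real.sqrt_sq (by norm_num)]
    rw [him]
    ring
  · intro x
    rw [hlat, PeriodPair.mem_lattice]
    rfl

theorem T4_aux (L : PeriodPair) (c : ℝ) (hc : 0 < c)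
    (h : ∀ x : ℂ, x ∈ L.lattice ↔ ∃ m n : ℤ, (m : ℂ) * ((c : ℂ) * Complex.I * 3) +
        n * ((c : ℂ) * Complex.I * (3 * e om)) = x) :
    Omr L = 3 * Real.sqrt 3 * c := by
  have hre2 : (e om).re = -1 / 2 := e_om_re
  have him2 : (e om).im ^ 2 = 3 / 4 := A0_im
  have hs : Real.sqrt 3 ^ 2 = 3 := Real.sq_sqrt (by norm_num)
  have hsp : 0 < Real.sqrt 3 := Real.sqrt_pos.2 (by norm_num)
  have him3 : (e om).im = Real.sqrt 3 / 2 ∨ (e om).im = -(Real.sqrt 3 / 2) := by
    have h1 : ((e om).im - Real.sqrt 3 / 2) * ((e om).im + Real.sqrt 3 / 2) = 0 := by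
      nlinarith
    rcases mul_eq_zero.1 h1 with h2 | h2
    · left; linarith
    · right; linarith
  have hset : {x : ℝ | 0 < x ∧ (x : ℂ) ∈ L.lattice} =
      {x : ℝ | ∃ m : ℤ, 0 < m ∧ x = 3 * Real.sqrt 3 * c * m} := by
    ext x
    simp only [Set.mem_ofPred_eq]
    constructor
    · rintro ⟨hx, hm⟩
      obtain ⟨m, n, hmn⟩ := (h _).1 hm
      have him := congrArg Complex.im hmn
      have hre := congrArg Complex.re hmn
      simp [Complex.mul_re, Complex.mul_im, hre2] at him hre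
      have h1 : (m : ℝ) * (c * 3) + n * (c * (3 * (-1 / 2))) = 0 := by linarith
      have h2 : (2 : ℝ) * m = n := by
        have h3 : c * (3 / 2) * (2 * (m : ℝ) - n) = 0 := by linarith
        rcases mul_eq_zero.1 h3 with h4 | h4
        · exfalso
          have : 0 < c * (3 / 2) := by positivity
          linarith
        · linarith
      have h3 : x = -(6 * c * m * (e om).im) := by
        have h4 : -((n : ℝ) * (c * (3 * (e om).im))) = x := by linarith
        rw [← h4, ← h2]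
        ring
      rcases him3 with h4 | h4
      · refine ⟨-m, ?_, ?_⟩
        · rw [h4] at h3
          have h5 : (m : ℝ) < 0 := by
            by_contra hcon
            push Not at hcon
            have : 0 ≤ 6 * c * m * (Real.sqrt 3 / 2) := by positivity
            linarith
          have h6 : m < 0 := by exact_mod_cast h5
          omega
        · rw [h3, h4]
          push_cast
          ring
      · refine ⟨m, ?_, ?_⟩
        · rw [h4] at h3
          have h5 : 0 < (m : ℝ) := by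
            by_contra hcon
            push Not at hcon
            have : 0 ≤ 6 * c * (-(m : ℝ)) * (Real.sqrt 3 / 2) := by
              have : 0 ≤ -(m : ℝ) := by linarith
              positivity
            nlinarith
          exact_mod_cast h5
        · rw [h3, h4]
          ring
    · rintro ⟨m, hm, rfl⟩
      have hm' : (0 : ℝ) < m := by exact_mod_cast hm
      refine ⟨by positivity, (h _).2 ?_⟩
      rcases him3 with h4 | h4
      · refine ⟨-m, -(2 * m), ?_⟩
        apply Complex.ext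
        · simp [Complex.mul_re, Complex.mul_im, hre2, h4]
          ring
        · simp [Complex.mul_re, Complex.mul_im, hre2, h4]
          ring
      · refine ⟨m, 2 * m, ?_⟩
        apply Complex.ext
        · simp [Complex.mul_re, Complex.mul_im, hre2, h4]
          ring
        · simp [Complex.mul_re, Complex.mul_im, hre2, h4]
          ring
  unfold Omr
  rw [hset]
  apply le_antisymm
  · apply csInf_le
    · refine ⟨0, ?_⟩
      rintro x ⟨m, hm, rfl⟩
      have hm' : (0 : ℝ) < m := by exact_mod_cast hm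
      positivity
    · exact ⟨1, by norm_num, by push_cast; ring⟩
  · apply le_csInf
    · exact ⟨3 * Real.sqrt 3 * c, 1, by norm_num, by push_cast; ring⟩
    · rintro x ⟨m, hm, rfl⟩
      have hm' : (1 : ℝ) ≤ m := by exact_mod_cast hm
      have : 0 < 3 * Real.sqrt 3 * c := by positivity
      nlinarith

theorem Omr_eq (L : PeriodPair) (h2 : L.g₂ = 0) (h3 : L.g₃ = -1) :
    0 < Omr L ∧ Real.sqrt 3 * Om L = Omr L ^ 2 := by
  obtain ⟨c, hc, hOm, hl⟩ := T4_lattice L h2 h3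
  have hs : Real.sqrt 3 ^ 2 = 3 := Real.sq_sqrt (by norm_num)
  rw [T4_aux L c hc hl, hOm]
  have hsp : 0 < Real.sqrt 3 := Real.sqrt_pos.2 (by norm_num)
  refine ⟨by positivity, ?_⟩
  ring

theorem T4_of_pow {x : ℂ} {n : ℕ} (hn : n ≠ 0) (hx : Unit2 (x ^ n)) : Unit2 x := by
  intro A hA
  have h := hx A hA
  rw [map_pow] at h
  exact (pow_eq_one_iff_of_nonneg zero_le hn).1 h

theorem R0_Omr (L : PeriodPair) (h2 : L.g₂ = 0) (h3 : L.g₃ = -1) :
    Unit2 (H55N.R0 / (Omr L : ℂ)) ∧ Unit2 (H55N.R0 ^ 2 / (Om L : ℂ)) := by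
  obtain ⟨hpos, hOm⟩ := Omr_eq L h2 h3
  have h1 := period_unit L h2 h3
  rw [H13E.R_real] at h1
  have h1' : Unit2 (H55N.R0 ^ 2 / (Om L : ℂ)) := by
    have e1 : H55N.R0 ^ 2 / (Om L : ℂ) = R (e om - 1) * R (e om - 1) / (Om L : ℂ) := by
      unfold H55N.R0
      rw [sq]
    rw [e1]
    exact h1
  refine ⟨?_, h1'⟩
  have hO : (Omr L : ℂ) ≠ 0 := by exact_mod_cast hpos.ne'
  have hs3 : ((Real.sqrt 3 : ℝ) : ℂ) ^ 2 = 3 := by
    rw [← Complex.ofReal_pow, Real.sq_sqrt (by norm_num)]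
    norm_num
  have hs0 : ((Real.sqrt 3 : ℝ) : ℂ) ≠ 0 := by
    intro h
    rw [h] at hs3
    norm_num at hs3
  have hOm0 : (Om L : ℂ) ≠ 0 := by
    intro h
    have h5 : ((Real.sqrt 3 * Om L : ℝ) : ℂ) = ((Omr L ^ 2 : ℝ) : ℂ) := by rw [hOm]
    push_cast at h5
    rw [h, mul_zero] at h5
    exact pow_ne_zero 2 hO h5.symm
  have hOmc : (Omr L : ℂ) ^ 2 = ((Real.sqrt 3 : ℝ) : ℂ) * (Om L : ℂ) := by
    have h5 : ((Real.sqrt 3 * Om L : ℝ) : ℂ) = ((Omr L ^ 2 : ℝ) : ℂ) := by rw [hOm]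
    push_cast at h5
    exact h5.symm
  refine T4_of_pow (n := 4) (by norm_num) ?_
  have e1 : (H55N.R0 / (Omr L : ℂ)) ^ 4 = (H55N.R0 ^ 2 / (Om L : ℂ)) ^ 2 * (3 : ℂ)⁻¹ := by
    have e2 : (H55N.R0 / (Omr L : ℂ)) ^ 4 = (H55N.R0 ^ 2 / (Omr L : ℂ) ^ 2) ^ 2 := by
      field_simp
    rw [e2, hOmc, div_pow, div_pow, mul_pow, hs3]
    field_simp
  rw [e1]
  have h3u : Unit2 (3 : ℂ) := by
    intro A hA
    have h6 : A.valuation ((3 : ℕ) : ℂ) = 1 := val_odd A hA 3 (by decide)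
    have h7 : ((3 : ℕ) : ℂ) = 3 := by norm_num
    rwa [h7] at h6
  exact (h1'.pow 2).mul h3u.inv

end H55D
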