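import Mathlib
import Pool.Agent.Lib.H55D.Q5
import Pool.Agent.Lib.H55D.T2
import Pool.Agent.Lib.H55D.T4

open NumberField IsDedekindDomain

namespace H55D

open H55B H55C H55N

variable {K₀ K : Type} [Field K₀] [NumberField K₀] [Field K] [NumberField K] [Algebra F K] [Algebra K₀ K]

theorem Fin1_finrank_F : Module.finrank ℚ F = 2 := by
  have h := IsCyclotomicExtension.finrank (n := 3) F
    (Polynomial.cyclotomic.irreducible_rat (by norm_num))
  rw [h]
  decide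

theorem Fin1_rank (hQ : H13E.Quad K₀ K) : Module.finrank F K =
    InfinitePlace.nrRealPlaces K₀ + 2 * InfinitePlace.nrComplexPlaces K₀ := by
  have h1 := InfinitePlace.card_add_two_mul_card_eq_rank K₀
  have h2 := Module.finrank_mul_finrank ℚ K₀ K
  have h3 := Module.finrank_mul_finrank ℚ F K
  rw [hQ.rank] at h2
  rw [Fin1_finrank_F] at h3
  omega

theorem Fin1_alg (L1 s E o p T r : ℂ) (r1 r2 : ℕ) (hr : r ≠ 0) :
    L1 * s * E ^ 2 / (o ^ r1 * p ^ r2 * T) =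
      L1 / r ^ (r1 + 2 * r2) * (r / o) ^ r1 * (r ^ 2 / p) ^ r2 * s * E ^ 2 / T := by
  have h1 : r ^ (r1 + 2 * r2) = r ^ r1 * (r ^ 2) ^ r2 := by
    rw [pow_add, pow_mul]
  have h2 : r ^ r1 ≠ 0 := pow_ne_zero _ hr
  have h3 : (r ^ 2) ^ r2 ≠ 0 := pow_ne_zero _ (pow_ne_zero _ hr)
  rw [h1, div_pow, div_pow]
  generalize r ^ r1 = x at h2 ⊢
  generalize (r ^ 2) ^ r2 = y at h3 ⊢
  generalize o ^ r1 = z
  generalize p ^ r2 = w
  simp only [div_eq_mul_inv, mul_inv]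
  have hx : x⁻¹ * x = 1 := inv_mul_cancel₀ h2
  have hy : y⁻¹ * y = 1 := inv_mul_cancel₀ h3
  linear_combination (-(L1 * s * E ^ 2 * z⁻¹ * w⁻¹ * T⁻¹) * (y⁻¹ * y)) * hx -
    (L1 * s * E ^ 2 * z⁻¹ * w⁻¹ * T⁻¹) * hy

/-! Chunk Fin1 (M): the 2-part over K₀. n = finrank F K = finrank ℚ K₀ = r1 + 2 r2 (finrank ℚ K = 2 finrank ℚ K₀ = 2 finrank F K; InfinitePlace.card_add_two_mul_card_eq_rank). shaAn = (L1/R0^n) (R0/Omr)^(r1) (R0^2/Om)^(r2) sqrt|D| E^2/prod tam;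
all factors are units: R0_Omr, W13_sqrt with odd_discr0, W13_nat, tam0_prod. -/

theorem shaAn0_unit (hQ : H13E.Quad K₀ K) (hU : UnrOut K)
    (hE : Odd (Nat.card (E27.baseChange K₀).toAffine.Point)) (L1 : ℂ)
    (hL : Unit2 (L1 / R0 ^ Module.finrank F K)) (L : PeriodPair) (h2 : L.g₂ = 0) (h3 : L.g₃ = -1) :
    Unit2 (shaAn K₀ L L1) := by
  obtain ⟨X, hR0, -⟩ := exists_X
  have hr : R0 ≠ 0 := hR0
  obtain ⟨hv, hw⟩ := R0_Omr L h2 h3
  have ht := tam0_prod (K₀ := K₀) K hU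
  have hE' := (W13_nat hE).pow 2
  have hs := W13_sqrt _ (odd_discr0 (K₀ := K₀) K hU)
  rw [Fin1_rank hQ] at hL
  unfold shaAn
  rw [Fin1_alg L1 _ _ _ _ _ R0 _ _ hr]
  exact W13_div ((((hL.mul (hv.pow _)).mul (hw.pow _)).mul hs).mul hE') ht

/-! For fields containing F: BSDTwo of H55C and BSD2 agree (no real places: complex_places and the rank formula; E0, tam are the same definitions). -/

theorem Fin1_real (K : Type) [Field K] [NumberField K] [Algebra F K] :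
    InfinitePlace.nrRealPlaces K = 0 := by
  have h1 := InfinitePlace.card_add_two_mul_card_eq_rank K
  have h2 := complex_places K
  have h3 := Module.finrank_mul_finrank ℚ F K
  rw [Fin1_finrank_F] at h3
  omega

theorem Fin1_shaAn (K : Type) [Field K] [NumberField K] [Algebra F K] (L : PeriodPair) (L1 : ℂ) :
    shaAn K L L1 = H55C.shaAn K L L1 := by
  unfold shaAn H55C.shaAn
  rw [Fin1_real, pow_zero, one_mul]
  rfl

theorem BSD2_of (K : Type) [Field K] [NumberField K] [Algebra F K] (h : BSDTwo K) : BSD2 K := by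
  obtain ⟨h1, h2, Λ, h3, h4, h5, h6⟩ := h
  refine ⟨h1, h2, Λ, h3, h4, h5, fun L hL2 hL3 => ?_⟩
  rw [Fin1_shaAn]
  exact h6 L hL2 hL3

end H55D
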