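import Mathlib
import Pool.Agent.Lib.H13E.Q1
import Pool.Agent.Lib.H13E.S2
import Pool.Agent.Lib.H55C.A18
import Pool.Agent.Lib.H55C.A5

open NumberField IsDedekindDomain Polynomial

namespace H55D

open H55B H55C

/-! Chunk S2 (M/L): descent of the Selmer group. m in Sel K₀. (1) m' = cmap (algebraMap K₀ K) m is in Sel K: as in H13E/S2 (sel_sub, first half): unit, norm (norm of a + b T + c T^2 in the basis 1, T, T^2 of
AdjoinRoot (X^3 - 2) is a^3 + 2 b^3 + 4 c^3 - 6abc over both fields), local conditions with H55C.exists_iota (A17) and functoriality of cmap. So m' = b'^2 in Cub K = K[T]/(T^3-2).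
(2) Let c be the nontrivial automorphism of K/K₀ acting on the coefficients of Cub K (an automorphism gamma of Cub K), s in K with s^2 = -3, c s = -s, every element of K is a + b s with a, b in K₀. gamma(b')^2 = b'^2. X^3 - 2 is
irreducible over K (2 is not a cube in K, a number field of degree 2^k over F: K contains no cube root of 2, use finrank F K = 2^k; see H55C/A-files or H55B: X^3 - 2 irreducible over K), so Cub K is a field and gamma b' = b' or gamma b' = -b'.
(3) gamma b' = b': the coefficients of b' are in K₀, b' = cmap d, m = d^2 by injectivity. (4) gamma b' = -b': b' = s cmap d, so m = -3 d^2 in Cub K₀; norms: N(m) = -27 N(d)^2 = n^2 in K₀, m a unit, so N(d) <> 0 and -3 = (n/(3 N(d)))^2, so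
x^2 + x + 1 = 0 has the root (-1 + n/(3N(d)))/2 in K₀, contradiction to noroot. -/

theorem DS2_of {k k' : Type} [Field k] [Field k'] (f : k →+* k') (x : k) :
    cmap f (AdjoinRoot.of _ x) = AdjoinRoot.of _ (f x) := by
  unfold cmap
  exact AdjoinRoot.map_of _ _ _ _ x

theorem DS2_root {k k' : Type} [Field k] [Field k'] (f : k →+* k') :
    cmap f (AdjoinRoot.root _) = AdjoinRoot.root _ := by
  unfold cmap
  exact AdjoinRoot.map_root _ _ _ _

theorem DS2_span {k : Type} [Field k] (m : Cub k) : ∃ a b c : k, m = AdjoinRoot.of _ a +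
    AdjoinRoot.of _ b * AdjoinRoot.root _ + AdjoinRoot.of _ c * AdjoinRoot.root _ ^ 2 :=
  J0_span k m

theorem DS2_indep {k : Type} [Field k] (a b c : k)
    (h : (AdjoinRoot.of _ a + AdjoinRoot.of _ b * AdjoinRoot.root _ +
      AdjoinRoot.of _ c * AdjoinRoot.root _ ^ 2 : Cub k) = 0) : a = 0 ∧ b = 0 ∧ c = 0 :=
  J0_indep k a b c h

theorem DS2_map {k k' : Type} [Field k] [Field k'] (f : k →+* k') (a b c : k) :
    cmap f (AdjoinRoot.of _ a + AdjoinRoot.of _ b * AdjoinRoot.root _ +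
      AdjoinRoot.of _ c * AdjoinRoot.root _ ^ 2) = AdjoinRoot.of _ (f a) +
      AdjoinRoot.of _ (f b) * AdjoinRoot.root _ + AdjoinRoot.of _ (f c) * AdjoinRoot.root _ ^ 2 := by
  rw [map_add, map_add, map_mul, map_mul, map_pow, DS2_of, DS2_of, DS2_of, DS2_root]

theorem DS2_comp {k k' k'' : Type} [Field k] [Field k'] [Field k''] (f : k →+* k')
    (g : k' →+* k'') (h : k →+* k'') (hh : ∀ x, g (f x) = h x) (m : Cub k) :
    cmap g (cmap f m) = cmap h m := by
  obtain ⟨a, b, c, rfl⟩ := DS2_span m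
  rw [DS2_map, DS2_map, DS2_map, hh, hh, hh]

theorem DS2_inj {k k' : Type} [Field k] [Field k'] (f : k →+* k') {m : Cub k}
    (h : cmap f m = 0) : m = 0 := by
  obtain ⟨a, b, c, rfl⟩ := DS2_span m
  rw [DS2_map] at h
  obtain ⟨ha, hb, hc⟩ := DS2_indep _ _ _ h
  rw [map_eq_zero] at ha hb hc
  rw [ha, hb, hc, map_zero, zero_mul, zero_mul, add_zero, add_zero]

theorem DS2_norm {k k' : Type} [Field k] [Field k'] (f : k →+* k') (m : Cub k) :
    Algebra.norm k' (cmap f m) = f (Algebra.norm k m) := by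
  obtain ⟨a, b, c, rfl⟩ := DS2_span m
  rw [DS2_map, A18_norm, A18_norm]
  simp only [map_add, map_sub, map_mul, map_pow, map_ofNat]

theorem DS2_norm_of {k : Type} [Field k] (a : k) :
    Algebra.norm k (AdjoinRoot.of _ a : Cub k) = a ^ 3 := by
  have h := A18_norm k a 0 0
  rw [map_zero, zero_mul, zero_mul, add_zero, add_zero] at h
  rw [h]
  ring

theorem DS2_sel (K₀ K : Type) [Field K₀] [NumberField K₀] [Field K] [NumberField K]
    [Algebra K₀ K] (m : Cub K₀) (hm : m ∈ Sel K₀) : cmap (algebraMap K₀ K) m ∈ Sel K := by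
  obtain ⟨hu, ⟨n, hn⟩, hloc⟩ := hm
  refine ⟨hu.map _, ⟨algebraMap K₀ K n, ?_⟩, ?_⟩
  · rw [DS2_norm, hn, map_pow]
  · intro w
    obtain ⟨w', hw'⟩ := H13E.S2_below K₀ K w
    obtain ⟨ι, e, he, hι, -⟩ := H55C.exists_iota K₀ K w w' hw'
    obtain ⟨x, y, hxy, hx, b, hb⟩ := hloc w'
    refine ⟨ι x, ι y, ?_, ?_, cmap ι b, ?_⟩
    · rw [← map_pow, ← map_add, hxy, map_pow]
    · have h1 : ι (2 * y + 1) = 2 * ι y + 1 := by
        rw [map_add, map_mul, map_one, map_ofNat]
      rw [← h1]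
      exact (map_ne_zero ι).2 hx
    · have h1 : cmap ι (2 * (2 * AdjoinRoot.of _ x + AdjoinRoot.root _)) =
          2 * (2 * AdjoinRoot.of _ (ι x) + AdjoinRoot.root _) := by
        rw [map_mul, map_add, map_mul, map_ofNat (cmap ι), DS2_of, DS2_root]
      rw [← map_pow, ← hb, map_mul, h1]
      rw [DS2_comp (algebraMap K₀ (w'.adicCompletion K₀)) ι
        (ι.comp (algebraMap K₀ (w'.adicCompletion K₀))) (fun _ => rfl)]
      rw [DS2_comp (algebraMap K₀ K) (algebraMap K (w.adicCompletion K))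
        (ι.comp (algebraMap K₀ (w'.adicCompletion K₀))) (fun x => (hι x).symm)]

theorem sel_sub (K₀ K : Type) [Field K₀] [NumberField K₀] [Field K] [NumberField K] [Algebra F K]
    [Algebra K₀ K] (hQ : H13E.Quad K₀ K) (k : ℕ) (hk : Module.finrank F K = 2 ^ k)
    (h : ∀ m ∈ Sel K, ∃ b : Cub K, m = b ^ 2) : ∀ m ∈ Sel K₀, ∃ b : Cub K₀, m = b ^ 2 := by
  intro m hm
  obtain ⟨b, hb⟩ := h _ (DS2_sel K₀ K m hm)
  obtain ⟨hu, ⟨n, hn⟩, -⟩ := hm
  obtain ⟨c, -, hcO, -, -, hfix⟩ := H13E.exists_c hQ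
  have hirr : Fact (Irreducible (X ^ 3 - C 2 : K[X])) :=
    ⟨X_pow_sub_C_irreducible_of_prime Nat.prime_three (a5_no_cube K k hk)⟩
  set g : Cub K →+* Cub K := cmap (c : K →+* K) with hg
  have hgf : ∀ z : Cub K₀, g (cmap (algebraMap K₀ K) z) = cmap (algebraMap K₀ K) z := by
    intro z
    exact DS2_comp _ _ _ (fun x => c.commutes x) z
  have hfixg : ∀ z : Cub K, g z = z → ∃ d : Cub K₀, cmap (algebraMap K₀ K) d = z := by
    intro z hz
    obtain ⟨a₁, a₂, a₃, rfl⟩ := DS2_span z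
    rw [hg, DS2_map] at hz
    have h1 : (AdjoinRoot.of _ (c a₁ - a₁) + AdjoinRoot.of _ (c a₂ - a₂) * AdjoinRoot.root _ +
        AdjoinRoot.of _ (c a₃ - a₃) * AdjoinRoot.root _ ^ 2 : Cub K) = 0 := by
      rw [map_sub, map_sub, map_sub]
      have hz' : (AdjoinRoot.of _ (c a₁) + AdjoinRoot.of _ (c a₂) * AdjoinRoot.root _ +
        AdjoinRoot.of _ (c a₃) * AdjoinRoot.root _ ^ 2 : Cub K) = AdjoinRoot.of _ a₁ +
        AdjoinRoot.of _ a₂ * AdjoinRoot.root _ + AdjoinRoot.of _ a₃ * AdjoinRoot.root _ ^ 2 := hz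
      linear_combination hz'
    obtain ⟨h2, h3, h4⟩ := DS2_indep _ _ _ h1
    obtain ⟨b₁, hb₁⟩ := hfix a₁ (sub_eq_zero.1 h2)
    obtain ⟨b₂, hb₂⟩ := hfix a₂ (sub_eq_zero.1 h3)
    obtain ⟨b₃, hb₃⟩ := hfix a₃ (sub_eq_zero.1 h4)
    exact ⟨AdjoinRoot.of _ b₁ + AdjoinRoot.of _ b₂ * AdjoinRoot.root _ +
      AdjoinRoot.of _ b₃ * AdjoinRoot.root _ ^ 2, by rw [DS2_map, hb₁, hb₂, hb₃]⟩
  have hsq : g b ^ 2 = b ^ 2 := by
    rw [← map_pow, ← hb, hgf]
  have h0 : (g b - b) * (g b + b) = 0 := by linear_combination hsq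
  rcases mul_eq_zero.1 h0 with h1 | h1
  · obtain ⟨d, hd⟩ := hfixg b (sub_eq_zero.1 h1)
    refine ⟨d, ?_⟩
    rw [← sub_eq_zero]
    apply DS2_inj (algebraMap K₀ K)
    rw [map_sub, map_pow, hd, hb, sub_self]
  · exfalso
    have hz := H13E.q1_rel (K := K)
    set z : K := algebraMap O K om with hzdef
    have hcz : c z = z ^ 2 := by
      rw [hzdef, hcO, cj_om, map_pow]
    have hcs : c (2 * z + 1) = -(2 * z + 1) := by
      rw [map_add, map_mul, map_one, map_ofNat, hcz]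
      linear_combination 2 * hz
    have hgs : g (AdjoinRoot.of _ (2 * z + 1)) = -AdjoinRoot.of _ (2 * z + 1) := by
      rw [hg, DS2_of, ← map_neg]
      exact congrArg _ hcs
    have h2 : g (AdjoinRoot.of _ (2 * z + 1) * b) = AdjoinRoot.of _ (2 * z + 1) * b := by
      rw [map_mul, hgs]
      linear_combination (-AdjoinRoot.of (X ^ 3 - C 2 : K[X]) (2 * z + 1)) * h1
    obtain ⟨d, hd⟩ := hfixg _ h2
    have hs : (AdjoinRoot.of (X ^ 3 - C 2 : K[X]) (2 * z + 1)) ^ 2 = AdjoinRoot.of _ (-3) := by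
      rw [← map_pow]
      congr 1
      linear_combination 4 * hz
    have h3 : AdjoinRoot.of _ (-3) * m = d ^ 2 := by
      rw [← sub_eq_zero]
      apply DS2_inj (algebraMap K₀ K)
      rw [map_sub, map_pow, hd, map_mul, DS2_of, hb, mul_pow, hs, map_neg (algebraMap K₀ K),
        map_ofNat (algebraMap K₀ K), sub_self]
    have h4 := congrArg (Algebra.norm K₀) h3
    rw [map_mul, map_pow, DS2_norm_of, hn] at h4
    have hn0 : n ≠ 0 := by
      intro h5
      have h6 := hu.map (Algebra.norm K₀)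
      rw [hn, h5, zero_pow two_ne_zero] at h6
      exact not_isUnit_zero h6
    set N : K₀ := Algebra.norm K₀ d with hN
    apply hQ.noroot ((-1 + N / (3 * n)) / 2)
    have h30 : (3 : K₀) ≠ 0 := three_ne_zero
    have h20 : (2 : K₀) ≠ 0 := two_ne_zero
    field_simp
    linear_combination (-1 : K₀) * h4

end H55D
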