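import Mathlib
import Pool.Agent.Lib.H55C.W8

open NumberField IsDedekindDomain

namespace H55D

open H55B H55C

/-! Chunk S1 (S): COPY of H13E/S1 (points_sub) for E27: E27(K₀) embeds into E27(K) (Point.map), so it is finite of order dividing an odd number. -/

theorem points_sub (K₀ K : Type) [Field K₀] [NumberField K₀] [Field K] [NumberField K] [Algebra K₀ K]
    (h1 : Finite (E27.baseChange K).toAffine.Point)
    (h2 : Odd (Nat.card (E27.baseChange K).toAffine.Point)) :
    Finite (E27.baseChange K₀).toAffine.Point ∧
      Odd (Nat.card (E27.baseChange K₀).toAffine.Point) := by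
  classical
  let f : K₀ →ₐ[ℚ] K := (algebraMap K₀ K).toRatAlgHom
  let g : (E27.baseChange K₀).toAffine.Point →+ (E27.baseChange K).toAffine.Point :=
    WeierstrassCurve.Affine.Point.map (W' := E27) f
  have hg : Function.Injective g := WeierstrassCurve.Affine.Point.map_injective (W' := E27) f
  refine ⟨Finite.of_injective g hg, ?_⟩
  exact Odd.of_dvd_nat h2 (AddSubgroup.card_dvd_of_injective g hg)

end H55D
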