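import Mathlib
import Pool.Agent.Lib.H55C.B9
import Pool.Agent.Lib.H55D.QA
import Pool.Agent.Lib.H55N.H3
import Pool.Agent.Lib.H55N.H6

open NumberField IsDedekindDomain

namespace H55D

open H55B H55C H55N

variable {K₀ K : Type} [Field K₀] [NumberField K₀] [Field K] [NumberField K] [Algebra F K] [Algebra K₀ K]

/-! Chunk V (S/M): LV (Psi K) gives Λ analytic with HasSum (tm (Psi K) s) (Λ s) for Re s > 3/2; AI_LSeries (summability: tm_summable with Psi_norm_le) says that the L-series of AI (Psi K) converges absolutely to the same sum; LFun0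
replaces its coefficients (coefficient at 0: both are 0 or irrelevant: LSeries.term at 0 is 0). Λ 1 ≠ 0 because Λ 1 / R0^n is a 2-adic unit (a valuation ring above 2 exists: see how H55C.B10 or H55N.H8 does it; or Unit2 0 is impossible).
WeierstrassCurve.LSeries is by definition the LSeries of the integer coefficients. -/

theorem L_val0 (hQ : H13E.Quad K₀ K) (hU : UnrOut K) (h : LV (Psi K)) :
    ∃ Λ : ℂ → ℂ, AnalyticOnNhd ℂ Λ {s | 1 / 2 < s.re} ∧
      (∀ s : ℂ, 3 / 2 < s.re →
        LSeriesSummable (fun n => (((E27.baseChange K₀).LFunction n : ℤ) : ℂ)) s ∧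
        Λ s = (E27.baseChange K₀).LSeries s) ∧ Λ 1 ≠ 0 ∧
      Unit2 (Λ 1 / R0 ^ Module.finrank F K) := by
  obtain ⟨Λ, hA, hsum, hval⟩ := h
  refine ⟨Λ, hA, ?_, (div_ne_zero_iff.1 hval.ne_zero).1, hval⟩
  intro s hs
  have h0 : Psi K ⊥ = 0 := (Psi K).map_zero
  have h1 := AI_LSeries (fun a => Psi K a) h0 s
    (tm_summable (fun a => Psi K a) Psi_norm_le s hs)
  have h2 : ∑' a : Ideal (𝓞 K), tm (fun a => Psi K a) s a = Λ s := (hsum s hs).tsum_eq
  rw [h2] at h1
  have key : LSeriesHasSum (fun n => (((E27.baseChange K₀).LFunction n : ℤ) : ℂ)) s (Λ s) := by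
    have e1 : (fun n => (((E27.baseChange K₀).LFunction n : ℤ) : ℂ)) =
        fun n => AI (fun a => Psi K a) n := by
      funext n
      exact LFun0 hQ hU n
    rw [e1]
    exact h1
  exact ⟨key.LSeriesSummable, key.LSeries_eq.symm⟩

end H55D
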