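import Mathlib
import Pool.Agent.Lib.H55D.Fin1
import Pool.Agent.Lib.H55D.V
import Pool.Agent.Lib.H55N.Fin

open NumberField IsDedekindDomain

namespace H55D

open H55B H55C H55N

/-- The general theorem for fields without cube roots of unity: K = K₀(om) is contained in a
Galois 2-extension of F unramified outside the good primes. -/
theorem main0 (K₀ K : Type) [Field K₀] [NumberField K₀] [Field K] [NumberField K] [Algebra F K]
    [Algebra K₀ K] (hQ : H13E.Quad K₀ K) (hS : Sub2 K) : BSD2 K₀ := by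
  obtain ⟨k, hk⟩ := hS.degree
  obtain ⟨s1, s2, s3⟩ := selTwo_sub K hS
  obtain ⟨p1, p2⟩ := points_sub K₀ K s2 s3
  obtain ⟨Λ, a1, a2, a3, a4⟩ := L_val0 hQ hS.unr (LV_all k K hS hk)
  exact ⟨⟨sel_sub K₀ K hQ k hk s1, p1, p2⟩, period_exists, Λ, a1, a2, a3,
    fun L g2 g3 => shaAn0_unit hQ hS.unr p2 (Λ 1) a4 L g2 g3⟩

/-- The general theorem for fields containing the cube roots of unity. -/
theorem mainF (K : Type) [Field K] [NumberField K] [Algebra F K] (hS : Sub2 K) : BSD2 K :=
  BSD2_of K (bsdTwo_sub K hS)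

end H55D
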