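import Mathlib
import Pool.Agent.Lib.H55D.X3

open NumberField IsDedekindDomain

namespace H55D

open H55B H55C

/-! Chunk X4 (M/L): a totally real nonabelian example, ADAPT H55C/Y21, Y22, Y23 (there over F, with X^4 - 6X^2 + 37, r^2 = -7). K₀ = the splitting field over ℚ of f = X^4 - 46 X^2 + 61. Let s be a root, r = (s^2 - 23)/6, so r^2 = 13
(s^4 - 46 s^2 + 529 = 468), t a root of X^2 - 23 + 6r; (s t)^2 = 61; K₀ = ℚ(s, t), Galois with group of exponent dividing 4 and order 2^k (as Y21). Not commutative: 13, 61, 793 are not squares in ℚ (as Y22). Unramified outside 13, 61: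
ϑ = (1+r)/2 (ϑ^2 - ϑ - 3 = 0), u = (1+s)/2 (u^2 - u = 4 + 3ϑ), u' = (1+t)/2 (u'^2 - u' = 7 - 3ϑ) are algebraic integers, and an element g of the inertia group of w (over ℤ) fixes r (else -r in w, 13 in w), s and t (else s in w, 61 = (st)^2 in w) (as Y23; g s = ± s once g r = r).
13 and 61 are 1 mod 3 and 2 is not a cube mod 13, 61 (decide). Totally real: the roots of f are ± sqrt(23 ± 6 sqrt 13), 23 > 6 sqrt 13 (529 > 468): for an embedding φ of K₀ in ℂ, φ(r)^2 = 13 so φ(r) is real, φ(s)^2 = 23 + 6φ(r) > 0 is real positive so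
φ(s) is real, also φ(t), so the image is in ℝ (NumberField.IsTotallyReal or: every infinite place is real; nrComplexPlaces = 0). -/

/-- The data of the example: K = ℚ(s, t), s^2 = 23 + 6r, t^2 = 23 - 6r, r^2 = 13. -/
structure X4_D (K : Type) [Field K] [NumberField K] (r s t : K) : Prop where
  hr : r ^ 2 = 13
  hs : s ^ 2 = 23 + 6 * r
  ht : t ^ 2 = 23 - 6 * r
  gen : Algebra.adjoin ℚ {s, t} = ⊤

open Polynomial in
/-- the polynomial -/
noncomputable def X4_f : ℚ[X] := X ^ 4 - 46 * X ^ 2 + 61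

open Polynomial in
lemma X4_f_monic : X4_f.Monic := by
  unfold X4_f
  monicity!

open Polynomial in
lemma X4_natDegree : X4_f.natDegree = 4 := by
  unfold X4_f
  compute_degree!

open Polynomial in
lemma X4_aeval {K : Type} [Field K] [Algebra ℚ K] (x : K) :
    aeval x X4_f = x ^ 4 - 46 * x ^ 2 + 61 := by
  unfold X4_f
  simp only [map_add, map_sub, map_mul, map_pow, aeval_X, map_ofNat]

open Polynomial in
lemma X4_map (K : Type) [Field K] [Algebra ℚ K] :
    X4_f.map (algebraMap ℚ K) = X ^ 4 - 46 * X ^ 2 + 61 := by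
  unfold X4_f
  simp only [Polynomial.map_add, Polynomial.map_sub, Polynomial.map_mul, Polynomial.map_pow,
    Polynomial.map_X, Polynomial.map_ofNat]

open Polynomial in
lemma X4_fac {K : Type} [Field K] (r : K) (hr : r ^ 2 = 13) :
    (X ^ 4 - 46 * X ^ 2 + 61 : K[X]) = (X ^ 2 - C (23 - 6 * r)) * (X ^ 2 - C (23 + 6 * r)) := by
  have e13 : (C 13 : K[X]) = 13 := map_ofNat C 13
  have e6 : (C 6 : K[X]) = 6 := map_ofNat C 6
  have e23 : (C 23 : K[X]) = 23 := map_ofNat C 23
  have h3 : (C r : K[X]) ^ 2 = 13 := by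
    rw [← C_pow, hr, e13]
  rw [C_sub, C_add, C_mul, e6, e23]
  linear_combination 36 * h3

open Polynomial in
theorem X4_aux (K : Type) [Field K] [CharZero K] [Algebra ℚ K]
    (hsp : (X4_f.map (algebraMap ℚ K)).Splits) (hgen : Algebra.adjoin ℚ (X4_f.rootSet K) = ⊤) :
    ∃ r s t : K, r ^ 2 = 13 ∧ s ^ 2 = 23 + 6 * r ∧ t ^ 2 = 23 - 6 * r ∧
      Algebra.adjoin ℚ {s, t} = ⊤ := by
  have h2 : (6 : K) ≠ 0 := by norm_num
  have hdeg : (X4_f.map (algebraMap ℚ K)).degree ≠ 0 := by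
    rw [degree_map, degree_eq_natDegree X4_f_monic.ne_zero, X4_natDegree]
    decide
  obtain ⟨s, hs⟩ := hsp.exists_eval_eq_zero hdeg
  rw [eval_map_algebraMap, X4_aeval] at hs
  set r : K := (s ^ 2 - 23) / 6 with hrdef
  have hs2 : s ^ 2 = 23 + 6 * r := by
    rw [hrdef]; field_simp; ring
  have hr2 : r ^ 2 = 13 := by
    rw [hrdef]; field_simp
    linear_combination hs
  have hfac : X4_f.map (algebraMap ℚ K) =
      (X ^ 2 - C (23 - 6 * r)) * (X ^ 2 - C (23 + 6 * r)) :=
    (X4_map _).trans (X4_fac r hr2)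
  have hq : (X ^ 2 - C (23 - 6 * r)).Splits := by
    refine hsp.of_dvd (map_monic_ne_zero X4_f_monic) ?_
    rw [hfac]
    exact dvd_mul_right _ _
  have hqd : (X ^ 2 - C (23 - 6 * r)).degree ≠ 0 := by
    rw [degree_X_pow_sub_C (by norm_num)]
    decide
  obtain ⟨t, ht⟩ := hq.exists_eval_eq_zero hqd
  rw [eval_sub, eval_pow, eval_X, eval_C, sub_eq_zero] at ht
  refine ⟨r, s, t, hr2, hs2, ht, ?_⟩
  rw [eq_top_iff, ← hgen]
  refine Algebra.adjoin_le fun x hx => ?_
  have hx0 := (mem_rootSet.1 hx).2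
  rw [X4_aeval] at hx0
  have hx1 : (x ^ 2 - s ^ 2) * (x ^ 2 - t ^ 2) = 0 := by
    rw [hs2, ht]
    linear_combination hx0 - 36 * hr2
  have hsm : s ∈ Algebra.adjoin ℚ ({s, t} : Set K) :=
    Algebra.subset_adjoin (by simp)
  have htm : t ∈ Algebra.adjoin ℚ ({s, t} : Set K) :=
    Algebra.subset_adjoin (by simp)
  rcases mul_eq_zero.1 hx1 with h | h
  · rcases sq_eq_sq_iff_eq_or_eq_neg.1 (sub_eq_zero.1 h) with h | h
    · rw [h]; exact hsm
    · rw [h]; exact neg_mem hsm
  · rcases sq_eq_sq_iff_eq_or_eq_neg.1 (sub_eq_zero.1 h) with h | h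
    · rw [h]; exact htm
    · rw [h]; exact neg_mem htm

theorem X4_inst (K : Type) [Field K] (inst0 inst1 : Algebra ℚ K) (S : Set K)
    (h : @Algebra.adjoin ℚ K _ _ inst0 S = ⊤) : @Algebra.adjoin ℚ K _ _ inst1 S = ⊤ := by
  have h1 : inst0 = inst1 := Subsingleton.elim _ _
  subst h1
  exact h

open Polynomial in
theorem X4_exists : ∃ (K : Type) (_ : Field K) (_ : NumberField K) (r s t : K),
    X4_D K r s t := by
  have hNF : NumberField (SplittingField X4_f) := NumberField.of_module_finite ℚ _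
  obtain ⟨r, s, t, h1, h2, h3, h4⟩ := @X4_aux (SplittingField X4_f) _ _ _
    (SplittingField.splits X4_f) (SplittingField.adjoin_rootSet X4_f)
  exact ⟨SplittingField X4_f, inferInstance, hNF, r, s, t, h1, h2, h3, X4_inst _ _ _ _ h4⟩

variable {K : Type} [Field K] [NumberField K] {r s t : K}

theorem X4_D.galois (D : X4_D K r s t) : IsGalois ℚ K := by
  have hint : ∀ x : K, IsIntegral ℚ x := fun x => Algebra.IsIntegral.isIntegral x
  have htop : ∀ x : K, x ∈ IntermediateField.adjoin ℚ {s, t} := by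
    intro x
    have h1 : x ∈ Algebra.adjoin ℚ {s, t} := D.gen ▸ Algebra.mem_top
    exact IntermediateField.algebra_adjoin_le_adjoin ℚ _ h1
  have hfac : X4_f.map (algebraMap ℚ K) = (Polynomial.X - Polynomial.C s) *
      (Polynomial.X - Polynomial.C (-s)) *
      ((Polynomial.X - Polynomial.C t) * (Polynomial.X - Polynomial.C (-t))) := by
    rw [X4_map, X4_fac r D.hr, ← D.hs, ← D.ht]
    simp only [Polynomial.C_neg, Polynomial.C_pow]
    ring
  have hsplit : (X4_f.map (algebraMap ℚ K)).Splits := by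
    rw [hfac]
    exact ((Polynomial.Splits.X_sub_C s).mul (Polynomial.Splits.X_sub_C (-s))).mul
      ((Polynomial.Splits.X_sub_C t).mul (Polynomial.Splits.X_sub_C (-t)))
  have hzero : ∀ x ∈ ({s, t} : Set K), Polynomial.aeval x X4_f = 0 := by
    intro x hx
    rw [X4_aeval]
    rcases hx with rfl | hx
    · have h1 : x ^ 4 = (x ^ 2) ^ 2 := by ring
      rw [h1, D.hs]
      linear_combination 36 * D.hr
    · rw [Set.mem_singleton_iff] at hx
      rw [hx]
      have h1 : t ^ 4 = (t ^ 2) ^ 2 := by ring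
      rw [h1, D.ht]
      linear_combination 36 * D.hr
  have hsp : ∀ x ∈ ({s, t} : Set K), ((minpoly ℚ x).map (algebraMap ℚ K)).Splits := by
    intro x hx
    exact hsplit.of_dvd (Polynomial.map_monic_ne_zero X4_f_monic)
      (Polynomial.map_dvd _ (minpoly.dvd ℚ x (hzero x hx)))
  have hn : Normal ℚ K := normal_iff.mpr fun x =>
    ⟨hint x, IntermediateField.splits_of_mem_adjoin ℚ K (L := K) (S := {s, t})
      (fun s hs => ⟨hint s, hsp s hs⟩) (htop x)⟩
  exact ⟨⟩

lemma X4_pow (D : X4_D K r s t) (g : K ≃ₐ[ℚ] K) : g ^ 4 = 1 := by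
  have hgr : g (g r) = r := by
    have h1 : (g r) ^ 2 = r ^ 2 := by
      rw [← map_pow, D.hr, map_ofNat]
    rcases sq_eq_sq_iff_eq_or_eq_neg.mp h1 with h2 | h2
    · rw [h2, h2]
    · rw [h2, map_neg, h2, neg_neg]
  have key : ∀ x : K, (g (g x)) ^ 2 = x ^ 2 → g (g (g (g x))) = x := by
    intro x h1
    rcases sq_eq_sq_iff_eq_or_eq_neg.mp h1 with h2 | h2
    · rw [h2, h2]
    · rw [h2, map_neg, map_neg, h2, neg_neg]
  have hs : g (g (g (g s))) = s := by
    refine key s ?_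
    rw [← map_pow, ← map_pow, D.hs]
    simp only [map_add, map_mul, map_ofNat, hgr]
  have ht : g (g (g (g t))) = t := by
    refine key t ?_
    rw [← map_pow, ← map_pow, D.ht]
    simp only [map_sub, map_mul, map_ofNat, hgr]
  have h : ((g ^ 4 : K ≃ₐ[ℚ] K) : K →ₐ[ℚ] K) = AlgHom.id ℚ K := by
    refine AlgHom.ext_of_adjoin_eq_top D.gen fun x hx => ?_
    show g (g (g (g x))) = x
    rcases hx with rfl | hx
    · exact hs
    · rw [Set.mem_singleton_iff] at hx
      rw [hx]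
      exact ht
  ext x
  exact congrArg (fun f : K →ₐ[ℚ] K => f x) h

theorem X4_D.card (D : X4_D K r s t) : ∃ k : ℕ, Module.finrank ℚ K = 2 ^ k := by
  have hG := D.galois
  have h1 : IsPGroup 2 (K ≃ₐ[ℚ] K) := fun g => ⟨2, X4_pow D g⟩
  obtain ⟨k, hk⟩ := IsPGroup.iff_card.1 h1
  exact ⟨k, by rw [← IsGalois.card_aut_eq_finrank ℚ K, hk]⟩

/-- a natural number between two consecutive squares is not a rational square -/
lemma X4_nonsq (n a : ℕ) (h1 : a * a < n) (h2 : n < (a + 1) * (a + 1)) (c : ℚ)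
    (h : c ^ 2 = (n : ℚ)) : False := by
  have h3 : IsSquare ((n : ℚ)) := ⟨c, by rw [← h, sq]⟩
  rw [Rat.isSquare_natCast_iff] at h3
  obtain ⟨b, hb⟩ := h3
  rw [hb] at h1 h2
  have h4 : a < b := by
    by_contra h
    push Not at h
    exact absurd (Nat.mul_le_mul h h) (by omega)
  have h5 : b < a + 1 := by
    by_contra h
    push Not at h
    exact absurd (Nat.mul_le_mul h h) (by omega)
  omega

lemma X4_fixed (hG : IsGalois ℚ K) (x : K)
    (h : ∀ g : K ≃ₐ[ℚ] K, g x = x) : ∃ c : ℚ, algebraMap ℚ K c = x := by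
  have h1 := (IsGalois.mem_bot_iff_fixed (F := ℚ) x).2 h
  exact IntermediateField.mem_bot.1 h1

theorem X4_D.noncomm (D : X4_D K r s t) : ∃ g h : K ≃ₐ[ℚ] K, g * h ≠ h * g := by
  by_contra hcon
  push Not at hcon
  have hcomm : ∀ (g h : K ≃ₐ[ℚ] K) (x : K), g (h x) = h (g x) := by
    intro g h x
    have := congrArg (fun k : K ≃ₐ[ℚ] K => k x) (hcon g h)
    exact this
  have hG := D.galois
  have hr := D.hr
  have hs := D.hs
  have ht := D.ht
  have hst2 : (s * t) ^ 2 = 61 := by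
    rw [mul_pow, hs, ht]
    linear_combination (-36) * hr
  have hinj : Function.Injective (algebraMap ℚ K) := (algebraMap ℚ K).injective
  have nr : ∀ c : ℚ, algebraMap ℚ K c ≠ r := by
    intro c hc
    refine X4_nonsq 13 3 (by norm_num) (by norm_num) c (hinj ?_)
    rw [map_pow, hc, hr, map_natCast]
    norm_num
  have nst : ∀ c : ℚ, algebraMap ℚ K c ≠ s * t := by
    intro c hc
    refine X4_nonsq 61 7 (by norm_num) (by norm_num) c (hinj ?_)
    rw [map_pow, hc, hst2, map_natCast]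
    norm_num
  have nrst : ∀ c : ℚ, algebraMap ℚ K c ≠ r * (s * t) := by
    intro c hc
    refine X4_nonsq 793 28 (by norm_num) (by norm_num) c (hinj ?_)
    rw [map_pow, hc, mul_pow, hr, hst2, map_natCast]
    norm_num
  have gr : ∀ g : K ≃ₐ[ℚ] K, g r = r ∨ g r = -r := by
    intro g
    have h1 : (g r) ^ 2 = r ^ 2 := by
      rw [← map_pow, hr, map_ofNat]
    exact sq_eq_sq_iff_eq_or_eq_neg.mp h1
  obtain ⟨h, hh⟩ : ∃ h : K ≃ₐ[ℚ] K, h r = -r := by
    by_contra hno
    push Not at hno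
    obtain ⟨c, hc⟩ := X4_fixed hG r fun g => (gr g).resolve_right (hno g)
    exact nr c hc
  have hhs : h s = t ∨ h s = -t := by
    have h1 : (h s) ^ 2 = t ^ 2 := by
      rw [← map_pow, hs, ht, map_add, map_mul, map_ofNat, map_ofNat, hh]
      ring
    exact sq_eq_sq_iff_eq_or_eq_neg.mp h1
  have hht : h t = s ∨ h t = -s := by
    have h1 : (h t) ^ 2 = s ^ 2 := by
      rw [← map_pow, hs, ht, map_sub, map_mul, map_ofNat, map_ofNat, hh]
      ring
    exact sq_eq_sq_iff_eq_or_eq_neg.mp h1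
  have key : ∀ g : K ≃ₐ[ℚ] K, g r = r → g (s * t) = s * t := by
    intro g hg
    have hgs : g s = s ∨ g s = -s := by
      have h1 : (g s) ^ 2 = s ^ 2 := by
        rw [← map_pow, hs, map_add, map_mul, map_ofNat, map_ofNat, hg]
      exact sq_eq_sq_iff_eq_or_eq_neg.mp h1
    have hc := hcomm g h s
    rcases hgs with h1 | h1
    · rw [h1] at hc
      have hgt : g t = t := by
        rcases hhs with h2 | h2
        · rw [h2] at hc; exact hc
        · rw [h2, map_neg] at hc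
          exact neg_injective hc
      rw [map_mul, h1, hgt]
    · rw [h1, map_neg] at hc
      have hgt : g t = -t := by
        rcases hhs with h2 | h2
        · rw [h2] at hc; exact hc
        · rw [h2, map_neg] at hc
          exact neg_injective hc
      rw [map_mul, h1, hgt, neg_mul_neg]
  have hhst : h (s * t) = s * t ∨ h (s * t) = -(s * t) := by
    rw [map_mul]
    rcases hhs with h1 | h1 <;> rcases hht with h2 | h2 <;> rw [h1, h2]
    · left; ring
    · right; ring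
    · right; ring
    · left; ring
  have hhhst : h (h (s * t)) = s * t := by
    rcases hhst with h1 | h1
    · rw [h1, h1]
    · rw [h1, map_neg, h1, neg_neg]
  have key2 : ∀ g : K ≃ₐ[ℚ] K, g r = -r → g (s * t) = h (s * t) := by
    intro g hg
    have h1 : (h * g : K ≃ₐ[ℚ] K) r = r := by
      show h (g r) = r
      rw [hg, map_neg, hh, neg_neg]
    have h2 : h (g (s * t)) = s * t := key _ h1
    apply h.injective
    rw [h2, hhhst]
  rcases hhst with h1 | h1
  · obtain ⟨c, hc⟩ := X4_fixed hG (s * t) fun g => by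
      rcases gr g with h2 | h2
      · exact key g h2
      · rw [key2 g h2, h1]
    exact nst c hc
  · obtain ⟨c, hc⟩ := X4_fixed hG (r * (s * t)) fun g => by
      rw [map_mul]
      rcases gr g with h2 | h2
      · rw [key g h2, h2]
      · rw [key2 g h2, h1, h2, neg_mul_neg]
    exact nrst c hc

omit [NumberField K] in
open Polynomial in
theorem X4_int (x : K) (h : x ^ 4 - 2 * x ^ 3 - 10 * x ^ 2 + 11 * x + 1 = 0) :
    IsIntegral ℤ x := by
  refine ⟨X ^ 4 - 2 * X ^ 3 - 10 * X ^ 2 + 11 * X + 1, by monicity!, ?_⟩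
  simp only [eval₂_add, eval₂_sub, eval₂_mul, eval₂_pow, eval₂_X, eval₂_ofNat, eval₂_one]
  exact h

omit [NumberField K] in
open Polynomial in
theorem X4_int' (x : K) (h : x ^ 2 - x - 3 = 0) : IsIntegral ℤ x := by
  refine ⟨X ^ 2 - X - 3, by monicity!, ?_⟩
  simp only [eval₂_sub, eval₂_pow, eval₂_X, eval₂_ofNat]
  exact h

/-- an element of the inertia group fixes y = 2u - 1 if y is not in w -/
theorem X4_fix (w : HeightOneSpectrum (𝓞 K))
    (y : K) (u : 𝓞 K) (hu : (u : K) = (1 + y) / 2) (hw : 2 * u - 1 ∉ w.asIdeal) (g : K ≃ₐ[ℚ] K)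
    (hg : g ∈ w.asIdeal.inertia (K ≃ₐ[ℚ] K)) (hy : (g y) ^ 2 = y ^ 2) : g y = y := by
  rcases sq_eq_sq_iff_eq_or_eq_neg.mp hy with h | h
  · exact h
  · exfalso
    apply hw
    have h1 : g • u - u ∈ w.asIdeal := hg u
    have h2 : g • u - u = -(2 * u - 1) := by
      apply RingOfIntegers.ext
      show g (u : K) - (u : K) = -(2 * (u : K) - 1)
      rw [hu, map_div₀, map_add, map_one, h, map_ofNat]
      ring
    rw [h2, Ideal.neg_mem_iff] at h1
    exact h1

theorem X4_D.unr (D : X4_D K r s t)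
    (w : HeightOneSpectrum (𝓞 K)) (h7 : (13 : 𝓞 K) ∉ w.asIdeal) (h37 : (61 : 𝓞 K) ∉ w.asIdeal) :
    w.asIdeal.ramificationIdx ℤ = 1 := by
  have hgal : IsGalois ℚ K := D.galois
  have hwm := w.isMaximal
  have hwp := w.isPrime
  let v : HeightOneSpectrum ℤ :=
    ⟨w.asIdeal.under ℤ, w.isPrime.under ℤ, Ideal.IsIntegral.comap_ne_bot _ w.ne_bot⟩
  have hvm := v.isMaximal
  have hl : w.asIdeal.LiesOver v.asIdeal := ⟨rfl⟩
  have e1 : r ^ 2 = 13 := D.hr
  have e2 : s ^ 2 = 23 + 6 * r := D.hs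
  have e3 : t ^ 2 = 23 - 6 * r := D.ht
  obtain ⟨ϑ, hϑ⟩ : ∃ ϑ : 𝓞 K, (ϑ : K) = (1 + r) / 2 := by
    refine ⟨⟨(1 + r) / 2, ?_⟩, rfl⟩
    apply X4_int'
    linear_combination (1 / 4) * e1
  obtain ⟨u, hu⟩ : ∃ u : 𝓞 K, (u : K) = (1 + s) / 2 := by
    refine ⟨⟨(1 + s) / 2, ?_⟩, rfl⟩
    apply X4_int
    linear_combination ((s ^ 2 - 23 + 6 * r) / 16) * e2 + (9 / 4) * e1
  obtain ⟨u', hu'⟩ : ∃ u' : 𝓞 K, (u' : K) = (1 + t) / 2 := by
    refine ⟨⟨(1 + t) / 2, ?_⟩, rfl⟩
    apply X4_int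
    linear_combination ((t ^ 2 - 23 - 6 * r) / 16) * e3 + (9 / 4) * e1
  have hϑw : 2 * ϑ - 1 ∉ w.asIdeal := by
    intro h
    apply h7
    have h1 : (13 : 𝓞 K) = (2 * ϑ - 1) * (2 * ϑ - 1) := by
      apply RingOfIntegers.ext
      show (13 : K) = (2 * (ϑ : K) - 1) * (2 * (ϑ : K) - 1)
      rw [hϑ]
      linear_combination -e1
    rw [h1]
    exact Ideal.mul_mem_right _ _ h
  have h37' : (61 : 𝓞 K) = (2 * u - 1) * (2 * u - 1) * ((2 * u' - 1) * (2 * u' - 1)) := by
    apply RingOfIntegers.ext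
    show (61 : K) = (2 * (u : K) - 1) * (2 * (u : K) - 1) * ((2 * (u' : K) - 1) * (2 * (u' : K) - 1))
    rw [hu, hu']
    linear_combination -(t ^ 2) * e2 - (23 + 6 * r) * e3 + 36 * e1
  have huw : 2 * u - 1 ∉ w.asIdeal := by
    intro h
    apply h37
    rw [h37']
    exact Ideal.mul_mem_right _ _ (Ideal.mul_mem_right _ _ h)
  have hu'w : 2 * u' - 1 ∉ w.asIdeal := by
    intro h
    apply h37
    rw [h37']
    exact Ideal.mul_mem_left _ _ (Ideal.mul_mem_right _ _ h)
  have hI : w.asIdeal.inertia (K ≃ₐ[ℚ] K) = ⊥ := by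
    rw [eq_bot_iff]
    intro g hg
    rw [Subgroup.mem_bot]
    have hgr : g r = r := by
      apply X4_fix w r ϑ hϑ hϑw g hg
      rw [← map_pow, e1, map_ofNat]
    have hgs : g s = s := by
      apply X4_fix w s u hu huw g hg
      rw [← map_pow, e2, map_add, map_mul, map_ofNat, map_ofNat, hgr]
    have hgt : g t = t := by
      apply X4_fix w t u' hu' hu'w g hg
      rw [← map_pow, e3, map_sub, map_mul, map_ofNat, map_ofNat, hgr]
    have h1 : (g : K →ₐ[ℚ] K) = AlgHom.id ℚ K := by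
      apply AlgHom.ext_of_adjoin_eq_top D.gen
      intro x hx
      rcases hx with rfl | hx
      · exact hgs
      · rw [Set.mem_singleton_iff] at hx
        rw [hx]
        exact hgt
    ext x
    exact DFunLike.congr_fun h1 x
  have h1 := Ideal.card_inertia_eq_ramificationIdxIn (G := K ≃ₐ[ℚ] K) v.asIdeal w.asIdeal
  rw [hI, Ideal.ramificationIdxIn_eq_ramificationIdx v.asIdeal w.asIdeal (K ≃ₐ[ℚ] K)] at h1
  rw [← h1]
  simp

theorem X4_not_mem (w : HeightOneSpectrum (𝓞 K)) (l p : ℕ) (hl : l.Prime) (hp : p.Prime)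
    (hlp : l ≠ p) (hlw : (l : 𝓞 K) ∈ w.asIdeal) : (p : 𝓞 K) ∉ w.asIdeal := by
  intro hpw
  apply w.isPrime.ne_top
  rw [Ideal.eq_top_iff_one]
  have h1 : IsCoprime (l : ℤ) (p : ℤ) :=
    Nat.isCoprime_iff_coprime.2 ((Nat.coprime_primes hl hp).2 hlp)
  obtain ⟨a, b, hab⟩ := h1
  have h2 : (a : 𝓞 K) * (l : 𝓞 K) + (b : 𝓞 K) * (p : 𝓞 K) = 1 := by exact_mod_cast hab
  rw [← h2]
  exact Ideal.add_mem _ (Ideal.mul_mem_left _ _ hlw) (Ideal.mul_mem_left _ _ hpw)

theorem X4_D.unrQ (D : X4_D K r s t) : UnrQ K := by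
  intro w l hl hlw hbad
  have h13 : l ≠ 13 := by
    rintro rfl
    apply hbad
    decide
  have h61 : l ≠ 61 := by
    rintro rfl
    apply hbad
    decide
  apply D.unr w
  · have := X4_not_mem w l 13 hl (by norm_num) h13 hlw
    exact_mod_cast this
  · have := X4_not_mem w l 61 hl (by norm_num) h61 hlw
    exact_mod_cast this

lemma X4_im (z : ℂ) (x : ℝ) (hx : 0 < x) (h : z ^ 2 = (x : ℂ)) : z.im = 0 := by
  have h1 := congrArg Complex.re h
  have h2 := congrArg Complex.im h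
  rw [sq, Complex.mul_re, Complex.ofReal_re] at h1
  rw [sq, Complex.mul_im, Complex.ofReal_im] at h2
  by_contra h3
  have h4 : z.re = 0 := by
    have h5 : z.re * z.im = 0 := by linarith
    exact (mul_eq_zero.1 h5).resolve_right h3
  rw [h4] at h1
  nlinarith [sq_nonneg z.im]

theorem X4_D.real (D : X4_D K r s t) : InfinitePlace.nrComplexPlaces K = 0 := by
  have key : ∀ φ : K →+* ℂ, ComplexEmbedding.IsReal φ := by
    intro φ
    have e1 : (φ r) ^ 2 = ((13 : ℝ) : ℂ) := by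
      rw [← map_pow, D.hr, map_ofNat]
      norm_num
    have h1 : (φ r).im = 0 := X4_im _ 13 (by norm_num) e1
    set ρ : ℝ := (φ r).re with hρ
    have h2 : φ r = (ρ : ℂ) := by
      apply Complex.ext
      · rfl
      · rw [h1, Complex.ofReal_im]
    have h3 : ρ ^ 2 = 13 := by
      rw [h2] at e1
      exact_mod_cast e1
    have h4 : 0 < 23 + 6 * ρ := by nlinarith [sq_nonneg (ρ + 3)]
    have h5 : 0 < 23 - 6 * ρ := by nlinarith [sq_nonneg (ρ - 3)]
    have h6 : (φ s).im = 0 := by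
      apply X4_im _ (23 + 6 * ρ) h4
      rw [← map_pow, D.hs, map_add, map_mul, map_ofNat, map_ofNat, h2]
      push_cast
      ring
    have h7 : (φ t).im = 0 := by
      apply X4_im _ (23 - 6 * ρ) h5
      rw [← map_pow, D.ht, map_sub, map_mul, map_ofNat, map_ofNat, h2]
      push_cast
      ring
    have h8 : (ComplexEmbedding.conjugate φ).toRatAlgHom = φ.toRatAlgHom := by
      apply AlgHom.ext_of_adjoin_eq_top D.gen
      intro x hx
      rcases hx with rfl | hx
      · show (starRingEnd ℂ) (φ x) = φ x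
        exact Complex.conj_eq_iff_im.2 h6
      · rw [Set.mem_singleton_iff] at hx
        rw [hx]
        show (starRingEnd ℂ) (φ t) = φ t
        exact Complex.conj_eq_iff_im.2 h7
    show ComplexEmbedding.conjugate φ = φ
    ext x
    exact DFunLike.congr_fun h8 x
  rw [nrComplexPlaces_eq_zero_iff]
  exact ⟨fun w => InfinitePlace.isReal_iff.2 (key _)⟩

theorem exists_real_nonabelian : ∃ (K₀ : Type) (_ : Field K₀) (_ : NumberField K₀),
    IsGalois ℚ K₀ ∧ (∃ k : ℕ, Module.finrank ℚ K₀ = 2 ^ k) ∧ UnrQ K₀ ∧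
      (∃ g h : K₀ ≃ₐ[ℚ] K₀, g * h ≠ h * g) ∧ InfinitePlace.nrComplexPlaces K₀ = 0 := by
  obtain ⟨K, _, _, r, s, t, D⟩ := X4_exists
  exact ⟨K, inferInstance, inferInstance, D.galois, D.card, D.unrQ, D.noncomm, D.real⟩

end H55D
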