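import Pool.Agent.Lib.H55D.Defs

set_option autoImplicit false

/-!
# Insertion of the sources

Every source `s ∈ S` has the two neighbours `x s`, `y s`, joined in `H`, `x s` is left of `y s`, and
they are joined in `G` or `x s` is the leftmost neighbour of `y s`.  The source is put immediately
to the right of `y s`; several sources at the same `y` in the order of decreasing `x`.
-/

namespace Pool.Agent.Lib.H55D

variable {V : Type}

/-- The new order. -/
theorem Ins_pos [Finite V] (p : V → ℕ) (hp : Function.Injective p) (S : Set V) (x y : V → V) :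
    ∃ q : V → ℕ, Function.Injective q ∧
      (∀ u v, u ∉ S → v ∉ S → q u < q v → p u < p v) ∧
      (∀ u s, u ∉ S → s ∈ S → q u < q s → p u ≤ p (y s)) ∧
      (∀ u s, u ∉ S → s ∈ S → q s < q u → p (y s) < p u) ∧
      (∀ u s, u ∉ S → s ∈ S → p u ≤ p (y s) → q u < q s) ∧
      (∀ s t, s ∈ S → t ∈ S → q s < q t →
        p (y s) < p (y t) ∨ p (y s) = p (y t) ∧ p (x t) ≤ p (x s)) := by
  classical
  obtain ⟨N, hN⟩ : ∃ N, ∀ v, p v < N := by
    obtain ⟨N, hN⟩ := (Set.finite_range p).bddAbove
    exact ⟨N + 1, fun v => Nat.lt_succ_of_le (hN ⟨v, rfl⟩)⟩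
  set K : ℕ := N * N + 2 with hK
  -- the offset of a source
  set o : V → ℕ := fun s => 1 + ((N - 1 - p (x s)) * N + p s) with ho
  have hoK : ∀ s, o s < K := by
    intro s
    have h1 := hN s
    have h2 : (N - 1 - p (x s)) * N ≤ (N - 1) * N := Nat.mul_le_mul_right _ (Nat.sub_le _ _)
    have h3 : (N - 1) * N + N = N * N := by
      obtain ⟨m, rfl⟩ : ∃ m, N = m + 1 := ⟨N - 1, by omega⟩
      simp only [Nat.add_sub_cancel]
      ring
    simp only [ho, hK]
    omega
  have ho1 : ∀ s, 1 ≤ o s := fun s => by simp only [ho]; omega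
  have key : ∀ a b i j : ℕ, i < K → j < K → a * K + i < b * K + j → a < b ∨ a = b ∧ i < j := by
    intro a b i j hi hj h
    rcases lt_trichotomy a b with h1 | h1 | h1
    · exact Or.inl h1
    · refine Or.inr ⟨h1, ?_⟩
      subst h1
      omega
    · exfalso
      have h2 : (b + 1) * K ≤ a * K := Nat.mul_le_mul_right _ h1
      have h3 : (b + 1) * K = b * K + K := by ring
      omega
  have key2 : ∀ a b i j : ℕ, i < K → (a < b ∨ a = b ∧ i < j) → a * K + i < b * K + j := by
    intro a b i j hi h
    rcases h with h1 | ⟨h1, h2⟩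
    · have h2 : (a + 1) * K ≤ b * K := Nat.mul_le_mul_right _ h1
      have h3 : (a + 1) * K = a * K + K := by ring
      omega
    · subst h1
      omega
  refine ⟨fun v => if v ∈ S then p (y v) * K + o v else p v * K + 0, ?_, ?_, ?_, ?_, ?_, ?_⟩
  · intro u v huv
    have hK0 : 0 < K := by omega
    have hinj : ∀ a b i j : ℕ, i < K → j < K → a * K + i = b * K + j → a = b ∧ i = j := by
      intro a b i j hi hj h
      have h1 : (a * K + i) % K = (b * K + j) % K := by rw [h]
      have h2 : (a * K + i) / K = (b * K + j) / K := by rw [h]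
      rw [Nat.mul_comm a, Nat.mul_comm b] at h1 h2
      rw [Nat.mul_add_mod, Nat.mul_add_mod, Nat.mod_eq_of_lt hi, Nat.mod_eq_of_lt hj] at h1
      rw [Nat.mul_add_div hK0, Nat.mul_add_div hK0, Nat.div_eq_of_lt hi, Nat.div_eq_of_lt hj] at h2
      exact ⟨by omega, h1⟩
    by_cases hu : u ∈ S <;> by_cases hv : v ∈ S
    · simp only [if_pos hu, if_pos hv] at huv
      obtain ⟨-, h2⟩ := hinj _ _ _ _ (hoK u) (hoK v) huv
      have h3 : (N - 1 - p (x u)) * N + p u = (N - 1 - p (x v)) * N + p v := by
        simp only [ho] at h2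
        omega
      have h4 : ((N - 1 - p (x u)) * N + p u) % N = ((N - 1 - p (x v)) * N + p v) % N := by
        rw [h3]
      rw [Nat.mul_comm _ N, Nat.mul_comm _ N, Nat.mul_add_mod, Nat.mul_add_mod,
        Nat.mod_eq_of_lt (hN u), Nat.mod_eq_of_lt (hN v)] at h4
      exact hp h4
    · simp only [if_pos hu, if_neg hv] at huv
      obtain ⟨-, h2⟩ := hinj _ _ _ _ (hoK u) hK0 huv
      have := ho1 u
      omega
    · simp only [if_neg hu, if_pos hv] at huv
      obtain ⟨-, h2⟩ := hinj _ _ _ _ hK0 (hoK v) huv
      have := ho1 v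
      omega
    · simp only [if_neg hu, if_neg hv] at huv
      obtain ⟨h1, -⟩ := hinj _ _ _ _ hK0 hK0 huv
      exact hp h1
  · intro u v hu hv h
    simp only [if_neg hu, if_neg hv] at h
    rcases key _ _ _ _ (by omega) (by omega) h with h1 | ⟨h1, h2⟩
    · exact h1
    · omega
  · intro u s hu hs h
    simp only [if_neg hu, if_pos hs] at h
    rcases key _ _ _ _ (by omega) (hoK s) h with h1 | ⟨h1, h2⟩
    · exact h1.le
    · exact h1.le
  · intro u s hu hs h
    simp only [if_neg hu, if_pos hs] at h
    rcases key _ _ _ _ (hoK s) (by omega) h with h1 | ⟨h1, h2⟩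
    · exact h1
    · omega
  · intro u s hu hs h
    simp only [if_neg hu, if_pos hs]
    refine key2 _ _ _ _ (by omega) ?_
    rcases Nat.lt_or_eq_of_le h with h1 | h1
    · exact Or.inl h1
    · exact Or.inr ⟨h1, ho1 s⟩
  · intro s t hs ht h
    simp only [if_pos hs, if_pos ht] at h
    rcases key _ _ _ _ (hoK s) (hoK t) h with h1 | ⟨h1, h2⟩
    · exact Or.inl h1
    · refine Or.inr ⟨h1, ?_⟩
      by_contra hc
      push Not at hc
      have h3 := hN (x t)
      have h4 := hN s
      have h5 := hN t
      have h6 : N - 1 - p (x t) + 1 ≤ N - 1 - p (x s) := by omega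
      have h7 : (N - 1 - p (x t) + 1) * N ≤ (N - 1 - p (x s)) * N := Nat.mul_le_mul_right _ h6
      have h8 : (N - 1 - p (x t) + 1) * N = (N - 1 - p (x t)) * N + N := by ring
      simp only [ho] at h2
      omega

/-- Insertion of the sources into a strict order. -/
theorem insert_wbs [Finite V] (G : SimpleGraph V) (H : V → V → Prop) (c : V → Bool) (p : V → ℕ)
    (hp : Strict H c p) (hc : ∀ u v, H u v → c u ≠ c v) (S : Set V) (x y : V → V)
    (hx : ∀ s ∈ S, x s ∉ S) (hy : ∀ s ∈ S, y s ∉ S)
    (h1 : ∀ u v, u ∉ S → v ∉ S → G.Adj u v → H u v)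
    (h2 : ∀ s ∈ S, ∀ v, G.Adj s v → v = x s ∨ v = y s)
    (h3 : ∀ s ∈ S, H (x s) (y s)) (h4 : ∀ s ∈ S, p (x s) < p (y s))
    (h5 : ∀ s ∈ S, G.Adj (x s) (y s) ∨ ∀ z, H z (y s) → p (x s) ≤ p z) :
    ∃ (col : V → Option Bool) (q : V → ℕ), WBS G col q := by
  classical
  obtain ⟨q, q0, q1, q2, q3, q4, q5⟩ := Ins_pos p hp.1 S x y
  set col : V → Option Bool := fun v => if v ∈ S then none else some (c v) with hcol
  have colS : ∀ v, v ∈ S → col v = none := fun v hv => by simp only [hcol, if_pos hv]
  have colN : ∀ v, v ∉ S → col v = some (c v) := fun v hv => by simp only [hcol, if_neg hv]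
  have hlater : ∀ s ∈ S, ∀ v, G.Adj s v → v ∉ S ∧ q v < q s := by
    intro s hs v hv
    rcases h2 s hs v hv with rfl | rfl
    · exact ⟨hx s hs, q4 _ _ (hx s hs) hs (h4 s hs).le⟩
    · exact ⟨hy s hs, q4 _ _ (hy s hs) hs le_rfl⟩
  refine ⟨col, q, q0, ?_, ?_, ?_⟩
  · intro u v huv
    by_cases hu : u ∈ S
    · rw [colS u hu, colN v (hlater u hu v huv).1]
      exact fun h => nomatch h
    · by_cases hv : v ∈ S
      · rw [colN u hu, colS v hv]
        exact fun h => nomatch h
      · rw [colN u hu, colN v hv]
        exact fun h => hc u v (h1 u v hu hv huv) (Option.some.inj h)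
  · intro s v hs hv
    by_cases hS : s ∈ S
    · exact (hlater s hS v hv).2
    · rw [colN s hS] at hs
      exact nomatch hs
  · intro z u v w hzu huv hvw hun hcz _ _ hzv huw
    have hu : u ∉ S := fun h => hun (colS u h)
    have hz : z ∉ S := by
      intro h
      rw [colS z h] at hcz
      exact hun hcz.symm
    have hcc : c z = c u := by
      rw [colN z hz, colN u hu] at hcz
      exact Option.some.inj hcz
    have hpzu := q1 z u hz hu hzu
    by_cases hv : v ∈ S
    · exfalso
      rcases h2 v hv z hzv.symm with hzx | hzy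
      · have hpu := q2 u v hu hv huv
        have hux : p (x v) < p u := hzx ▸ hpzu
        have huy : u ≠ y v := by
          intro h
          apply hc (x v) (y v) (h3 v hv)
          rw [← hzx, ← h]
          exact hcc
        have hpu2 : p u < p (y v) := lt_of_le_of_ne hpu fun h => huy (hp.1 h)
        by_cases hw : w ∈ S
        · rcases h2 w hw u huw.symm with hux' | huy'
          · rcases q5 v w hv hw hvw with h6 | ⟨h6, h7⟩
            · have h8 : H (x w) (y w) := h3 w hw
              rw [← hux'] at h8
              have h9 := h3 v hv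
              rw [← hzx] at h9
              exact hp.2 z u (y v) (y w) hpzu hpu2 h6 hcc h9 h8
            · rw [← hux'] at h7
              omega
          · have h6 : p (y v) ≤ p (y w) := by
              rcases q5 v w hv hw hvw with h6 | ⟨h6, -⟩
              · exact h6.le
              · exact h6.le
            rw [← huy'] at h6
            omega
        · have hpw := q3 w v hw hv hvw
          have h9 := h3 v hv
          rw [← hzx] at h9
          exact hp.2 z u (y v) w hpzu hpu2 hpw hcc h9 (h1 u w hu hw huw)
      · have hpu := q2 u v hu hv huv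
        rw [← hzy] at hpu
        omega
    · have hpuv := q1 u v hu hv huv
      by_cases hw : w ∈ S
      · have hpv := q2 v w hv hw hvw
        rcases h2 w hw u huw.symm with hux | huy
        · by_cases hvy : v = y w
          · rcases h5 w hw with h6 | h6
            · rw [hux, hvy]
              exact h6
            · exfalso
              have h7 := h6 z (hvy ▸ h1 z v hz hv hzv)
              rw [← hux] at h7
              omega
          · exfalso
            have hpv2 : p v < p (y w) := lt_of_le_of_ne hpv fun h => hvy (hp.1 h)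
            have h8 : H (x w) (y w) := h3 w hw
            rw [← hux] at h8
            exact hp.2 z u v (y w) hpzu hpuv hpv2 hcc (h1 z v hz hv hzv) h8
        · exfalso
          rw [← huy] at hpv
          omega
      · exfalso
        exact hp.2 z u v w hpzu hpuv (q1 v w hv hw hvw) hcc (h1 z v hz hv hzv)
          (h1 u w hu hw huw)

end Pool.Agent.Lib.H55D
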