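import Pool.Agent.Lib.H71S.Contr

set_option autoImplicit false

/-!
# Contraction of the sources in a labelled map, and deletion of parallel edges
-/

namespace Pool.Agent.Lib.H55D

open Equiv Equiv.Perm H71S
open Pool.Agent.Lib.CookLevin (dartSymm RotationSystem IsPlanar)

variable {V : Type}

/-- The contracted darts: between `s ∈ S` and `f s`. -/
def Con {G : SimpleGraph V} (S : Finset V) (f : V → V) (d : G.Dart) : Prop :=
  (d.fst ∈ S ∧ d.snd = f d.fst) ∨ (d.snd ∈ S ∧ d.fst = f d.snd)

/-- All vertices `s ∈ S` are contracted into `f s ∉ S`. -/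
theorem contract_sources [Finite V] [DecidableEq V] {G : SimpleGraph V} (hG : IsPlanar G)
    (S : Finset V) (f : V → V) (hf : ∀ s ∈ S, G.Adj s (f s)) (hfS : ∀ s ∈ S, f s ∉ S) :
    ∃ φ α : Perm G.Dart, LM φ α (fun d => if d.fst ∈ S then f d.fst else d.fst) ∧
      ∀ d, (Con S f d → α d = d) ∧ (¬ Con S f d → α d = d.symm) := by
  classical
  obtain ⟨R, hR⟩ := hG
  have key : ∀ T : Finset V, T ⊆ S →
      ∃ φ α : Perm G.Dart, LM φ α (fun d => if d.fst ∈ T then f d.fst else d.fst) ∧
        ∀ d, (Con T f d → α d = d) ∧ (¬ Con T f d → α d = d.symm) := by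
    intro T
    induction T using Finset.induction_on with
    | empty =>
      intro _
      refine ⟨R.face, dartSymm G, ?_, fun d => ⟨fun h => ?_, fun _ => rfl⟩⟩
      · have h1 := rot_LM R hR
        simpa using h1
      · exfalso
        rcases h with h | h
        · exact Finset.notMem_empty _ h.1
        · exact Finset.notMem_empty _ h.1
    | @insert s T hsT ih =>
      intro hT
      obtain ⟨φ, α, hlm, hα⟩ := ih fun v hv => hT (Finset.mem_insert_of_mem hv)
      have hsS : s ∈ S := hT (Finset.mem_insert_self s T)
      have hTS : ∀ v ∈ T, v ∈ S := fun v hv => hT (Finset.mem_insert_of_mem hv)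
      have hadj := hf s hsS
      have hfs := hfS s hsS
      set r : G.Dart := ⟨(s, f s), hadj⟩ with hr
      have hfT : f s ∉ T := fun h => hfs (hTS _ h)
      have hncon : ¬ Con T f r := by
        rintro (⟨h1, -⟩ | ⟨h1, -⟩)
        · exact hsT h1
        · exact hfT h1
      have hαr : α r = r.symm := (hα r).2 hncon
      have l1 : (if r.fst ∈ T then f r.fst else r.fst) = s := by
        change (if s ∈ T then f s else s) = s
        rw [if_neg hsT]
      have l2 : (if r.symm.fst ∈ T then f r.symm.fst else r.symm.fst) = f s := by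
        change (if f s ∈ T then f (f s) else f s) = f s
        rw [if_neg hfT]
      obtain ⟨φ2, α2, hlm2, hk⟩ := hlm.contract hαr (by
        rw [l1, l2]
        exact G.ne_of_adj hadj)
      refine ⟨φ2, α2, ?_, ?_⟩
      · have hfun : (fun d : G.Dart => if (if d.fst ∈ T then f d.fst else d.fst) =
            (if r.fst ∈ T then f r.fst else r.fst) then
            (if r.symm.fst ∈ T then f r.symm.fst else r.symm.fst) else
            (if d.fst ∈ T then f d.fst else d.fst)) =
            fun d : G.Dart => if d.fst ∈ insert s T then f d.fst else d.fst := by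
          funext d
          rw [l1, l2]
          by_cases h1 : d.fst ∈ T
          · have h2 : f d.fst ≠ s := by
              intro h
              exact hfS _ (hTS _ h1) (h ▸ hsS)
            rw [if_pos h1, if_neg h2, if_pos (Finset.mem_insert_of_mem h1)]
          · rw [if_neg h1]
            by_cases h3 : d.fst = s
            · rw [if_pos h3, if_pos (Finset.mem_insert.2 (Or.inl h3)), h3]
            · rw [if_neg h3, if_neg]
              intro h4
              rcases Finset.mem_insert.1 h4 with h5 | h5
              · exact h3 h5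
              · exact h1 h5
        rw [← hfun]
        exact hlm2
      · intro d
        have hcon : Con (insert s T) f d ↔ d = r ∨ d = r.symm ∨ Con T f d := by
          constructor
          · rintro (⟨h1, h2⟩ | ⟨h1, h2⟩)
            · rcases Finset.mem_insert.1 h1 with h3 | h3
              · left
                apply SimpleGraph.Dart.ext
                apply Prod.ext
                · exact h3
                · change d.snd = f s
                  rw [h2, h3]
              · right; right; left; exact ⟨h3, h2⟩
            · rcases Finset.mem_insert.1 h1 with h3 | h3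
              · right; left
                apply SimpleGraph.Dart.ext
                apply Prod.ext
                · change d.fst = f s
                  rw [h2, h3]
                · exact h3
              · right; right; right; exact ⟨h3, h2⟩
          · rintro (h1 | h1 | h1)
            · rw [h1]
              exact Or.inl ⟨Finset.mem_insert_self s T, rfl⟩
            · rw [h1]
              exact Or.inr ⟨Finset.mem_insert_self s T, rfl⟩
            · rcases h1 with ⟨h1, h2⟩ | ⟨h1, h2⟩
              · exact Or.inl ⟨Finset.mem_insert_of_mem h1, h2⟩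
              · exact Or.inr ⟨Finset.mem_insert_of_mem h1, h2⟩
        constructor
        · intro h
          rcases hcon.1 h with h1 | h1 | h1
          · rw [h1]; exact hk.a1
          · rw [h1]; exact hk.a2
          · by_cases h2 : d = r
            · rw [h2]; exact hk.a1
            · by_cases h3 : d = r.symm
              · rw [h3]; exact hk.a2
              · rw [hk.a3 d h2 h3]
                exact (hα d).1 h1
        · intro h
          have h2 : d ≠ r := fun h3 => h (hcon.2 (Or.inl h3))
          have h3 : d ≠ r.symm := fun h3 => h (hcon.2 (Or.inr (Or.inl h3)))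
          have h4 : ¬ Con T f d := fun h3 => h (hcon.2 (Or.inr (Or.inr h3)))
          rw [hk.a3 d h2 h3]
          exact (hα d).2 h4
  exact key S (Finset.Subset.refl S)

/-- Parallel edges can be deleted. -/
theorem simple_map {D : Type} [Finite D] {φ α : Perm D} {lam : D → V} (h : LM φ α lam)
    (hloop : ∀ d, α d ≠ d → lam d ≠ lam (α d)) :
    ∃ φ2 α2 : Perm D, LM φ2 α2 lam ∧ (∀ d, α2 d ≠ d → α2 d = α d) ∧
      (∀ u v, (∃ d, α2 d ≠ d ∧ lam d = u ∧ lam (α2 d) = v) ↔
        ∃ d, α d ≠ d ∧ lam d = u ∧ lam (α d) = v) ∧
      ∀ d e, α2 d ≠ d → α2 e ≠ e → lam d = lam e → lam (α2 d) = lam (α2 e) → d = e := by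
  classical
  have key : ∀ (n : ℕ) (φ1 α1 : Perm D), LM φ1 α1 lam → (∀ d, α1 d ≠ d → α1 d = α d) →
      (∀ u v, (∃ d, α1 d ≠ d ∧ lam d = u ∧ lam (α1 d) = v) ↔
        ∃ d, α d ≠ d ∧ lam d = u ∧ lam (α d) = v) → Nat.card {d // α1 d ≠ d} ≤ n →
      ∃ φ2 α2 : Perm D, LM φ2 α2 lam ∧ (∀ d, α2 d ≠ d → α2 d = α d) ∧
      (∀ u v, (∃ d, α2 d ≠ d ∧ lam d = u ∧ lam (α2 d) = v) ↔
        ∃ d, α d ≠ d ∧ lam d = u ∧ lam (α d) = v) ∧
      ∀ d e, α2 d ≠ d → α2 e ≠ e → lam d = lam e → lam (α2 d) = lam (α2 e) → d = e := by
    intro n
    induction n with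
    | zero =>
      intro φ1 α1 h1 h2 h3 hn
      refine ⟨φ1, α1, h1, h2, h3, fun d e hd => ?_⟩
      exfalso
      have : Nonempty {d // α1 d ≠ d} := ⟨⟨d, hd⟩⟩
      have := Nat.card_pos (α := {d // α1 d ≠ d})
      omega
    | succ n ih =>
      intro φ1 α1 h1 h2 h3 hn
      by_cases hs : ∀ d e, α1 d ≠ d → α1 e ≠ e → lam d = lam e → lam (α1 d) = lam (α1 e) → d = e
      · exact ⟨φ1, α1, h1, h2, h3, hs⟩
      push Not at hs
      obtain ⟨d, e, hd, he, hde, hde', hne⟩ := hs
      have heα : α1 e ≠ e := he
      obtain ⟨φ2, α2, hlm, hk⟩ := h1.del (r := e) (r' := α1 e) rfl heα.symm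
      have hlt := live_lt (r := e) (r' := α1 e) rfl heα.symm hk
      have hd2 : d ≠ α1 e := by
        intro hc
        apply hloop e (by rw [← h2 e he]; exact he)
        rw [← hde, hc, h2 e he]
      -- `d` and its partner stay alive
      have hαd : α2 d = α1 d := hk.a3 d hne hd2
      have hinv : α1 (α1 e) = e := h1.inv e
      have hαα : α1 d ≠ e := by
        intro hc
        apply hd2
        rw [← hc, h1.inv]
      have hαα2 : α1 d ≠ α1 e := fun hc => hne (α1.injective hc)
      have hαd' : α2 (α1 d) = d := by
        rw [hk.a3 _ hαα hαα2, h1.inv]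
      refine ih φ2 α2 hlm ?_ ?_ (by omega)
      · intro x hx
        have hx1 : x ≠ e := fun hc => hx (by rw [hc]; exact hk.a1)
        have hx2 : x ≠ α1 e := fun hc => hx (by rw [hc]; exact hk.a2)
        rw [hk.a3 x hx1 hx2] at hx ⊢
        exact h2 x hx
      · intro u v
        rw [← h3 u v]
        constructor
        · rintro ⟨x, hx, hu, hv⟩
          have hx1 : x ≠ e := fun hc => hx (by rw [hc]; exact hk.a1)
          have hx2 : x ≠ α1 e := fun hc => hx (by rw [hc]; exact hk.a2)
          rw [hk.a3 x hx1 hx2] at hx hv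
          exact ⟨x, hx, hu, hv⟩
        · rintro ⟨x, hx, hu, hv⟩
          by_cases hx1 : x = e
          · refine ⟨d, by rw [hαd]; exact hd, ?_, ?_⟩
            · rw [hde, ← hu, hx1]
            · rw [hαd, hde', ← hv, hx1]
          · by_cases hx2 : x = α1 e
            · refine ⟨α1 d, ?_, ?_, ?_⟩
              · rw [hαd']
                exact fun hc => hd hc.symm
              · rw [hde', ← hu, hx2]
              · rw [hαd', hde, ← hv, hx2, hinv]
            · exact ⟨x, by rw [hk.a3 x hx1 hx2]; exact hx, hu, by rw [hk.a3 x hx1 hx2]; exact hv⟩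
  exact key _ φ α h (fun _ _ => rfl) (fun _ _ => Iff.rfl) le_rfl

end Pool.Agent.Lib.H55D
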