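import Pool.Agent.Lib.H55D.Defs

set_option autoImplicit false

/-!
# A minimal set of sources

`S` is a minimal set of special vertices such that `G - S` has a proper colouring `c : V → Bool`.
-/

namespace Pool.Agent.Lib.H55D

variable {V : Type}

/-- The colouring `c` is proper outside of `S`. -/
def PC (G : SimpleGraph V) (S : Set V) (c : V → Bool) : Prop :=
  ∀ u v, u ∉ S → v ∉ S → G.Adj u v → c u ≠ c v

theorem exists_min [Finite V] (G : SimpleGraph V)
    (h : (G.induce {v | ¬ Special G v}).Colorable 2) :
    ∃ (S : Set V) (c : V → Bool), (∀ s ∈ S, Special G s) ∧ PC G S c ∧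
      ∀ s ∈ S, ∀ c' : V → Bool, ¬ PC G (S \ {s}) c' := by
  classical
  have hne : {S : Set V | (∀ s ∈ S, Special G s) ∧ ∃ c, PC G S c}.Nonempty := by
    obtain ⟨C⟩ := h
    refine ⟨{v | Special G v}, fun s hs => hs,
      fun v => if hv : ¬ Special G v then decide (C ⟨v, hv⟩ = 0) else true, ?_⟩
    intro u v hu hv huv
    have hu' : ¬ Special G u := hu
    have hv' : ¬ Special G v := hv
    simp only [dif_pos hu', dif_pos hv']
    have h1 : C ⟨u, hu'⟩ ≠ C ⟨v, hv'⟩ := C.valid huv
    intro h2
    apply h1
    have h3 : (C ⟨u, hu'⟩ = 0) ↔ (C ⟨v, hv'⟩ = 0) := by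
      constructor
      · intro h4
        have : decide (C ⟨v, hv'⟩ = 0) = true := by rw [← h2]; exact decide_eq_true h4
        exact of_decide_eq_true this
      · intro h4
        have : decide (C ⟨u, hu'⟩ = 0) = true := by rw [h2]; exact decide_eq_true h4
        exact of_decide_eq_true this
    generalize C ⟨u, hu'⟩ = i at h3 ⊢
    generalize C ⟨v, hv'⟩ = j at h3 ⊢
    fin_cases i <;> fin_cases j <;> simp at h3 ⊢
  obtain ⟨S, hS⟩ := (Set.toFinite _).exists_minimal hne
  obtain ⟨hS1, c, hc⟩ := hS.prop
  refine ⟨S, c, hS1, hc, fun s hs c' hc' => ?_⟩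
  have h1 : S ≤ S \ {s} := hS.le_of_le
    (⟨fun t ht => hS1 t ht.1, c', hc'⟩ :
      S \ {s} ∈ {S : Set V | (∀ s ∈ S, Special G s) ∧ ∃ c, PC G S c}) Set.sdiff_subset
  exact (h1 hs).2 rfl

section

variable {G : SimpleGraph V} {S : Set V} {c : V → Bool}

/-- The neighbours of a source are no sources and have different colours. -/
theorem Min_nbr (hc : PC G S c) (hmin : ∀ s ∈ S, ∀ c' : V → Bool, ¬ PC G (S \ {s}) c')
    {s a b : V} (hs : s ∈ S) (hab : ∀ w, G.Adj s w ↔ w = a ∨ w = b) :
    a ∉ S ∧ b ∉ S ∧ c a ≠ c b := by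
  classical
  have hsa : s ≠ a := G.ne_of_adj ((hab a).2 (Or.inl rfl))
  have hsb : s ≠ b := G.ne_of_adj ((hab b).2 (Or.inr rfl))
  -- a general recolouring of `s`
  have key : ∀ x : Bool, (∀ w, w ∉ S → G.Adj s w → c w ≠ x) → False := by
    intro x hx
    refine hmin s hs (fun v => if v = s then x else c v) ?_
    intro u v hu hv huv
    by_cases hus : u = s
    · have hvs : v ≠ s := by
        rintro rfl
        exact G.ne_of_adj huv hus
      simp only [if_pos hus, if_neg hvs]
      have hvS : v ∉ S := fun h => hv ⟨h, hvs⟩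
      exact (hx v hvS (hus ▸ huv)).symm
    · have huS : u ∉ S := fun h => hu ⟨h, hus⟩
      by_cases hvs : v = s
      · simp only [if_neg hus, if_pos hvs]
        exact hx u huS (hvs ▸ huv.symm)
      · have hvS : v ∉ S := fun h => hv ⟨h, hvs⟩
        simp only [if_neg hus, if_neg hvs]
        exact hc u v huS hvS huv
  refine ⟨fun ha => ?_, fun hb => ?_, fun hcc => ?_⟩
  · refine key (!c b) fun w hw hsw => ?_
    rcases (hab w).1 hsw with rfl | rfl
    · exact absurd ha hw
    · cases c w <;> simp
  · refine key (!c a) fun w hw hsw => ?_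
    rcases (hab w).1 hsw with rfl | rfl
    · cases c w <;> simp
    · exact absurd hb hw
  · refine key (!c a) fun w hw hsw => ?_
    rcases (hab w).1 hsw with rfl | rfl
    · cases c w <;> simp
    · rw [hcc]
      cases c w <;> simp

/-- The second neighbour `r` of a neighbour `m` of degree two of a source is no source. -/
theorem Min_r (hc : PC G S c) (hmin : ∀ s ∈ S, ∀ c' : V → Bool, ¬ PC G (S \ {s}) c')
    {s m o r : V} (hs : s ∈ S) (hso : ∀ w, G.Adj s w ↔ w = m ∨ w = o) (hmo : m ≠ o)
    (hm : ∀ w, G.Adj m w ↔ w = s ∨ w = r) (hadj : ¬ G.Adj m o) : r ∉ S := by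
  classical
  intro hr
  have hsm : s ≠ m := G.ne_of_adj ((hso m).2 (Or.inl rfl))
  have hsoo : s ≠ o := G.ne_of_adj ((hso o).2 (Or.inr rfl))
  obtain ⟨hmS, hoS, hco⟩ := Min_nbr hc hmin hs hso
  by_cases hrs : r = s
  · -- then `m` has only the neighbour `s`
    subst hrs
    refine hmin r hs (fun v => if v = r then !c o else if v = m then c o else c v) ?_
    have key : ∀ v, v ∉ S \ {r} → G.Adj r v →
        (fun v => if v = r then !c o else if v = m then c o else c v) r ≠
        (fun v => if v = r then !c o else if v = m then c o else c v) v := by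
      intro v hv hrv
      rcases (hso v).1 hrv with rfl | rfl
      · simp [hsm.symm]
      · simp [hsoo.symm, hmo.symm]
    intro u v hu hv huv
    by_cases hus : u = r
    · rw [hus] at huv ⊢
      exact key v hv huv
    · by_cases hvs : v = r
      · rw [hvs] at huv ⊢
        exact (key u hu huv.symm).symm
      · have hum : u ≠ m := by
          rintro rfl
          rcases (hm v).1 huv with h | h
          · exact hvs h
          · exact hvs h
        have hvm : v ≠ m := by
          rintro rfl
          rcases (hm u).1 huv.symm with h | h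
          · exact hus h
          · exact hus h
        simp only [if_neg hus, if_neg hvs, if_neg hum, if_neg hvm]
        exact hc u v (fun h => hu ⟨h, hus⟩) (fun h => hv ⟨h, hvs⟩) huv
  · refine hmin s hs (fun v => if v = s then !c o else if v = m then c o else c v) ?_
    have key : ∀ v, v ∉ S \ {s} → G.Adj s v →
        (fun v => if v = s then !c o else if v = m then c o else c v) s ≠
        (fun v => if v = s then !c o else if v = m then c o else c v) v := by
      intro v hv hrv
      rcases (hso v).1 hrv with rfl | rfl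
      · simp [hsm.symm]
      · simp [hsoo.symm, hmo.symm]
    intro u v hu hv huv
    by_cases hus : u = s
    · rw [hus] at huv ⊢
      exact key v hv huv
    · by_cases hvs : v = s
      · rw [hvs] at huv ⊢
        exact (key u hu huv.symm).symm
      · have hum : u ≠ m := by
          rintro rfl
          rcases (hm v).1 huv with h | h
          · exact hvs h
          · rw [h] at hv
            exact hv ⟨hr, hrs⟩
        have hvm : v ≠ m := by
          rintro rfl
          rcases (hm u).1 huv.symm with h | h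
          · exact hus h
          · rw [h] at hu
            exact hu ⟨hr, hrs⟩
        simp only [if_neg hus, if_neg hvs, if_neg hum, if_neg hvm]
        exact hc u v (fun h => hu ⟨h, hus⟩) (fun h => hv ⟨h, hvs⟩) huv

/-- `r` is not the middle vertex of another source. -/
theorem Min_rm (hc : PC G S c) (hmin : ∀ s ∈ S, ∀ c' : V → Bool, ¬ PC G (S \ {s}) c')
    {s m r t q o : V} (hs : s ∈ S) (ht : t ∈ S)
    (hm : ∀ w, G.Adj m w ↔ w = s ∨ w = q) (hmS : m ∉ S)
    (hto : ∀ w, G.Adj t w ↔ w = q ∨ w = o) (hqo : q ≠ o)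
    (hq : ∀ w, G.Adj q w ↔ w = t ∨ w = r) (hadj : ¬ G.Adj q o) : False := by
  classical
  obtain ⟨hqS, hoS, hco⟩ := Min_nbr hc hmin ht hto
  have htq : t ≠ q := G.ne_of_adj ((hto q).2 (Or.inl rfl))
  have htoo : t ≠ o := G.ne_of_adj ((hto o).2 (Or.inr rfl))
  have hqm : G.Adj q m := ((hm q).2 (Or.inr rfl)).symm
  have hmt : m ≠ t := by
    rintro rfl
    exact hmS ht
  have hmr : m = r := by
    rcases (hq m).1 hqm with h | h
    · exact absurd h hmt
    · exact h
  have hmq : m ≠ q := (G.ne_of_adj hqm).symm
  have hts : t ≠ s := by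
    rintro rfl
    have h1 : G.Adj m t := (hm t).2 (Or.inl rfl)
    rcases (hto m).1 h1.symm with h | h
    · exact hmq h
    · exact hadj (h ▸ hqm)
  have htm : ¬ G.Adj t m := by
    intro h
    rcases (hm t).1 h.symm with h1 | h1
    · exact hts h1
    · exact htq h1
  have hom : o ≠ m := by
    rintro rfl
    exact htm ((hto o).2 (Or.inr rfl))
  set c' : V → Bool := fun v => if v = t then !c o else if v = q then c o else
    if v = m then !c o else c v with hc'
  have e1 : c' t = !c o := by simp [hc']
  have e2 : c' q = c o := by simp [hc', htq.symm]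
  have e3 : c' m = !c o := by simp [hc', hmt, hmq]
  have e4 : ∀ v, v ≠ t → v ≠ q → v ≠ m → c' v = c v := by
    intro v h1 h2 h3
    simp [hc', h1, h2, h3]
  have hne : (!c o) ≠ c o := by cases c o <;> simp
  have kt : ∀ v, G.Adj t v → c' t ≠ c' v := by
    intro v hv
    rcases (hto v).1 hv with rfl | rfl
    · rw [e1, e2]
      exact hne
    · rw [e1, e4 v htoo.symm hqo.symm hom]
      exact hne
  have kq : ∀ v, G.Adj q v → c' q ≠ c' v := by
    intro v hv
    rcases (hq v).1 hv with rfl | h
    · rw [e1, e2]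
      exact hne.symm
    · rw [h, ← hmr, e3, e2]
      exact hne.symm
  have km : ∀ v, v ∉ S \ {t} → G.Adj m v → c' m ≠ c' v := by
    intro v hv hmv
    rcases (hm v).1 hmv with rfl | rfl
    · exact absurd ⟨hs, hts.symm⟩ hv
    · rw [e3, e2]
      exact hne
  refine hmin t ht c' fun u v hu hv huv => ?_
  by_cases h1 : u = t
  · rw [h1] at huv ⊢
    exact kt v huv
  by_cases h2 : v = t
  · rw [h2] at huv ⊢
    exact (kt u huv.symm).symm
  by_cases h3 : u = q
  · rw [h3] at huv ⊢
    exact kq v huv
  by_cases h4 : v = q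
  · rw [h4] at huv ⊢
    exact (kq u huv.symm).symm
  by_cases h5 : u = m
  · rw [h5] at huv ⊢
    exact km v hv huv
  by_cases h6 : v = m
  · rw [h6] at huv ⊢
    exact (km u hu huv.symm).symm
  rw [e4 u h1 h3 h5, e4 v h2 h4 h6]
  exact hc u v (fun h => hu ⟨h, h1⟩) (fun h => hv ⟨h, h2⟩) huv

end

end Pool.Agent.Lib.H55D
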