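import Pool.Agent.Lib.H55D.Defs

set_option autoImplicit false

/-!
# Relocation of vertices of degree two

In a strict order a vertex `m` which has exactly two neighbours `a`, `b` and lies left of both of them
can be moved to the place immediately to the right of the first one.
-/

namespace Pool.Agent.Lib.H55D

variable {V : Type}

theorem Reloc_one (H : V → V → Prop) (hs : ∀ u v, H u v → H v u) (c : V → Bool)
    (hc : ∀ u v, H u v → c u ≠ c v) (p : V → ℕ) (hp : Strict H c p) (m a b : V)
    (hm : ∀ v, H m v ↔ v = a ∨ v = b) (hma : p m < p a) (hab : p a < p b) :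
    ∃ q : V → ℕ, Strict H c q ∧ q a < q m ∧
      ∀ u v, u ≠ m → v ≠ m → (q u < q v ↔ p u < p v) := by
  classical
  have hMa : H m a := (hm a).2 (Or.inl rfl)
  have hMb : H m b := (hm b).2 (Or.inr rfl)
  have ham : a ≠ m := by
    rintro rfl
    exact lt_irrefl _ hma
  have hbm : b ≠ m := by
    rintro rfl
    omega
  set q : V → ℕ := fun v => if v = m then 2 * p a + 1 else 2 * p v with hq
  have qm : q m = 2 * p a + 1 := by simp [hq]
  have qn : ∀ v, v ≠ m → q v = 2 * p v := fun v hv => by simp [hq, hv]
  refine ⟨q, ⟨?_, ?_⟩, ?_, ?_⟩
  · intro u v huv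
    by_cases hu : u = m <;> by_cases hv : v = m
    · rw [hu, hv]
    · rw [hu, qm, qn v hv] at huv
      omega
    · rw [hv, qm, qn u hu] at huv
      omega
    · rw [qn u hu, qn v hv] at huv
      exact hp.1 (by omega)
  · intro z u v w hzu huv hvw hcc hzv huw
    by_cases hz : z = m
    · subst hz
      have hu : u ≠ z := by
        rintro rfl
        exact lt_irrefl _ hzu
      rcases (hm v).1 hzv with rfl | rfl
      · rw [qm, qn u hu] at hzu
        rw [qn u hu, qn v ham] at huv
        omega
      · have hw : w ≠ z := by
          rintro rfl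
          omega
        rw [qm, qn u hu] at hzu
        rw [qn u hu, qn v hbm] at huv
        rw [qn v hbm, qn w hw] at hvw
        exact hp.2 z u v w (by omega) (by omega) (by omega) hcc hzv huw
    · by_cases hu : u = m
      · subst hu
        have hv : v ≠ u := by
          rintro rfl
          exact lt_irrefl _ huv
        rcases (hm w).1 huw with rfl | rfl
        · rw [qm, qn v hv] at huv
          rw [qn v hv, qn w ham] at hvw
          omega
        · rw [qn z hz, qm] at hzu
          rw [qm, qn v hv] at huv
          rw [qn v hv, qn w hbm] at hvw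
          have hza : z ≠ a := by
            rintro rfl
            exact hc u z hMa hcc.symm
          have hza2 : p z < p a := lt_of_le_of_ne (by omega) fun h => hza (hp.1 h)
          rcases lt_or_ge (p u) (p z) with h | h
          · exact hp.2 u z a v h hza2 (by omega) hcc.symm hMa hzv
          · have h' : p z < p u := lt_of_le_of_ne h fun h => hz (hp.1 h)
            exact hp.2 z u v w h' (by omega) (by omega) hcc hzv huw
      · by_cases hv : v = m
        · subst hv
          rcases (hm z).1 (hs _ _ hzv) with rfl | rfl
          · rw [qn z ham, qn u hu] at hzu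
            rw [qn u hu, qm] at huv
            omega
          · rw [qn z hbm, qn u hu] at hzu
            rw [qn u hu, qm] at huv
            omega
        · by_cases hw : w = m
          · subst hw
            rcases (hm u).1 (hs _ _ huw) with rfl | rfl
            · rw [qn u ham, qn v hv] at huv
              rw [qn v hv, qm] at hvw
              omega
            · rw [qn u hbm, qn v hv] at huv
              rw [qn v hv, qm] at hvw
              omega
          · rw [qn z hz, qn u hu] at hzu
            rw [qn u hu, qn v hv] at huv
            rw [qn v hv, qn w hw] at hvw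
            exact hp.2 z u v w (by omega) (by omega) (by omega) hcc hzv huw
  · rw [qm, qn a ham]
    omega
  · intro u v hu hv
    rw [qn u hu, qn v hv]
    omega

/-- All vertices of `M` get a left neighbour. -/
theorem reloc (H : V → V → Prop) (hs : ∀ u v, H u v → H v u) (c : V → Bool)
    (hc : ∀ u v, H u v → c u ≠ c v) (p : V → ℕ) (hp : Strict H c p) (M : Finset V)
    (hM : ∀ m ∈ M, ∃ a b, a ≠ b ∧ a ∉ M ∧ b ∉ M ∧ ∀ v, H m v ↔ v = a ∨ v = b) :
    ∃ q : V → ℕ, Strict H c q ∧ ∀ m ∈ M, ∃ v, H m v ∧ q v < q m := by
  classical
  have key : ∀ T : Finset V, T ⊆ M → ∃ q : V → ℕ, Strict H c q ∧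
      ∀ m ∈ T, ∃ v, H m v ∧ q v < q m := by
    intro T
    induction T using Finset.induction_on with
    | empty => exact fun _ => ⟨p, hp, fun m hm => absurd hm (Finset.notMem_empty m)⟩
    | @insert m T hmT ih =>
      intro hT
      obtain ⟨q, hq, hqT⟩ := ih fun v hv => hT (Finset.mem_insert_of_mem hv)
      have hmM : m ∈ M := hT (Finset.mem_insert_self m T)
      by_cases hleft : ∃ v, H m v ∧ q v < q m
      · refine ⟨q, hq, fun v hv => ?_⟩
        rcases Finset.mem_insert.1 hv with rfl | h
        · exact hleft
        · exact hqT v h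
      push Not at hleft
      obtain ⟨a, b, hab, haM, hbM, hnb⟩ := hM m hmM
      have hna : a ≠ m := by
        rintro rfl
        exact haM hmM
      have hnb' : b ≠ m := by
        rintro rfl
        exact hbM hmM
      have hqa : q m < q a := lt_of_le_of_ne (hleft a ((hnb a).2 (Or.inl rfl)))
        fun h => hna (hq.1 h).symm
      have hqb : q m < q b := lt_of_le_of_ne (hleft b ((hnb b).2 (Or.inr rfl)))
        fun h => hnb' (hq.1 h).symm
      have hkeep : ∀ q' : V → ℕ, (∀ u v, u ≠ m → v ≠ m → (q' u < q' v ↔ q u < q v)) →
          ∀ v ∈ T, ∃ w, H v w ∧ q' w < q' v := by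
        intro q' hq' v hv
        obtain ⟨w, hw1, hw2⟩ := hqT v hv
        have hvm : v ≠ m := by
          rintro rfl
          exact hmT hv
        have hwM : w ∉ M := by
          obtain ⟨a', b', -, ha', hb', h'⟩ := hM v (hT (Finset.mem_insert_of_mem hv))
          rcases (h' w).1 hw1 with rfl | rfl
          · exact ha'
          · exact hb'
        have hwm : w ≠ m := by
          rintro rfl
          exact hwM hmM
        exact ⟨w, hw1, (hq' w v hwm hvm).2 hw2⟩
      rcases lt_trichotomy (q a) (q b) with h | h | h
      · obtain ⟨q', h1, h2, h3⟩ := Reloc_one H hs c hc q hq m a b hnb hqa h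
        refine ⟨q', h1, fun v hv => ?_⟩
        rcases Finset.mem_insert.1 hv with rfl | h
        · exact ⟨a, (hnb a).2 (Or.inl rfl), h2⟩
        · exact hkeep q' h3 v h
      · exact absurd (hq.1 h) hab
      · obtain ⟨q', h1, h2, h3⟩ := Reloc_one H hs c hc q hq m b a
          (fun v => (hnb v).trans or_comm) hqb h
        refine ⟨q', h1, fun v hv => ?_⟩
        rcases Finset.mem_insert.1 hv with rfl | h
        · exact ⟨b, (hnb b).2 (Or.inr rfl), h2⟩
        · exact hkeep q' h3 v h
  exact key M (Finset.Subset.refl M)

end Pool.Agent.Lib.H55D
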