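import Pool.Agent.Lib.H55D.Ins
import Pool.Agent.Lib.H55D.Reloc
import Pool.Agent.Lib.H55D.Min
import Pool.Agent.Lib.H55D.Map

set_option autoImplicit false

/-!
# Part 3: from strict orders of planar bipartite maps to orders with sources
-/

namespace Pool.Agent.Lib.H55D

open Equiv Equiv.Perm H71S
open Pool.Agent.Lib.CookLevin (IsPlanar)

variable {V : Type}

/-- A special vertex `s` with its neighbours `a`, `b`: they are joined, or `a` has degree two, with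
second neighbour `r`. -/
theorem Main_data (G : SimpleGraph V) (s : V) (h : Special G s) :
    ∃ a b r : V, a ≠ b ∧ (∀ w, G.Adj s w ↔ w = a ∨ w = b) ∧
      (¬ G.Adj a b → ∀ w, G.Adj a w ↔ w = s ∨ w = r) := by
  obtain ⟨⟨a, b, hab, hs⟩, h2⟩ := h
  by_cases hadj : G.Adj a b
  · exact ⟨a, b, a, hab, hs, fun h => absurd hadj h⟩
  have hother : ∀ m, G.Adj s m → DegTwo G m → ∃ r, ∀ w, G.Adj m w ↔ w = s ∨ w = r := by
    rintro m hsm ⟨x, y, -, hm⟩
    rcases (hm s).1 hsm.symm with h | h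
    · exact ⟨y, fun w => by rw [hm w, h]⟩
    · exact ⟨x, fun w => by rw [hm w, h]; exact or_comm⟩
  rcases h2 with ⟨x, y, hx, hy, hxy⟩ | ⟨m, hm, hm2⟩
  · exfalso
    rcases (hs x).1 hx with h1 | h1 <;> rcases (hs y).1 hy with h3 | h3
    · rw [h1, h3] at hxy
      exact G.irrefl hxy
    · rw [h1, h3] at hxy
      exact hadj hxy
    · rw [h1, h3] at hxy
      exact hadj hxy.symm
    · rw [h1, h3] at hxy
      exact G.irrefl hxy
  · obtain ⟨r, hr⟩ := hother m hm hm2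
    rcases (hs m).1 hm with h1 | h1
    · exact ⟨a, b, r, hab, hs, fun _ => h1 ▸ hr⟩
    · exact ⟨b, a, r, hab.symm, fun w => (hs w).trans or_comm, fun _ => h1 ▸ hr⟩

/-- The involution which exchanges `s` and `a s` for `s ∈ B`. -/
theorem Main_sigma (B : Set V) (a : V → V) (haB : ∀ s ∈ B, ∀ t ∈ B, a s ≠ t)
    (hinj : ∀ s ∈ B, ∀ t ∈ B, a s = a t → s = t) :
    ∃ σ : Perm V, (∀ v, σ (σ v) = v) ∧ (∀ s ∈ B, σ s = a s) ∧ (∀ s ∈ B, σ (a s) = s) ∧
      ∀ v, v ∉ B → (∀ s ∈ B, v ≠ a s) → σ v = v := by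
  classical
  set g : V → V := fun v => if v ∈ B then a v else if h : ∃ s, s ∈ B ∧ a s = v then h.choose else v
    with hg
  have g1 : ∀ s ∈ B, g s = a s := fun s hs => by simp only [hg, if_pos hs]
  have g2 : ∀ s ∈ B, g (a s) = s := by
    intro s hs
    have h1 : a s ∉ B := fun h => haB s hs _ h rfl
    have h2 : ∃ t, t ∈ B ∧ a t = a s := ⟨s, hs, rfl⟩
    simp only [hg, if_neg h1, dif_pos h2]
    exact hinj _ h2.choose_spec.1 s hs h2.choose_spec.2
  have g3 : ∀ v, v ∉ B → (∀ s ∈ B, v ≠ a s) → g v = v := by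
    intro v hv hv2
    have h2 : ¬ ∃ t, t ∈ B ∧ a t = v := by
      rintro ⟨t, ht, h⟩
      exact hv2 t ht h.symm
    simp only [hg, if_neg hv, dif_neg h2]
  have hinv : Function.Involutive g := by
    intro v
    by_cases h1 : v ∈ B
    · rw [g1 v h1, g2 v h1]
    · by_cases h2 : ∃ t ∈ B, v = a t
      · obtain ⟨t, ht, rfl⟩ := h2
        rw [g2 t ht, g1 t ht]
      · push Not at h2
        rw [g3 v h1 h2, g3 v h1 h2]
  exact ⟨hinv.toPerm g, hinv, g1, g2, g3⟩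

/-- Part 3. -/
theorem exists_wbs [Finite V] (G : SimpleGraph V) (hG : IsPlanar G)
    (hS : (G.induce {v | ¬ Special G v}).Colorable 2)
    (P1 : ∀ (D : Type) [Finite D] (φ α : Perm D) (lam : D → V) (c : V → Bool), LM φ α lam →
      (∀ d, α d ≠ d → c (lam d) ≠ c (lam (α d))) →
      (∀ d e, α d ≠ d → α e ≠ e → lam d = lam e → lam (α d) = lam (α e) → d = e) →
      ∃ p : V → ℕ, Strict (fun u v => ∃ d, α d ≠ d ∧ lam d = u ∧ lam (α d) = v) c p) :
    ∃ (σ : Perm V) (col : V → Option Bool) (q : V → ℕ), WBS (G.comap σ) col q := by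
  classical
  have := Fintype.ofFinite V
  obtain ⟨S, c, hS1, hc, hmin⟩ := exists_min G hS
  have data : ∀ s : V, ∃ a b r : V, s ∈ S → a ≠ b ∧ (∀ w, G.Adj s w ↔ w = a ∨ w = b) ∧
      (¬ G.Adj a b → ∀ w, G.Adj a w ↔ w = s ∨ w = r) := by
    intro s
    by_cases hs : s ∈ S
    · obtain ⟨a, b, r, h⟩ := Main_data G s (hS1 s hs)
      exact ⟨a, b, r, fun _ => h⟩
    · exact ⟨s, s, s, fun h => absurd h hs⟩
  choose a b r hdata using data
  have hab : ∀ s ∈ S, a s ≠ b s := fun s hs => (hdata s hs).1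
  have hnb : ∀ s ∈ S, ∀ w, G.Adj s w ↔ w = a s ∨ w = b s := fun s hs => (hdata s hs).2.1
  have ha : ∀ s ∈ S, G.Adj s (a s) := fun s hs => (hnb s hs _).2 (Or.inl rfl)
  have hb : ∀ s ∈ S, G.Adj s (b s) := fun s hs => (hnb s hs _).2 (Or.inr rfl)
  have haS : ∀ s ∈ S, a s ∉ S := fun s hs => (Min_nbr hc hmin hs (hnb s hs)).1
  have hbS : ∀ s ∈ S, b s ∉ S := fun s hs => (Min_nbr hc hmin hs (hnb s hs)).2.1
  have hcab : ∀ s ∈ S, c (a s) ≠ c (b s) := fun s hs => (Min_nbr hc hmin hs (hnb s hs)).2.2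
  -- virtual sources
  have hma : ∀ s ∈ S, ¬ G.Adj (a s) (b s) → ∀ w, G.Adj (a s) w ↔ w = s ∨ w = r s :=
    fun s hs => (hdata s hs).2.2
  have hrS : ∀ s ∈ S, ¬ G.Adj (a s) (b s) → r s ∉ S := fun s hs hv =>
    Min_r hc hmin hs (hnb s hs) (hab s hs) (hma s hs hv) hv
  have hinj : ∀ s ∈ S, ¬ G.Adj (a s) (b s) → ∀ t ∈ S, G.Adj t (a s) → t = s := by
    intro s hs hv t ht h
    rcases (hma s hs hv t).1 h.symm with h1 | h1
    · exact h1
    · exact absurd (h1 ▸ ht) (hrS s hs hv)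
  have hrm : ∀ s ∈ S, ¬ G.Adj (a s) (b s) → ∀ t ∈ S, ¬ G.Adj (a t) (b t) → r s ≠ a t := by
    intro s hs hv t ht hvt h
    have h1 := hma s hs hv
    rw [h] at h1
    exact Min_rm hc hmin hs ht h1 (haS s hs) (hnb t ht) (hab t ht) (hma t ht hvt) hvt
  have hbm : ∀ s ∈ S, ∀ t ∈ S, ¬ G.Adj (a t) (b t) → b s ≠ a t := by
    intro s hs t ht hvt h
    have h1 : G.Adj s (a t) := h ▸ hb s hs
    have h2 := hinj t ht hvt s hs h1
    rw [h2] at h
    exact hab t ht h.symm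
  have ham : ∀ s ∈ S, ∀ t ∈ S, ¬ G.Adj (a t) (b t) → a s = a t → s = t := by
    intro s hs t ht hvt h
    exact hinj t ht hvt s hs (h ▸ ha s hs)
  have hrb : ∀ s ∈ S, ¬ G.Adj (a s) (b s) → r s ≠ b s := by
    intro s hs hv h
    exact hv (h ▸ (hma s hs hv (r s)).2 (Or.inr rfl))
  -- the contracted map
  obtain ⟨φ, α, hlm, hα⟩ := contract_sources hG S.toFinset a
    (fun s hs => ha s (Set.mem_toFinset.1 hs))
    (fun s hs h => haS s (Set.mem_toFinset.1 hs) (Set.mem_toFinset.1 h))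
  obtain ⟨lam, hlam⟩ : ∃ lam : G.Dart → V, lam = fun d =>
    if d.fst ∈ S.toFinset then a d.fst else d.fst := ⟨_, rfl⟩
  rw [← hlam] at hlm
  have lamS : ∀ d : G.Dart, d.fst ∈ S → lam d = a d.fst := fun d hd => by
    rw [hlam]
    exact if_pos (Set.mem_toFinset.2 hd)
  have lamN : ∀ d : G.Dart, d.fst ∉ S → lam d = d.fst := fun d hd => by
    rw [hlam]
    exact if_neg (fun h => hd (Set.mem_toFinset.1 h))
  obtain ⟨H, hH⟩ : ∃ H : V → V → Prop, H = fun u v => (u ∉ S ∧ v ∉ S ∧ G.Adj u v) ∨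
    ∃ s ∈ S, (u = a s ∧ v = b s) ∨ (u = b s ∧ v = a s) := ⟨_, rfl⟩
  have hHdef : ∀ u v, H u v ↔ (u ∉ S ∧ v ∉ S ∧ G.Adj u v) ∨
      ∃ s ∈ S, (u = a s ∧ v = b s) ∨ (u = b s ∧ v = a s) := fun u v => by rw [hH]
  have hHsymm : ∀ u v, H u v → H v u := by
    intro u v h
    rw [hHdef] at h ⊢
    rcases h with ⟨h1, h2, h3⟩ | ⟨s, hs, h1 | h1⟩
    · exact Or.inl ⟨h2, h1, h3.symm⟩
    · exact Or.inr ⟨s, hs, Or.inr ⟨h1.2, h1.1⟩⟩
    · exact Or.inr ⟨s, hs, Or.inl ⟨h1.2, h1.1⟩⟩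
  have hHc : ∀ u v, H u v → c u ≠ c v := by
    intro u v h
    rw [hHdef] at h
    rcases h with ⟨h1, h2, h3⟩ | ⟨s, hs, ⟨rfl, rfl⟩ | ⟨rfl, rfl⟩⟩
    · exact hc u v h1 h2 h3
    · exact hcab s hs
    · exact (hcab s hs).symm
  have hlive : ∀ u v, (∃ d, α d ≠ d ∧ lam d = u ∧ lam (α d) = v) ↔ H u v := by
    intro u v
    rw [hHdef]
    constructor
    · rintro ⟨d, hd, rfl, rfl⟩
      have hncon : ¬ Con S.toFinset a d := fun h => hd ((hα d).1 h)
      rw [(hα d).2 hncon]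
      by_cases h1 : d.fst ∈ S
      · have h2 : d.snd = b d.fst := by
          rcases (hnb d.fst h1 d.snd).1 d.adj with h3 | h3
          · exact absurd (Or.inl ⟨Set.mem_toFinset.2 h1, h3⟩) hncon
          · exact h3
        have h3 : d.symm.fst ∉ S := by
          change d.snd ∉ S
          rw [h2]
          exact hbS _ h1
        rw [lamS d h1, lamN d.symm h3]
        exact Or.inr ⟨d.fst, h1, Or.inl ⟨rfl, h2⟩⟩
      · by_cases h2 : d.snd ∈ S
        · have h3 : d.fst = b d.snd := by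
            rcases (hnb d.snd h2 d.fst).1 d.adj.symm with h3 | h3
            · exact absurd (Or.inr ⟨Set.mem_toFinset.2 h2, h3⟩) hncon
            · exact h3
          have h4 : lam d.symm = a d.snd := lamS d.symm h2
          rw [lamN d h1, h4]
          exact Or.inr ⟨d.snd, h2, Or.inr ⟨h3, rfl⟩⟩
        · have h4 : lam d.symm = d.snd := lamN d.symm h2
          rw [lamN d h1, h4]
          exact Or.inl ⟨h1, h2, d.adj⟩
    · have hdart : ∀ d : G.Dart, ¬ Con S.toFinset a d →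
          α d ≠ d ∧ α d = d.symm := by
        intro d hd
        have h1 := (hα d).2 hd
        exact ⟨by rw [h1]; exact SimpleGraph.Dart.symm_ne d, h1⟩
      rintro (⟨h1, h2, h3⟩ | ⟨s, hs, ⟨rfl, rfl⟩ | ⟨rfl, rfl⟩⟩)
      · obtain ⟨k1, k2⟩ := hdart ⟨(u, v), h3⟩ (by
          rintro (⟨h4, -⟩ | ⟨h4, -⟩)
          · exact h1 (Set.mem_toFinset.1 h4)
          · exact h2 (Set.mem_toFinset.1 h4))
        refine ⟨⟨(u, v), h3⟩, k1, lamN _ h1, ?_⟩
        rw [k2]
        exact lamN _ h2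
      · obtain ⟨k1, k2⟩ := hdart ⟨(s, b s), hb s hs⟩ (by
          rintro (⟨-, h4⟩ | ⟨h4, -⟩)
          · exact hab s hs h4.symm
          · exact hbS s hs (Set.mem_toFinset.1 h4))
        refine ⟨⟨(s, b s), hb s hs⟩, k1, lamS _ hs, ?_⟩
        rw [k2]
        exact lamN _ (hbS s hs)
      · obtain ⟨k1, k2⟩ := hdart ⟨(b s, s), (hb s hs).symm⟩ (by
          rintro (⟨h4, -⟩ | ⟨-, h4⟩)
          · exact hbS s hs (Set.mem_toFinset.1 h4)
          · exact hab s hs h4.symm)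
        refine ⟨⟨(b s, s), (hb s hs).symm⟩, k1, lamN _ (hbS s hs), ?_⟩
        rw [k2]
        exact lamS _ hs
  obtain ⟨φ2, α2, hlm2, -, hadj2, hsimple⟩ := simple_map hlm (fun d hd h => by
    exact hHc _ _ ((hlive _ _).1 ⟨d, hd, rfl, rfl⟩) (by rw [← h]))
  obtain ⟨p, hp⟩ := P1 G.Dart φ2 α2 lam c hlm2
    (fun d hd => hHc _ _ ((hlive _ _).1 ((hadj2 _ _).1 ⟨d, hd, rfl, rfl⟩))) hsimple
  have hpH : Strict H c p := by
    refine ⟨hp.1, fun z u v w h1 h2 h3 h4 h5 h6 => hp.2 z u v w h1 h2 h3 h4 ?_ ?_⟩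
    · exact (hadj2 _ _).2 ((hlive _ _).2 h5)
    · exact (hadj2 _ _).2 ((hlive _ _).2 h6)
  -- neighbours of the middle vertices
  have hHm : ∀ s ∈ S, ¬ G.Adj (a s) (b s) → ∀ v, H (a s) v ↔ v = r s ∨ v = b s := by
    intro s hs hv v
    rw [hHdef]
    constructor
    · rintro (⟨-, h2, h3⟩ | ⟨t, ht, ⟨h1, h2⟩ | ⟨h1, h2⟩⟩)
      · rcases (hma s hs hv v).1 h3 with h4 | h4
        · exact absurd (h4 ▸ hs) h2
        · exact Or.inl h4
      · have h3 : t = s := hinj s hs hv t ht (h1 ▸ ha t ht)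
        right
        rw [h2, h3]
      · exfalso
        have h3 : t = s := hinj s hs hv t ht (h1 ▸ hb t ht)
        rw [h3] at h1
        exact hab s hs h1
    · rintro (rfl | rfl)
      · exact Or.inl ⟨haS s hs, hrS s hs hv, (hma s hs hv _).2 (Or.inr rfl)⟩
      · exact Or.inr ⟨s, hs, Or.inl ⟨rfl, rfl⟩⟩
  -- relocation
  obtain ⟨q, hq, hqM⟩ := reloc H hHsymm c hHc p hpH
    ({m : V | ∃ s ∈ S, ¬ G.Adj (a s) (b s) ∧ m = a s}).toFinset (by
      intro m hm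
      rw [Set.mem_toFinset] at hm
      obtain ⟨s, hs, hv, rfl⟩ := hm
      refine ⟨r s, b s, hrb s hs hv, ?_, ?_, hHm s hs hv⟩
      · rw [Set.mem_toFinset]
        rintro ⟨t, ht, hvt, h⟩
        exact hrm s hs hv t ht hvt h
      · rw [Set.mem_toFinset]
        rintro ⟨t, ht, hvt, h⟩
        exact hbm s hs t ht hvt h)
  have hqm : ∀ s ∈ S, ¬ G.Adj (a s) (b s) → q (r s) < q (a s) ∨ q (b s) < q (a s) := by
    intro s hs hv
    obtain ⟨v, hv1, hv2⟩ := hqM (a s) (Set.mem_toFinset.2 ⟨s, hs, hv, rfl⟩)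
    rcases (hHm s hs hv v).1 hv1 with rfl | rfl
    · exact Or.inl hv2
    · exact Or.inr hv2
  -- the exchange of names
  obtain ⟨B, hB⟩ : ∃ B : Set V, B = {s | s ∈ S ∧ ¬ G.Adj (a s) (b s) ∧ q (r s) < q (b s)} :=
    ⟨_, rfl⟩
  have hBdef : ∀ s, s ∈ B ↔ s ∈ S ∧ ¬ G.Adj (a s) (b s) ∧ q (r s) < q (b s) := fun s => by
    rw [hB]; rfl
  obtain ⟨σ, σσ, σ1, σ2, σ3⟩ := Main_sigma B a
    (fun s hs t ht h => haS s ((hBdef s).1 hs).1 (h ▸ ((hBdef t).1 ht).1))
    (fun s hs t ht h => ham s ((hBdef s).1 hs).1 t ((hBdef t).1 ht).1 ((hBdef t).1 ht).2.1 h)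
  have σfix : ∀ v, v ∉ S → (∀ t ∈ S, ¬ G.Adj (a t) (b t) → q (r t) < q (b t) → v ≠ a t) →
      σ v = v := by
    intro v hv h
    refine σ3 v (fun h1 => hv ((hBdef v).1 h1).1) fun t ht => ?_
    obtain ⟨h1, h2, h3⟩ := (hBdef t).1 ht
    exact h t h1 h2 h3
  have σb : ∀ s ∈ S, σ (b s) = b s := fun s hs =>
    σfix _ (hbS s hs) fun t ht hvt _ => hbm s hs t ht hvt
  have σr : ∀ s ∈ S, ¬ G.Adj (a s) (b s) → σ (r s) = r s := fun s hs hv =>
    σfix _ (hrS s hs hv) fun t ht hvt _ => hrm s hs hv t ht hvt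
  have σa : ∀ s ∈ S, s ∉ B → σ (a s) = a s := by
    intro s hs hsB
    refine σfix _ (haS s hs) fun t ht hvt hqt h => ?_
    have h1 := ham s hs t ht hvt h
    apply hsB
    rw [h1]
    exact (hBdef t).2 ⟨ht, hvt, hqt⟩
  have σs : ∀ s ∈ S, s ∉ B → σ s = s := by
    intro s hs hsB
    refine σ3 s hsB fun t ht h => ?_
    exact haS t ((hBdef t).1 ht).1 (h ▸ hs)
  have σeq : ∀ u v, σ u = v → u = σ v := fun u v h => by rw [← h, σσ]
  refine ⟨σ, ?_⟩
  have hexist : ∀ s : V, ∃ x y : V, s ∈ S → x ∉ S ∧ y ∉ S ∧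
      (∀ v, (G.comap σ).Adj s v → v = x ∨ v = y) ∧ H x y ∧ q x < q y ∧
      ((G.comap σ).Adj x y ∨ ∀ z, H z y → q x ≤ q z) := by
    intro s
    by_cases hs : s ∈ S
    swap
    · exact ⟨s, s, fun h => absurd h hs⟩
    by_cases hv : G.Adj (a s) (b s)
    · have hsB : s ∉ B := fun h => ((hBdef s).1 h).2.1 hv
      have hn : ∀ v, (G.comap σ).Adj s v → v = a s ∨ v = b s := by
        intro v h
        have h1 : G.Adj (σ s) (σ v) := h
        rw [σs s hs hsB] at h1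
        rcases (hnb s hs _).1 h1 with h2 | h2
        · left
          rw [σeq _ _ h2, σa s hs hsB]
        · right
          rw [σeq _ _ h2, σb s hs]
      have hadj : (G.comap σ).Adj (a s) (b s) := by
        change G.Adj (σ (a s)) (σ (b s))
        rw [σa s hs hsB, σb s hs]
        exact hv
      rcases lt_trichotomy (q (a s)) (q (b s)) with h | h | h
      · exact ⟨a s, b s, fun _ => ⟨haS s hs, hbS s hs, hn,
          (hHdef _ _).2 (Or.inr ⟨s, hs, Or.inl ⟨rfl, rfl⟩⟩), h, Or.inl hadj⟩⟩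
      · exact absurd (hq.1 h) (hab s hs)
      · exact ⟨b s, a s, fun _ => ⟨hbS s hs, haS s hs, fun v h => (hn v h).symm,
          (hHdef _ _).2 (Or.inr ⟨s, hs, Or.inr ⟨rfl, rfl⟩⟩), h, Or.inl hadj.symm⟩⟩
    · by_cases hsB : s ∈ B
      · have hlt := ((hBdef s).1 hsB).2.2
        refine ⟨r s, a s, fun _ => ⟨hrS s hs hv, haS s hs, ?_, ?_, ?_, Or.inr ?_⟩⟩
        · intro v h
          have h1 : G.Adj (σ s) (σ v) := h
          rw [σ1 s hsB] at h1
          rcases (hma s hs hv _).1 h1 with h2 | h2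
          · right
            rw [σeq _ _ h2, σ1 s hsB]
          · left
            rw [σeq _ _ h2, σr s hs hv]
        · exact hHsymm _ _ ((hHm s hs hv _).2 (Or.inl rfl))
        · rcases hqm s hs hv with h | h <;> omega
        · intro z hz
          rcases (hHm s hs hv z).1 (hHsymm _ _ hz) with rfl | rfl
          · exact le_rfl
          · exact hlt.le
      · have hle : q (b s) ≤ q (r s) := by
          by_contra h
          push Not at h
          exact hsB ((hBdef s).2 ⟨hs, hv, h⟩)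
        refine ⟨b s, a s, fun _ => ⟨hbS s hs, haS s hs, ?_, ?_, ?_, Or.inr ?_⟩⟩
        · intro v h
          have h1 : G.Adj (σ s) (σ v) := h
          rw [σs s hs hsB] at h1
          rcases (hnb s hs _).1 h1 with h2 | h2
          · right
            rw [σeq _ _ h2, σa s hs hsB]
          · left
            rw [σeq _ _ h2, σb s hs]
        · exact hHsymm _ _ ((hHm s hs hv _).2 (Or.inr rfl))
        · rcases hqm s hs hv with h | h <;> omega
        · intro z hz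
          rcases (hHm s hs hv z).1 (hHsymm _ _ hz) with rfl | rfl
          · exact hle
          · exact le_rfl
  choose x y hxy using hexist
  refine insert_wbs (G.comap σ) H c q hq hHc S x y (fun s hs => (hxy s hs).1)
    (fun s hs => (hxy s hs).2.1) ?_ (fun s hs => (hxy s hs).2.2.1)
    (fun s hs => (hxy s hs).2.2.2.1) (fun s hs => (hxy s hs).2.2.2.2.1)
    (fun s hs => (hxy s hs).2.2.2.2.2)
  -- the edges outside of `S`
  have hside : ∀ s ∈ B, ∀ v, v ∉ S → G.Adj s (σ v) → v = b s := by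
    intro s hsB v hv h
    obtain ⟨hs, hvs, -⟩ := (hBdef s).1 hsB
    rcases (hnb s hs _).1 h with h2 | h2
    · exfalso
      apply hv
      rw [σeq _ _ h2, σ2 s hsB]
      exact hs
    · rw [σeq _ _ h2, σb s hs]
  intro u v hu hv huv
  have h1 : G.Adj (σ u) (σ v) := huv
  by_cases h2 : ∃ s ∈ B, u = a s
  · obtain ⟨s, hsB, rfl⟩ := h2
    rw [σ2 s hsB] at h1
    have h3 := hside s hsB v hv h1
    exact (hHdef _ _).2 (Or.inr ⟨s, ((hBdef s).1 hsB).1, Or.inl ⟨rfl, h3⟩⟩)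
  · have h4 : σ u = u := by
      refine σ3 u (fun h => hu ((hBdef u).1 h).1) fun t ht h => h2 ⟨t, ht, h⟩
    by_cases h5 : ∃ s ∈ B, v = a s
    · obtain ⟨s, hsB, rfl⟩ := h5
      rw [σ2 s hsB] at h1
      have h3 := hside s hsB u hu h1.symm
      exact (hHdef _ _).2 (Or.inr ⟨s, ((hBdef s).1 hsB).1, Or.inr ⟨h3, rfl⟩⟩)
    · have h6 : σ v = v := by
        refine σ3 v (fun h => hv ((hBdef v).1 h).1) fun t ht h => h5 ⟨t, ht, h⟩
      rw [h4, h6] at h1
      exact (hHdef _ _).2 (Or.inl ⟨hu, hv, h1⟩)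

end Pool.Agent.Lib.H55D
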