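import Pool.Agent.Lib.H55D.Main
import Pool.Agent.Lib.H92W.WBS

set_option autoImplicit false

/-!
# Assembly of Parts 2 and 3
-/

namespace Pool.Agent.Lib.H55D

open Equiv Equiv.Perm H71S
open Pool.Agent.Lib.CookLevin (IsPlanar)

/-- Parts 2 and 3: the hypothesis `P1` is Part 1 (strict orders of planar bipartite maps). -/
theorem seg (V : Type) [Finite V] (G : SimpleGraph V) (hG : IsPlanar G)
    (hS : (G.induce {v | ¬ Special G v}).Colorable 2)
    (P1 : ∀ (D : Type) [Finite D] (φ α : Perm D) (lam : D → V) (c : V → Bool), LM φ α lam →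
      (∀ d, α d ≠ d → c (lam d) ≠ c (lam (α d))) →
      (∀ d e, α d ≠ d → α e ≠ e → lam d = lam e → lam (α d) = lam (α e) → d = e) →
      ∃ p : V → ℕ, Strict (fun u v => ∃ d, α d ≠ d ∧ lam d = u ∧ lam (α d) = v) c p) :
    ∃ s : V → (ℝ × ℝ) × (ℝ × ℝ), (∀ v, (s v).1 ≠ (s v).2) ∧
      ∀ u v, u ≠ v → (Gᶜ.Adj u v ↔
        (segment ℝ (s u).1 (s u).2 ∩ segment ℝ (s v).1 (s v).2).Nonempty) := by
  classical
  have := Fintype.ofFinite V
  obtain ⟨σ, col, q, hw⟩ := exists_wbs G hG hS P1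
  obtain ⟨s, hs1, hs2⟩ := Pool.Agent.Lib.H92W.wbs V (G.comap σ) col q hw.inj hw.col_ne hw.src hw.book
  refine ⟨fun v => s (σ.symm v), fun v => hs1 _, fun u v huv => ?_⟩
  rw [← hs2 (σ.symm u) (σ.symm v) (fun h => huv (σ.symm.injective h))]
  rw [SimpleGraph.compl_adj, SimpleGraph.compl_adj, SimpleGraph.comap_adj, σ.apply_symm_apply,
    σ.apply_symm_apply]
  constructor
  · rintro ⟨_, h⟩
    exact ⟨fun h2 => huv (σ.symm.injective h2), h⟩
  · rintro ⟨_, h⟩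
    exact ⟨huv, h⟩

end Pool.Agent.Lib.H55D
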