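import Mathlib
import Pool.Agent.Lib.H55D.X3

open NumberField IsDedekindDomain

namespace H55D

open H55B H55C H55N

/-! Chunk X5 (M): subfields. K₀ in L₀. of_rat gives L with Quad L₀ L, TwoExt L, UnrOut L. Let om be the image in L of the primitive cube root of unity of F (it generates F over ℚ: see H55B), K = K₀(om) the
subfield of L generated by the image of K₀ and om (L as a K₀-algebra through L₀; IntermediateField.adjoin K₀ {om}). The image of F in L lies in K, which gives Algebra F K with IsScalarTower F K L. noroot: a root of x^2 + x + 1 in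
K₀ would give one in L₀. rank: om is a root of x^2 + x + 1, irreducible over K₀ because it has no root (degree 2). Sub2 K: the field L. -/

theorem of_rat_sub (K₀ L₀ : Type) [Field K₀] [NumberField K₀] [Field L₀] [NumberField L₀]
    [Algebra K₀ L₀] (hG : IsGalois ℚ L₀) (k : ℕ) (hk : Module.finrank ℚ L₀ = 2 ^ k)
    (hU : UnrQ L₀) :
    ∃ (K : Type) (_ : Field K) (_ : NumberField K) (_ : Algebra F K) (_ : Algebra K₀ K),
      H13E.Quad K₀ K ∧ Sub2 K := by
  classical
  obtain ⟨L, hL1, hL2, hL3, hL4, hQ, hT, hUL⟩ := of_rat L₀ hG k hk hU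
  let hKL : Algebra K₀ L := ((algebraMap L₀ L).comp (algebraMap K₀ L₀)).toAlgebra
  have hnr : ∀ x : K₀, x ^ 2 + x + 1 ≠ 0 := by
    intro x hx
    apply hQ.noroot (algebraMap K₀ L₀ x)
    have h := congrArg (algebraMap K₀ L₀) hx
    simpa only [map_add, map_pow, map_one, map_zero] using h
  have hz := X3_z_root L
  let E : IntermediateField K₀ L := IntermediateField.adjoin K₀ {X3_z L}
  have hmem : X3_z L ∈ E := IntermediateField.mem_adjoin_simple_self K₀ _
  have hint : ∀ x ∈ ({X3_z L} : Set L), IsIntegral K₀ x := by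
    rintro x rfl
    refine ⟨Polynomial.X ^ 2 + Polynomial.X + 1, by monicity!, ?_⟩
    simp only [Polynomial.eval₂_add, Polynomial.eval₂_pow, Polynomial.eval₂_X,
      Polynomial.eval₂_one]
    exact hz
  have hEfin : FiniteDimensional K₀ E := IntermediateField.finiteDimensional_adjoin hint
  have hnf : NumberField E := NumberField.of_module_finite K₀ E
  let ψ : F →+* E := (algebraMap F L).codRestrict E (X3_range K₀ L E hmem)
  let hFE : Algebra F E := ψ.toAlgebra
  have hFEL : IsScalarTower F E L := IsScalarTower.of_algebraMap_eq (fun x => rfl)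
  exact ⟨E, inferInstance, hnf, hFE, inferInstance, ⟨X3_rank K₀ L _ hz hnr, hnr⟩,
    L, hL1, hL2, hL3, inferInstance, hFEL, hT, hUL⟩

end H55D
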